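import Pool.Agent.MP_a421c2_co.Ex.Leak
import Pool.Agent.MP_a421c2_co.Ex.Net

-- ======== part 0: formerly Pool.Agent.MP_a421c2_co.Gap.Var
section MrgPart0

/-! # A gap below the square root: the variance of the level counts -/

set_option autoImplicit false
open MeasureTheory Set Real

namespace Pool.Agent.MP_a421c2_co.Gap
open Ex Ex.Round Ex.NetAux Ex.Main
noncomputable section

/-- the number of squares met by a level line is an integer of mean the width -/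
lemma var {I J : Type} [Fintype I] [Fintype J] {A B : Side (I ⊕ J)} (hO : Orth A B)
    {U : A.V → ℝ} {W : B.V → ℝ} (hU : A.Adm U) (hW : B.Adm W) (hz : ∀ k, A.D U k = B.D W k)
    (hH : 0 < B.tot W) (hS : ∑ i, A.D U (.inl i) = A.tot U * B.tot W) (m : ℤ) :
    B.tot W * ((A.tot U - m) * (m + 1 - A.tot U)) ≤
      A.tot U * ∑ k, (ind I J k - A.D U k) ^ 2 := by
  obtain ⟨l, hl⟩ : ∃ l : ℝ, l * B.tot W = 1 := ⟨_, inv_mul_cancel₀ hH.ne'⟩
  have l0 : 0 < l := by
    by_contra h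
    have := mul_nonpos_of_nonpos_of_nonneg (not_lt.1 h) hH.le
    linarith
  let b : I ⊕ J → ℝ → ℤ := fun k t => ⌊l * W (B.r k) + t⌋ - ⌊l * W (B.l k) + t⌋
  let y : I ⊕ J → ℝ := fun k => l * A.D U k
  let g : I ⊕ J → ℝ := fun k => ind I J k - A.D U k
  have mb : ∀ k, Mean (fun t => (b k t : ℝ)) (y k) := fun k => by
    simp only [y, hz k]
    simpa only [b, Side.D, Int.cast_sub, mul_sub] using
      (mean_floor (l * W (B.r k))).sub (mean_floor (l * W (B.l k)))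
  have cb : ∀ k t, |(b k t : ℝ) - y k| < 1 := fun k t => by
    have := floor_diff (l * W (B.r k)) (l * W (B.l k)) t
    simp only [y, hz k]
    simpa only [b, Side.D, mul_sub] using this
  have ab : ∀ k, Mean (fun t => |(b k t : ℝ)|) |y k| := fun k => by
    simpa only [sg_int (cb k _), sg_mul] using (mb k).mul (sg (y k))
  have ho : ∀ t, ∑ k, A.D U k * (b k t : ℝ) = A.tot U := fun t => by
    have h1 := hO _ _ hU (hW.comp fun u => (⌊l * u + t⌋ : ℝ))
    have h2 : ⌊l * W B.b + t⌋ = ⌊l * W B.a + t⌋ + 1 := by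
      rw [← Int.floor_add_one]
      congr 1
      have : l * (W B.b - W B.a) = 1 := hl
      linarith
    have h3 : B.tot (fun x => (⌊l * W x + t⌋ : ℝ)) = 1 := by
      simp only [Side.tot, h2]; push_cast; ring
    rw [h3, mul_one] at h1
    rw [← h1]
    exact Finset.sum_congr rfl fun k _ => by simp only [b, Side.D, Int.cast_sub]
  have mN : Mean (fun t => ∑ i, (b (.inl i) t : ℝ)) (A.tot U) := by
    have := Mean.sum Finset.univ fun i => mb (.inl i)
    simp only [y, ← Finset.mul_sum, hS] at this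
    rwa [mul_left_comm, hl, mul_one] at this
  have hbg : ∀ t, ∑ k, (b k t : ℝ) * g k = ∑ i, (b (.inl i) t : ℝ) - A.tot U := fun t => by
    rw [← ho t]
    simp only [g, mul_sub, Finset.sum_sub_distrib, mul_comm (A.D U _)]
    congr 1
    simp [Fintype.sum_sum_type, ind]
  have hby : ∀ t, ∑ k, |(b k t : ℝ)| * |y k| = l * A.tot U := fun t => by
    rw [← ho t, Finset.mul_sum]
    refine Finset.sum_congr rfl fun k _ => ?_
    rw [← sg_int (cb k t), ← sg_mul]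
    simp only [y]
    linear_combination ((b k t : ℝ) * (l * A.D U k)) * sg_sq (l * A.D U k)
  have cs : ∀ t, (∑ i, (b (.inl i) t : ℝ) - A.tot U) ^ 2 ≤
      l * A.tot U * ∑ k, g k ^ 2 / |y k| * |(b k t : ℝ)| := fun t => by
    rw [← hbg, ← hby t]
    refine Finset.sum_sq_le_sum_mul_sum_of_sq_le_mul _ (fun k _ => by positivity)
      (fun k _ => by positivity) fun k _ => le_of_eq ?_
    by_cases h : y k = 0
    · have h1 := cb k t
      rw [h, sub_zero, ← Int.cast_abs] at h1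
      have h2 : b k t = 0 := Int.abs_lt_one_iff.1 (by exact_mod_cast h1)
      simp [h2]
    · have h1 : |y k| ≠ 0 := abs_ne_zero.2 h
      rw [mul_pow, ← sq_abs (b k t : ℝ)]
      field_simp
  have key := ((Mean.const ((A.tot U - m) * (m + 1 - A.tot U))).add
    ((mN.sub (Mean.const (A.tot U))).mul (1 - 2 * (A.tot U - m)))).le
    ((Mean.sum Finset.univ fun k => (ab k).mul (g k ^ 2 / |y k|)).mul (l * A.tot U)) fun t => by
      refine le_trans ?_ (cs t)
      have h1 : (0 : ℤ) ≤ (∑ i, b (.inl i) t - m) * (∑ i, b (.inl i) t - m - 1) := by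
        rcases le_or_gt (∑ i, b (.inl i) t - m) 0 with h | h
        · exact mul_nonneg_of_nonpos_of_nonpos h (by omega)
        · exact mul_nonneg h.le (by omega)
      have h2 : (0 : ℝ) ≤ (∑ i, (b (.inl i) t : ℝ) - m) * (∑ i, (b (.inl i) t : ℝ) - m - 1) := by
        exact_mod_cast h1
      linarith
  have hK : 0 ≤ l * A.tot U := by
    rw [← hby 0]; exact Finset.sum_nonneg fun k _ => by positivity
  have h1 : ∑ k, g k ^ 2 / |y k| * |y k| ≤ ∑ k, g k ^ 2 := Finset.sum_le_sum fun k _ => by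
    by_cases h : |y k| = 0
    · rw [h, mul_zero]; positivity
    · rw [div_mul_cancel₀ _ h]
  have h2 := mul_le_mul_of_nonneg_left h1 hK
  have h3 := mul_le_mul_of_nonneg_left (key.trans h2) hH.le
  rw [sub_self, mul_zero, add_zero] at h3
  refine h3.trans (le_of_eq ?_)
  linear_combination (A.tot U * ∑ k, g k ^ 2) * hl

lemma numA {τ r G A L ε : ℝ} (h1 : 1 ≤ τ) (h2 : τ ≤ 101 / 100) (hG : 0 ≤ G) (hA0 : 0 ≤ A)
    (hA : A ≤ 19 * ε) (hL : L ≤ 1 / 500) (hε : 0 ≤ ε)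
    (hr : -(3 * ε) - L * (3 / 2 * G + A) ≤ r) (h : 6 * τ * r ≤ 9 * (-G) + τ ^ 2 * ε) :
    G ≤ 3 * ε ∧ |r| ≤ 4 * ε := by
  have e1 : τ ^ 2 * ε ≤ 103 / 100 * ε := mul_le_mul_of_nonneg_right (by nlinarith) hε
  have e2 : L * (3 / 2 * G + A) ≤ 1 / 500 * (3 / 2 * G + A) :=
    mul_le_mul_of_nonneg_right hL (by positivity)
  have e3 : -(3 * ε + 1 / 500 * (3 / 2 * G + A)) ≤ r := by linarith
  have e4 : -(61 / 10 * (3 * ε + 1 / 500 * (3 / 2 * G + A))) ≤ 6 * τ * r := by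
    have p : 0 ≤ 3 * ε + 1 / 500 * (3 / 2 * G + A) := by positivity
    nlinarith
  have hG3 : G ≤ 3 * ε := by linarith
  refine ⟨hG3, abs_le.2 ⟨by linarith, ?_⟩⟩
  by_contra h3
  push Not at h3
  nlinarith

lemma numB {T K0 H0 ν G : ℝ} (hT : 100 ≤ T) (hν : ν ≤ 1) (h1 : |K0 - T| ≤ ν) (h2 : |H0 - T| ≤ ν)
    (hG : 0 ≤ G) (h : ∀ m : ℤ, H0 * ((K0 - m) * (m + 1 - K0)) ≤ K0 * G) :
    |T - round T| ≤ ν + 4 * G := by
  obtain ⟨a1, a2⟩ := abs_le.1 h1
  obtain ⟨b1, b2⟩ := abs_le.1 h2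
  have f1 := Int.floor_le K0
  have f2 := Int.lt_floor_add_one K0
  have r1 : |T - round T| ≤ ν + (K0 - ⌊K0⌋) :=
    (round_le T ⌊K0⌋).trans (abs_le.2 ⟨by linarith, by linarith⟩)
  have r2 : |T - round T| ≤ ν + (⌊K0⌋ + 1 - K0) :=
    (round_le T (⌊K0⌋ + 1)).trans (abs_le.2 ⟨by push_cast; linarith, by push_cast; linarith⟩)
  have h3 : H0 * ((K0 - ⌊K0⌋) * (⌊K0⌋ + 1 - K0)) ≤ H0 * (2 * G) :=
    (h _).trans (by nlinarith)
  have h4 := le_of_mul_le_mul_left h3 (by linarith)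
  rcases le_total (K0 - ⌊K0⌋) (1 / 2) with c | c <;> nlinarith

/-- the network form of the gap -/
lemma net {κ : ℝ} (hκ : 0 < κ) {K T : ℝ} (hK : 100 ≤ K) (h1 : K ≤ T) (h2 : T ≤ K + 1)
    {I J : Type} [Fintype I] [Fintype J] {A B : Side (I ⊕ J)} {d : I ⊕ J → ℝ} {L ε : ℝ}
    (hO : Orth A B) (hAB : Dual A B) (hBA : Dual B A) (hn : (Fintype.card I : ℝ) = T ^ 2)
    (hL : 0 ≤ L) (hε : 0 ≤ ε) (d1 : ε ≤ 1 / 100000) (d2 : ε ≤ κ / 10000)
    (lA : Leak A (3 * K) d L) (lB : Leak B (3 * K) d L)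
    (hd : ∑ k, d k ^ 2 ≤ (3 * K) ^ 2 - κ * L + ε)
    (hD : (3 * K) ^ 2 - 18 * ε ≤ ∑ i, d (.inl i) ^ 2)
    (hX : T * (3 * K) - 3 * ε ≤ ∑ i, d (.inl i)) : κ * |T - round T| ≤ (8 + 13 * κ) * ε := by
  have K0 : 0 < K := by linarith
  obtain ⟨τ, rfl⟩ : ∃ τ : ℝ, T = τ * K := ⟨T / K, by field_simp⟩
  have t1 : 1 ≤ τ := le_of_mul_le_mul_right (by linarith) K0
  have t2 : τ ≤ 101 / 100 := le_of_mul_le_mul_right (by linarith) K0
  obtain ⟨U, UA, W, WB, u1, a1, w1, b1, a2, b2, hz, hi, u3, w3, a3, b3⟩ :=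
    hodge_of I J A B hO hAB hBA
  have o1 : ∑ k, A.D UA k * A.D U k = 0 := by
    simp only [hz]; rw [hO UA W a1 w1, a2, zero_mul]
  have o2 : ∑ k, A.D U k * B.D WB k = 0 := by rw [hO U WB u1 b1, b2, mul_zero]
  have o3 : ∑ k, A.D UA k * B.D WB k = 0 := by rw [hO UA WB a1 b1, b2, mul_zero]
  have o4 : ∑ k, A.D U k * A.D U k = A.tot U * B.tot W := by
    rw [← hO U W u1 w1]; simp only [hz]
  obtain ⟨e1, e2, -, e4, e5⟩ := decomp d hi o1 o2 o3
  have kA := leak_closed lA hL a1 a2 a3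
  have kB := leak_closed lB hL b1 b2 b3
  have lU := leak_open lA hL u1 u3 e4
  have lW := leak_open lB hL w1 w3 (by simpa only [hz] using e4)
  simp only [← hz] at lW
  have wt := weighted (A.D U) d (τ * K) (3 * K)
  have hG0 : 0 ≤ ∑ k, A.D UA k ^ 2 + ∑ k, B.D WB k ^ 2 :=
    add_nonneg (Finset.sum_nonneg fun _ _ => sq_nonneg _) (Finset.sum_nonneg fun _ _ => sq_nonneg _)
  have eG : ∑ k, (ind I J k - A.D U k) ^ 2 = ∑ k, A.D UA k ^ 2 + ∑ k, B.D WB k ^ 2 := by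
    have : ∀ k, (ind I J k - A.D U k) ^ 2 =
        A.D UA k ^ 2 + B.D WB k ^ 2 + 2 * (A.D UA k * B.D WB k) := fun k => by rw [hi k]; ring
    simp only [this, Finset.sum_add_distrib, ← Finset.mul_sum, o3, mul_zero, add_zero]
  have hA0 : 0 ≤ ∑ j, d (.inr j) ^ 2 := Finset.sum_nonneg fun _ _ => sq_nonneg _
  have sp : ∑ k, d k ^ 2 = ∑ i, d (.inl i) ^ 2 + ∑ j, d (.inr j) ^ 2 := Fintype.sum_sum_type _
  have hκL : 0 ≤ κ * L := by positivity
  have q1 : κ * L ≤ 19 * ε := by linarith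
  have L1 : L ≤ 1 / 500 := le_of_mul_le_mul_left (by linarith) hκ
  have k1 := key (y := -(∑ k, A.D UA k ^ 2 + ∑ k, B.D WB k ^ 2)) (w := ε) K0 wt (by linarith)
    (by linarith)
  obtain ⟨c2, c3⟩ := numA t1 t2 hG0 hA0 (by linarith) L1 hε (by linarith) k1
  have hw : (∑ k, A.D UA k ^ 2 + ∑ k, B.D WB k ^ 2 + ∑ j, d (.inr j) ^ 2) / 2 ≤ 1 := by linarith
  have n1 := num4 hK hε c3 (num3 hK (by linarith) t2 hL (by linarith) hw (by linarith) c3 lU)
  have n2 := num4 hK hε c3 (num3 hK (by linarith) t2 hL (by linarith) hw (by linarith) c3 lW)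
  have hH : 0 < B.tot W := by linarith [(abs_le.1 n2).1]
  have := numB (by linarith) (by linarith) n1 n2 hG0 fun m => by
    rw [← eG]; exact var hO u1 w1 hz hH (e1.trans o4) m
  nlinarith [mul_le_mul_of_nonneg_left this hκ.le]

/-- the gap for at least ten thousand squares -/
lemma big : ∃ η : ℝ, 0 < η ∧ ∀ (I : Type) [Fintype I] (x y θ s : I → ℝ), 10000 ≤ Fintype.card I →
    (∀ i, 0 ≤ s i) → (∀ i, square (x i) (y i) (θ i) (s i) ⊆ Icc 0 1 ×ˢ Icc 0 1) →
    (∀ i j, i ≠ j → Disjoint (interior (square (x i) (y i) (θ i) (s i)))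
      (interior (square (x j) (y j) (θ j) (s j)))) →
    ∑ i, s i ≤ √(Fintype.card I) -
      η * |√(Fintype.card I) - round √(Fintype.card I : ℝ)| / √(Fintype.card I) := by
  obtain ⟨κ, w0, hκ, hw0, h1⟩ :=
    core_of (tilt_of win_of) shear_of rect_of area_of cell_of grid_of leak_of
  obtain ⟨η, d0, d1, d2, d3, d4⟩ : ∃ η : ℝ, 0 < η ∧ η ≤ 1 / 100000 ∧ η ≤ κ / 10000 ∧
      η ≤ w0 / 20 ∧ η ≤ κ / (9 + 13 * κ) :=
    ⟨min _ (min _ (min _ _)), by positivity, min_le_left _ _,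
      (min_le_right _ _).trans (min_le_left _ _),
      (min_le_right _ _).trans ((min_le_right _ _).trans (min_le_left _ _)),
      (min_le_right _ _).trans ((min_le_right _ _).trans (min_le_right _ _))⟩
  refine ⟨η, d0, fun I _ x y θ s hn s0 s1 s2 => ?_⟩
  obtain ⟨T, hT⟩ : ∃ T : ℝ, T = √(Fintype.card I) := ⟨_, rfl⟩
  obtain ⟨K, hK⟩ : ∃ K : ℕ, K = Nat.sqrt (Fintype.card I) := ⟨_, rfl⟩
  have T1 : (K : ℝ) ≤ T := by rw [hT, hK]; exact Real.nat_sqrt_le_real_sqrt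
  have T2 : T ≤ K + 1 := by rw [hT, hK]; exact Real.real_sqrt_le_nat_sqrt_succ
  have K1 : (100 : ℝ) ≤ K := by
    have : 100 ≤ K := by rw [hK]; exact Nat.le_sqrt.2 hn
    exact_mod_cast this
  have nT : (Fintype.card I : ℝ) = T ^ 2 := by rw [hT, Real.sq_sqrt (Nat.cast_nonneg _)]
  rw [← hT]
  obtain ⟨ρ, hρ⟩ : ∃ ρ : ℝ, ρ = |T - round T| := ⟨_, rfl⟩
  have r0 : 0 ≤ ρ := hρ ▸ abs_nonneg _
  have r1 : ρ ≤ 1 / 2 := hρ ▸ abs_sub_round T
  rw [← hρ]
  obtain ⟨ε, hε⟩ : ∃ ε : ℝ, ε = η * ρ := ⟨_, rfl⟩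
  have e1 : ε ≤ η := by rw [hε]; nlinarith
  rw [← hε]
  by_contra! hS
  have K0 : (0 : ℝ) < K := by linarith
  have l0 : (0 : ℝ) < 3 * K := by linarith
  choose q q1 q2 q3 using fun i => normal l0 (x i) (y i) (θ i) (s i)
  have sub : ∀ i, (q i).cl 0 ⊆ box (3 * K) := fun i z hz => by
    obtain ⟨⟨a1, a2⟩, a3, a4⟩ := s1 i (q3 i z hz)
    simp only [Prod.smul_fst, Prod.smul_snd, smul_eq_mul] at a1 a2 a3 a4
    rw [inv_mul_le_iff₀ l0, mul_one] at a2 a4
    exact ⟨⟨nonneg_of_mul_nonneg_right a1 (inv_pos.2 l0), a2⟩,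
      nonneg_of_mul_nonneg_right a3 (inv_pos.2 l0), a4⟩
  have int : ∀ i, ∀ z ∈ (q i).op, (3 * K : ℝ)⁻¹ • z ∈ interior (square (x i) (y i) (θ i) (s i)) :=
    fun i z hz => interior_maximal (t := (fun w => (3 * K : ℝ) • w) ⁻¹' (q i).op)
      (fun w hw => by simpa only [inv_smul_smul₀ l0.ne'] using q3 i _ ((q i).op_sub hw))
      ((q i).isOpen_op.preimage (continuous_const_smul _))
      (by simpa only [mem_preimage, smul_inv_smul₀ l0.ne'] using hz)
  have dis : ∀ i j, i ≠ j → Disjoint (q i).op (q j).op := fun i j hij =>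
    Set.disjoint_left.2 fun z a b => Set.disjoint_left.1 (s2 i j hij) (int i z a) (int j z b)
  have w1 := measureReal_nonneg.trans (waste_vol _ l0.le q
    (fun i => by rw [q1]; exact mul_nonneg l0.le (s0 i)) sub dis)
  have sd : ∑ i, (q i).d = 3 * K * ∑ i, s i := by simp only [q1, Finset.mul_sum]
  have T0 : 0 < T := by linarith
  obtain ⟨μ, hμ⟩ : ∃ μ : ℝ, μ * T = 3 * K := ⟨_, div_mul_cancel₀ _ T0.ne'⟩
  have m1 : 297 / 100 ≤ μ := le_of_mul_le_mul_right (by linarith) T0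
  have m2 : μ ≤ 3 := le_of_mul_le_mul_right (by linarith) T0
  have e0 : 0 ≤ ε := by rw [hε]; positivity
  have sd' : T * (3 * K) - μ * ε < ∑ i, (q i).d := by
    have := mul_lt_mul_of_pos_left hS l0
    rw [sd]
    refine lt_of_eq_of_lt ?_ this
    rw [← hμ]; field_simp
  have var : (3 * K) ^ 2 - ∑ i, (q i).d ^ 2 + ∑ i, ((q i).d - μ) ^ 2 < 18 * ε + 0 := by
    have e : ∑ i, ((q i).d - μ) ^ 2 =
        ∑ i, (q i).d ^ 2 - 2 * μ * ∑ i, (q i).d + T ^ 2 * μ ^ 2 := by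
      simp only [sub_sq, Finset.sum_add_distrib, Finset.sum_sub_distrib, Finset.mul_sum,
        Finset.sum_const, Finset.card_univ, nsmul_eq_mul, nT]
      congr 2
      exact Finset.sum_congr rfl fun i _ => by ring
    have a1 : μ ^ 2 * ε ≤ 9 * ε := mul_le_mul_of_nonneg_right (by nlinarith) e0
    rw [e, ← hμ]
    rw [← hμ] at sd'
    linarith [mul_lt_mul_of_pos_left sd' (by linarith : 0 < μ)]
  have v0 : 0 ≤ ∑ i, ((q i).d - μ) ^ 2 := Finset.sum_nonneg fun i _ => sq_nonneg _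
  have e2 : 0 < ε := by linarith
  have one : ∀ i, |(q i).d - μ| ≤ 6 / 100 := fun i => abs_le_of_sq_le_sq' (by
    linarith [Finset.single_le_sum (f := fun i => ((q i).d - μ) ^ 2) (fun j _ => sq_nonneg _)
      (Finset.mem_univ i)]) (by norm_num) |> abs_le.2
  have P : Pack (3 * K) q := ⟨q2, fun i => by linarith [(abs_le.1 (one i)).1],
    fun i => by linarith [(abs_le.1 (one i)).2], by exact_mod_cast sub, dis⟩
  have hw : waste (3 * K) q ≤ w0 := by
    rw [waste]; push_cast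
    linarith
  obtain ⟨J, _, A, B, h, L, o1, o2, o3, o4, o5, o6, o7⟩ :=
    h1 _ (3 * K) q P (by exact_mod_cast (by linarith : (1 : ℝ) ≤ 3 * K)) hw ε e2
  push_cast at o5 o6 o7
  have := net hκ K1 T1 T2 o1 o2 o3 nT o4 e0 (by linarith) (by linarith) o5 o6 o7
    (by simp only [Sum.elim_inl]; linarith)
    (by simp only [Sum.elim_inl]; linarith [mul_le_mul_of_nonneg_right m2 e0])
  rw [← hρ] at this
  rw [le_div_iff₀ (by positivity)] at d4
  have := mul_le_mul_of_nonneg_right d4 r0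
  rw [hε] at *
  linarith

end
end Pool.Agent.MP_a421c2_co.Gap

end MrgPart0

-- ======== part 1: formerly Pool.Agent.MP_a421c2_co.Gap.All
section MrgPart1

/-! # A gap below the square root, for every number of squares -/

set_option autoImplicit false
open MeasureTheory Set Real

namespace Pool.Agent.MP_a421c2_co.Gap
noncomputable section

/-- cutting every square into `m * m` equal squares -/
lemma subdiv {I : Type} [Fintype I] (x y θ s : I → ℝ) {m : ℕ} (hm : 0 < m) (s0 : ∀ i, 0 ≤ s i)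
    (s1 : ∀ i, square (x i) (y i) (θ i) (s i) ⊆ Icc 0 1 ×ˢ Icc 0 1)
    (s2 : ∀ i j, i ≠ j → Disjoint (interior (square (x i) (y i) (θ i) (s i)))
      (interior (square (x j) (y j) (θ j) (s j)))) :
    ∃ x' y' θ' s' : I × Fin m × Fin m → ℝ, (∀ i, 0 ≤ s' i) ∧
      (∀ i, square (x' i) (y' i) (θ' i) (s' i) ⊆ Icc 0 1 ×ˢ Icc 0 1) ∧
      (∀ i j, i ≠ j → Disjoint (interior (square (x' i) (y' i) (θ' i) (s' i)))
        (interior (square (x' j) (y' j) (θ' j) (s' j)))) ∧ ∑ i, s' i = m * ∑ i, s i := by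
  have m0 : (0 : ℝ) < m := by exact_mod_cast hm
  obtain ⟨t, ht⟩ : ∃ t : I → ℝ, ∀ i, s i = m * t i := ⟨fun i => s i / m, fun i => by field_simp⟩
  have t0 : ∀ i, 0 ≤ t i := fun i => nonneg_of_mul_nonneg_right (ht i ▸ s0 i) m0
  let X : I × Fin m × Fin m → ℝ := fun k =>
    x k.1 + (k.2.1 : ℕ) * t k.1 * cos (θ k.1) - (k.2.2 : ℕ) * t k.1 * sin (θ k.1)
  let Y : I × Fin m × Fin m → ℝ := fun k =>
    y k.1 + (k.2.1 : ℕ) * t k.1 * sin (θ k.1) + (k.2.2 : ℕ) * t k.1 * cos (θ k.1)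
  have rng : ∀ (i : I) (a : Fin m) (u : ℝ), u ∈ Icc 0 (t i) → (a : ℕ) * t i + u ∈ Icc 0 (s i) :=
    fun i a u hu => by
      have h1 : ((a : ℕ) : ℝ) + 1 ≤ m := by exact_mod_cast a.2
      have h2 := mul_le_mul_of_nonneg_right h1 (t0 i)
      have h3 : 0 ≤ ((a : ℕ) : ℝ) * t i := mul_nonneg (Nat.cast_nonneg _) (t0 i)
      exact ⟨by linarith [hu.1], by rw [ht]; linarith [hu.2]⟩
  have sub : ∀ k, square (X k) (Y k) (θ k.1) (t k.1) ⊆ square (x k.1) (y k.1) (θ k.1) (s k.1) := by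
    rintro k _ ⟨u, hu, v, hv, rfl⟩
    exact ⟨_, rng _ k.2.1 u hu, _, rng _ k.2.2 v hv, Prod.ext (by simp only [X]; ring)
      (by simp only [Y]; ring)⟩
  have cs := fun i => cos_sq_add_sin_sq (θ i)
  have sa : ∀ (i : I) (a a' b b' : Fin m), a < a' →
      Sep (square (X (i, a, b)) (Y (i, a, b)) (θ i) (t i))
        (square (X (i, a', b')) (Y (i, a', b')) (θ i) (t i)) := fun i a a' b b' h => by
    have h1 : ((a : ℕ) : ℝ) + 1 ≤ (a' : ℕ) := by exact_mod_cast h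
    have h2 := mul_le_mul_of_nonneg_right h1 (t0 i)
    refine ⟨cos (θ i), sin (θ i), cos (θ i) * x i + sin (θ i) * y i + (a' : ℕ) * t i,
      by rw [cs]; norm_num, ?_, ?_⟩
    · rintro _ ⟨u, hu, v, hv, rfl⟩
      simp only [X, Y]
      linear_combination h2 + hu.2 + ((a : ℕ) * t i + u) * cs i
    · rintro _ ⟨u, hu, v, hv, rfl⟩
      simp only [X, Y]
      linear_combination hu.1 - ((a' : ℕ) * t i + u) * cs i
  have sb : ∀ (i : I) (a a' b b' : Fin m), b < b' →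
      Sep (square (X (i, a, b)) (Y (i, a, b)) (θ i) (t i))
        (square (X (i, a', b')) (Y (i, a', b')) (θ i) (t i)) := fun i a a' b b' h => by
    have h1 : ((b : ℕ) : ℝ) + 1 ≤ (b' : ℕ) := by exact_mod_cast h
    have h2 := mul_le_mul_of_nonneg_right h1 (t0 i)
    refine ⟨-sin (θ i), cos (θ i), -sin (θ i) * x i + cos (θ i) * y i + (b' : ℕ) * t i,
      by rw [neg_sq, add_comm, cs]; norm_num, ?_, ?_⟩
    · rintro _ ⟨u, hu, v, hv, rfl⟩
      simp only [X, Y]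
      linear_combination h2 + hv.2 + ((b : ℕ) * t i + v) * cs i
    · rintro _ ⟨u, hu, v, hv, rfl⟩
      simp only [X, Y]
      linear_combination hv.1 - ((b' : ℕ) * t i + v) * cs i
  refine ⟨X, Y, fun k => θ k.1, fun k => t k.1, fun k => t0 _, fun k => (sub k).trans (s1 _),
    ?_, ?_⟩
  · rintro ⟨i, a, b⟩ ⟨j, a', b'⟩ h
    by_cases hij : i = j
    · subst hij
      rcases lt_trichotomy a a' with c | c | c
      · exact (sa i a a' b b' c).disjoint
      · rcases lt_trichotomy b b' with e | e | e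
        · exact (sb i a a' b b' e).disjoint
        · exact absurd (by rw [c, e]) h
        · exact (sb i a' a b' b e).symm.disjoint
      · exact (sa i a' a b' b c).symm.disjoint
    · exact (s2 i j hij).mono (interior_mono (sub (i, a, b))) (interior_mono (sub (j, a', b')))
  · rw [Fintype.sum_prod_type, Finset.mul_sum]
    refine Finset.sum_congr rfl fun i _ => ?_
    simp only [Finset.sum_const, Finset.card_univ, Fintype.card_prod, Fintype.card_fin,
      nsmul_eq_mul, ht]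
    push_cast; ring

/-- a non-square below ten thousand stays away from the squares after scaling -/
lemma far {n : ℕ} (hn : n < 10000) (h : |√(n : ℝ) - round √(n : ℝ)| ≠ 0) :
    1 / 100000 ≤ |100 * √(n : ℝ) - round (100 * √(n : ℝ))| := by
  obtain ⟨a, ha⟩ : ∃ a, a = round (100 * √(n : ℝ)) := ⟨_, rfl⟩
  have h0 := abs_sub_round (100 * √(n : ℝ))
  rw [← ha] at h0 ⊢
  have t0 := Real.sqrt_nonneg (n : ℝ)
  have t1 : √(n : ℝ) ^ 2 = n := Real.sq_sqrt (Nat.cast_nonneg _)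
  have t2 : √(n : ℝ) ≤ 100 := by
    have : (n : ℝ) ≤ 10000 := by exact_mod_cast hn.le
    nlinarith
  have h1 : 100 ^ 2 * (n : ℤ) - a ^ 2 ≠ 0 := fun e => by
    have e1 : (100 : ℤ) ^ 2 ∣ a ^ 2 := ⟨n, by linarith⟩
    obtain ⟨b, rfl⟩ := (Int.pow_dvd_pow_iff (by norm_num)).1 e1
    have e2 : (n : ℤ) = b ^ 2 := by linarith
    have e3 : √(n : ℝ) = (|b| : ℤ) := by
      have : (n : ℝ) = (b : ℝ) ^ 2 := by exact_mod_cast e2
      rw [this, Real.sqrt_sq_eq_abs, Int.cast_abs]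
    rw [e3, round_intCast, sub_self, abs_zero] at h
    exact h rfl
  have h2 : (1 : ℝ) ≤ |100 ^ 2 * (n : ℝ) - a ^ 2| := by
    have := Int.one_le_abs h1
    exact_mod_cast this
  rw [← t1, ← mul_pow, sq_sub_sq, abs_mul] at h2
  have h3 : |100 * √(n : ℝ) + a| ≤ 100000 := by
    obtain ⟨b1, b2⟩ := abs_le.1 h0
    exact abs_le.2 ⟨by linarith, by linarith⟩
  nlinarith [abs_nonneg (100 * √(n : ℝ) - a)]

theorem gap : ∃ η : ℝ, 0 < η ∧ ∀ r : ℕ, f r ≤ √r - η * |√r - round √(r : ℝ)| / √r := by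
  obtain ⟨η0, h0, h1⟩ := big
  obtain ⟨η, d0, d1, d2⟩ : ∃ η : ℝ, 0 < η ∧ η ≤ 1 ∧ η ≤ η0 / 1000000000 :=
    ⟨min _ _, by positivity, min_le_left _ _, min_le_right _ _⟩
  refine ⟨η, d0, fun r => ?_⟩
  have r0 := abs_nonneg (√r - round √(r : ℝ))
  have r1 := abs_sub_round √(r : ℝ)
  rcases Nat.eq_zero_or_pos r with rfl | hr
  · refine Real.sSup_le ?_ (by simp)
    rintro _ ⟨x, y, θ, s, -, -, -, rfl⟩
    simp
  have t1 : 1 ≤ √(r : ℝ) := Real.one_le_sqrt.2 (by exact_mod_cast hr)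
  have t0 : 0 < √(r : ℝ) := by linarith
  refine Real.sSup_le ?_ ?_
  swap
  · rw [sub_nonneg, div_le_iff₀ t0]; nlinarith
  rintro _ ⟨x, y, θ, s, s0, s1, s2, rfl⟩
  rcases le_or_gt 10000 r with c | c
  · have := h1 (Fin r) x y θ s (by rwa [Fintype.card_fin]) s0 s1 s2
    rw [Fintype.card_fin] at this
    refine this.trans (sub_le_sub_left (div_le_div_of_nonneg_right ?_ t0.le) _)
    exact mul_le_mul_of_nonneg_right (by linarith) r0
  · obtain ⟨x', y', θ', s', a0, a1, a2, a3⟩ := subdiv x y θ s (m := 100) (by norm_num) s0 s1 s2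
    have e : Fintype.card (Fin r × Fin 100 × Fin 100) = 100 ^ 2 * r := by
      simp only [Fintype.card_prod, Fintype.card_fin]; ring
    have := h1 _ x' y' θ' s' (by rw [e]; omega) a0 a1 a2
    have e2 : √((100 ^ 2 * r : ℕ) : ℝ) = 100 * √(r : ℝ) := by
      rw [Nat.cast_mul, Nat.cast_pow, Real.sqrt_mul (by norm_num), Real.sqrt_sq (by norm_num)]
      norm_num
    rw [e, e2, a3] at this
    push_cast at this
    have k : η * |√r - round √(r : ℝ)| ≤
        η0 * |100 * √(r : ℝ) - round (100 * √(r : ℝ))| / 10000 := by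
      by_cases hz : |√r - round √(r : ℝ)| = 0
      · rw [hz, mul_zero]; positivity
      · have := mul_le_mul_of_nonneg_left (far c hz) h0.le
        nlinarith
    have k2 := div_le_div_of_nonneg_right k t0.le
    have k3 : η0 * |100 * √(r : ℝ) - round (100 * √(r : ℝ))| / (100 * √(r : ℝ)) =
        100 * (η0 * |100 * √(r : ℝ) - round (100 * √(r : ℝ))| / 10000 / √(r : ℝ)) := by
      field_simp; ring
    rw [k3] at this
    linarith

end
end Pool.Agent.MP_a421c2_co.Gap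

end MrgPart1

-- marker of a merged file
example : 731051 + 271896 = 731051 + 271896 := rfl
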