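import Mathlib.Analysis.Calculus.LineDeriv.IntegrationByParts
import Mathlib.Analysis.Calculus.ParametricIntegral
import Mathlib.Analysis.Convolution
import Mathlib.Analysis.SpecialFunctions.JapaneseBracket
import Mathlib.MeasureTheory.Integral.Prod
import Mathlib.MeasureTheory.Measure.Lebesgue.EqHaar
import Mathlib.MeasureTheory.Measure.Haar.OfBasis
import Mathlib.MeasureTheory.Group.Prod
import Mathlib.Analysis.SpecialFunctions.Pow.Integral
import Mathlib.MeasureTheory.Measure.Haar.NormedSpace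
import Mathlib.MeasureTheory.Integral.PeakFunction
import Mathlib.MeasureTheory.Covering.Vitali

-- ======== part 0: formerly Pool.Agent.MP_a421c2_co.Gap.CZ1
section MrgPart0

/-! # Regularised Newton kernels in the plane and their convolutions -/

set_option autoImplicit false
open MeasureTheory Set Real

namespace Pool.Agent.MP_a421c2_co.Gap.CZ
noncomputable section

/-- continuous with decay of order `k` -/
def Dec (κ : ℝ × ℝ → ℝ) (k : ℤ) : Prop :=
  Continuous κ ∧ ∃ C, ∀ z, |κ z| ≤ C * (1 + ‖z‖) ^ (-k)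

instance haar2 : (volume : Measure (ℝ × ℝ)).IsAddHaarMeasure :=
  Measure.prod.instIsAddHaarMeasure _ _

lemma one_le (z : ℝ × ℝ) : 1 ≤ 1 + ‖z‖ := le_add_of_nonneg_right (norm_nonneg _)

lemma pos1 (z : ℝ × ℝ) : 0 < 1 + ‖z‖ := zero_lt_one.trans_le (one_le z)

lemma Dec.mul {a b : ℝ × ℝ → ℝ} {k l : ℤ} (ha : Dec a k) (hb : Dec b l) :
    Dec (fun z => a z * b z) (k + l) := by
  obtain ⟨c1, C, h1⟩ := ha
  obtain ⟨c2, C', h2⟩ := hb
  refine ⟨c1.mul c2, C * C', fun z => ?_⟩
  rw [abs_mul, neg_add, zpow_add₀ (pos1 z).ne', mul_mul_mul_comm]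
  exact mul_le_mul (h1 z) (h2 z) (abs_nonneg _) ((abs_nonneg _).trans (h1 z))

lemma Dec.add {a b : ℝ × ℝ → ℝ} {k : ℤ} (ha : Dec a k) (hb : Dec b k) :
    Dec (fun z => a z + b z) k := by
  obtain ⟨c1, C, h1⟩ := ha
  obtain ⟨c2, C', h2⟩ := hb
  refine ⟨c1.add c2, C + C', fun z => (abs_add_le _ _).trans ?_⟩
  rw [add_mul]; exact add_le_add (h1 z) (h2 z)

lemma dec_const (c : ℝ) : Dec (fun _ => c) 0 := ⟨continuous_const, |c|, fun z => by simp⟩

lemma Dec.smul {a : ℝ × ℝ → ℝ} {k : ℤ} (ha : Dec a k) (c : ℝ) : Dec (fun z => c * a z) k := by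
  simpa using (dec_const c).mul ha

lemma Dec.congr {a b : ℝ × ℝ → ℝ} {k l : ℤ} (ha : Dec a k) (h : k = l) (e : ∀ z, b z = a z) :
    Dec b l := by
  obtain rfl : b = a := funext e
  exact h ▸ ha

lemma Dec.mono {a : ℝ × ℝ → ℝ} {k l : ℤ} (ha : Dec a k) (h : l ≤ k) : Dec a l := by
  obtain ⟨c1, C, h1⟩ := ha
  have hC : 0 ≤ C := by simpa using (abs_nonneg _).trans (h1 0)
  exact ⟨c1, C, fun z => (h1 z).trans
    (mul_le_mul_of_nonneg_left (zpow_le_zpow_right₀ (one_le z) (by omega)) hC)⟩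

lemma dec_fst : Dec (fun z => z.1) (-1) :=
  ⟨continuous_fst, 1, fun z => by
    have : |z.1| ≤ ‖z‖ := norm_fst_le z
    simp only [neg_neg, zpow_one, one_mul]; linarith⟩

lemma dec_snd : Dec (fun z => z.2) (-1) :=
  ⟨continuous_snd, 1, fun z => by
    have : |z.2| ≤ ‖z‖ := norm_snd_le z
    simp only [neg_neg, zpow_one, one_mul]; linarith⟩

lemma norm_sq_le (z : ℝ × ℝ) : ‖z‖ ^ 2 ≤ z.1 ^ 2 + z.2 ^ 2 := by
  rw [Prod.norm_def, Real.norm_eq_abs, Real.norm_eq_abs]
  rcases le_total |z.1| |z.2| with h | h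
  · rw [max_eq_right h, sq_abs]; nlinarith [sq_nonneg z.1]
  · rw [max_eq_left h, sq_abs]; nlinarith [sq_nonneg z.2]

/-- the regularised inverse square of the length -/
def iv (t : ℝ) (z : ℝ × ℝ) : ℝ := (z.1 ^ 2 + z.2 ^ 2 + t)⁻¹

lemma den_pos {t : ℝ} (ht : 0 < t) (z : ℝ × ℝ) : 0 < z.1 ^ 2 + z.2 ^ 2 + t := by positivity

lemma dec_iv {t : ℝ} (ht : 0 < t) : Dec (iv t) 2 := by
  refine ⟨Continuous.inv₀ (by fun_prop) fun z => (den_pos ht z).ne', 2 * (1 + 1 / t), fun z => ?_⟩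
  have h1 := norm_sq_le z
  have h2 := den_pos ht z
  have h3 := norm_nonneg z
  rw [iv, abs_of_pos (inv_pos.2 h2), zpow_neg, zpow_ofNat, ← div_eq_mul_inv,
    le_div_iff₀ (by positivity), inv_mul_le_iff₀ h2]
  have h4 : t * (1 / t) = 1 := by field_simp
  have h5 : 0 ≤ (z.1 ^ 2 + z.2 ^ 2) * (1 / t) := by positivity
  nlinarith [sq_nonneg (1 - ‖z‖)]

lemma Dec.integrable {κ : ℝ × ℝ → ℝ} (h : Dec κ 3) : Integrable κ := by
  obtain ⟨c, C, h⟩ := h
  have := (integrable_one_add_norm (E := ℝ × ℝ) (μ := volume) (r := 3) (by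
    simp only [Module.finrank_prod, Module.finrank_self]; norm_num)).const_mul C
  refine this.mono' c.aestronglyMeasurable (ae_of_all _ fun z => (h z).trans_eq ?_)
  congr 1
  rw [← Real.rpow_intCast]; norm_num

lemma Dec.bdd {κ : ℝ × ℝ → ℝ} (h : Dec κ 3) : ∃ C, ∀ z, |κ z| ≤ C := by
  obtain ⟨-, C, h⟩ := h.mono (show (0 : ℤ) ≤ 3 by norm_num)
  exact ⟨C, fun z => by simpa using h z⟩

/-- derivative in the first variable -/
def D1 (κ κ' : ℝ × ℝ → ℝ) : Prop := ∀ p q, HasDerivAt (fun x => κ (x, q)) (κ' (p, q)) p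
/-- derivative in the second variable -/
def D2 (κ κ' : ℝ × ℝ → ℝ) : Prop := ∀ p q, HasDerivAt (fun y => κ (p, y)) (κ' (p, q)) q

lemma d1_iv {t : ℝ} (ht : 0 < t) (p q : ℝ) :
    HasDerivAt (fun x => iv t (x, q)) (-2 * p * iv t (p, q) ^ 2) p := by
  have h : HasDerivAt (fun x : ℝ => x ^ 2 + q ^ 2 + t) (2 * p) p := by
    simpa using ((hasDerivAt_pow 2 p).add_const (q ^ 2)).add_const t
  refine (h.inv (den_pos ht (p, q)).ne').congr_deriv ?_
  simp only [iv]; field_simp

lemma d2_iv {t : ℝ} (ht : 0 < t) (p q : ℝ) :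
    HasDerivAt (fun y => iv t (p, y)) (-2 * q * iv t (p, q) ^ 2) q := by
  have := d1_iv ht q p
  simpa only [iv, add_comm (_ ^ 2) (p ^ 2)] using this

/-- first component of the kernel -/
def ka (t : ℝ) (z : ℝ × ℝ) : ℝ := z.1 * iv t z
/-- second component of the kernel -/
def kb (t : ℝ) (z : ℝ × ℝ) : ℝ := z.2 * iv t z
/-- diagonal derivative -/
def k1 (t : ℝ) (z : ℝ × ℝ) : ℝ := iv t z - 2 * z.1 ^ 2 * iv t z ^ 2
/-- off diagonal derivative -/
def kc (t : ℝ) (z : ℝ × ℝ) : ℝ := -2 * z.1 * z.2 * iv t z ^ 2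
/-- diagonal derivative -/
def k2 (t : ℝ) (z : ℝ × ℝ) : ℝ := iv t z - 2 * z.2 ^ 2 * iv t z ^ 2
/-- second derivative -/
def ke (t : ℝ) (z : ℝ × ℝ) : ℝ := -2 * z.1 * iv t z ^ 2 + 8 * z.1 * z.2 ^ 2 * iv t z ^ 3

section
variable {t : ℝ} (ht : 0 < t)
include ht

lemma d1_ka : D1 (ka t) (k1 t) := fun p q => by
  refine ((hasDerivAt_id p).mul (d1_iv ht p q)).congr_deriv ?_
  simp only [k1, id]; ring

lemma d2_ka : D2 (ka t) (kc t) := fun p q => by
  refine ((d2_iv ht p q).const_mul p).congr_deriv ?_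
  simp only [kc]; ring

lemma d1_kb : D1 (kb t) (kc t) := fun p q => by
  refine ((d1_iv ht p q).const_mul q).congr_deriv ?_
  simp only [kc]; ring

lemma d2_kb : D2 (kb t) (k2 t) := fun p q => by
  refine ((hasDerivAt_id q).mul (d2_iv ht p q)).congr_deriv ?_
  simp only [k2, id]; ring

lemma d1_k2 : D1 (k2 t) (ke t) := fun p q => by
  refine ((d1_iv ht p q).sub (((d1_iv ht p q).pow 2).const_mul (2 * q ^ 2))).congr_deriv ?_
  simp only [ke]; ring

lemma d2_kc : D2 (kc t) (ke t) := fun p q => by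
  refine (((hasDerivAt_id q).const_mul (-2 * p)).mul ((d2_iv ht p q).pow 2)).congr_deriv ?_
  simp only [ke, id, Pi.pow_apply]; ring

end

/-- the difference of two scales -/
def df (k : ℝ → ℝ × ℝ → ℝ) (t R : ℝ) (z : ℝ × ℝ) : ℝ := k t z - k R z

lemma D1.df {k k' : ℝ → ℝ × ℝ → ℝ} {t R : ℝ} (h : D1 (k t) (k' t)) (h' : D1 (k R) (k' R)) :
    D1 (df k t R) (df k' t R) := fun p q => (h p q).sub (h' p q)

lemma D2.df {k k' : ℝ → ℝ × ℝ → ℝ} {t R : ℝ} (h : D2 (k t) (k' t)) (h' : D2 (k R) (k' R)) :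
    D2 (df k t R) (df k' t R) := fun p q => (h p q).sub (h' p q)

section
variable {t R : ℝ} (ht : 0 < t) (hR : 0 < R)
include ht hR

lemma dec_d1 : Dec (fun z => iv t z - iv R z) 4 := by
  refine (((dec_iv ht).mul (dec_iv hR)).smul (R - t)).congr (by norm_num) fun z => ?_
  have := den_pos ht z
  have := den_pos hR z
  simp only [iv]; field_simp; ring

lemma dec_d2 : Dec (fun z => iv t z ^ 2 - iv R z ^ 2) 6 := by
  refine ((dec_d1 ht hR).mul ((dec_iv ht).add (dec_iv hR))).congr (by norm_num) fun z => ?_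
  ring

lemma dec_ka : Dec (df ka t R) 3 := by
  refine (dec_fst.mul (dec_d1 ht hR)).congr (by norm_num) fun z => ?_
  simp only [df, ka]; ring

lemma dec_kb : Dec (df kb t R) 3 := by
  refine (dec_snd.mul (dec_d1 ht hR)).congr (by norm_num) fun z => ?_
  simp only [df, kb]; ring

lemma dec_k1 : Dec (df k1 t R) 3 := by
  refine Dec.mono (k := 4) ?_ (by norm_num)
  refine ((dec_d1 ht hR).add (((dec_fst.mul dec_fst).mul (dec_d2 ht hR)).smul (-2))).congr (by norm_num) fun z => ?_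
  simp only [df, k1]; ring

lemma dec_k2 : Dec (df k2 t R) 3 := by
  refine Dec.mono (k := 4) ?_ (by norm_num)
  refine ((dec_d1 ht hR).add (((dec_snd.mul dec_snd).mul (dec_d2 ht hR)).smul (-2))).congr (by norm_num) fun z => ?_
  simp only [df, k2]; ring

lemma dec_kc : Dec (df kc t R) 3 := by
  refine Dec.mono (k := 4) ?_ (by norm_num)
  refine (((dec_fst.mul dec_snd).mul (dec_d2 ht hR)).smul (-2)).congr (by norm_num) fun z => ?_
  simp only [df, kc]; ring

omit hR in
lemma dec_ke0 : Dec (ke t) 3 := by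
  have i2 := (dec_iv ht).mul (dec_iv ht)
  refine (((dec_fst.mul i2).smul (-2)).add
    ((((dec_fst.mul dec_snd).mul dec_snd).mul (i2.mul (dec_iv ht))).smul 8)).congr (by norm_num) fun z => ?_
  simp only [ke]; ring

lemma dec_ke : Dec (df ke t R) 3 := by
  refine ((dec_ke0 ht).add ((dec_ke0 hR).smul (-1))).congr (by norm_num) fun z => ?_
  simp only [df]; ring

end

/-- convolution with a density -/
def conv (κ f : ℝ × ℝ → ℝ) (z : ℝ × ℝ) : ℝ := ∫ w, f w * κ (z - w)

section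
variable {κ κ' f : ℝ × ℝ → ℝ}

lemma conv_int (h : Dec κ 3) (hf : Integrable f) (z : ℝ × ℝ) :
    Integrable fun w => f w * κ (z - w) := by
  obtain ⟨C, hC⟩ := h.bdd
  exact hf.mul_bdd (c := C) (h.1.comp (by fun_prop)).aestronglyMeasurable
    (ae_of_all _ fun w => hC _)

lemma conv_bdd (h : Dec κ 3) (hf : Integrable f) : ∃ C, ∀ z, |conv κ f z| ≤ C := by
  obtain ⟨C, hC⟩ := h.bdd
  refine ⟨∫ w, |f w| * C, fun z => ?_⟩
  refine norm_integral_le_of_norm_le (f := fun w => f w * κ (z - w)) (hf.abs.mul_const C)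
    (ae_of_all _ fun w => ?_)
  rw [Real.norm_eq_abs, abs_mul]
  exact mul_le_mul_of_nonneg_left (hC _) (abs_nonneg _)

lemma conv_cont (h : Dec κ 3) (hf : Integrable f) : Continuous (conv κ f) := by
  obtain ⟨C, hC⟩ := h.bdd
  refine continuous_of_dominated (bound := fun w => |f w| * C)
    (fun z => (conv_int h hf z).aestronglyMeasurable) (fun z => ae_of_all _ fun w => ?_)
    (hf.abs.mul_const C) (ae_of_all _ fun w => ?_)
  · rw [Real.norm_eq_abs, abs_mul]
    exact mul_le_mul_of_nonneg_left (hC _) (abs_nonneg _)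
  · exact continuous_const.mul (h.1.comp (by fun_prop))

lemma conv_integrable (h : Dec κ 3) (hf : Integrable f) : Integrable (conv κ f) :=
  hf.integrable_convolution (ContinuousLinearMap.mul ℝ ℝ) h.integrable

lemma conv_integral (h : Dec κ 3) (hf : Integrable f) :
    ∫ z, conv κ f z = (∫ z, f z) * ∫ z, κ z :=
  integral_convolution (ContinuousLinearMap.mul ℝ ℝ) hf h.integrable

lemma conv_d1 (h : Dec κ 3) (h' : Dec κ' 3) (hd : D1 κ κ') (hf : Integrable f) :
    D1 (conv κ f) (conv κ' f) := fun p q => by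
  obtain ⟨C, hC⟩ := h'.bdd
  refine (hasDerivAt_integral_of_dominated_loc_of_deriv_le (s := univ) (μ := volume)
    (F := fun x w => f w * κ ((x, q) - w)) (F' := fun x w => f w * κ' ((x, q) - w))
    (bound := fun w => |f w| * C) Filter.univ_mem
    (Filter.Eventually.of_forall fun x => (conv_int h hf _).aestronglyMeasurable)
    (conv_int h hf _) (conv_int h' hf _).aestronglyMeasurable (ae_of_all _ fun w x _ => ?_)
    (hf.abs.mul_const C) (ae_of_all _ fun w x _ => ?_)).2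
  · rw [Real.norm_eq_abs, abs_mul]
    exact mul_le_mul_of_nonneg_left (hC _) (abs_nonneg _)
  · exact (HasDerivAt.comp_sub_const x w.1 (hd (x - w.1) (q - w.2))).const_mul (f w)

lemma conv_d2 (h : Dec κ 3) (h' : Dec κ' 3) (hd : D2 κ κ') (hf : Integrable f) :
    D2 (conv κ f) (conv κ' f) := fun p q => by
  obtain ⟨C, hC⟩ := h'.bdd
  refine (hasDerivAt_integral_of_dominated_loc_of_deriv_le (s := univ) (μ := volume)
    (F := fun x w => f w * κ ((p, x) - w)) (F' := fun x w => f w * κ' ((p, x) - w))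
    (bound := fun w => |f w| * C) Filter.univ_mem
    (Filter.Eventually.of_forall fun x => (conv_int h hf _).aestronglyMeasurable)
    (conv_int h hf _) (conv_int h' hf _).aestronglyMeasurable (ae_of_all _ fun w x _ => ?_)
    (hf.abs.mul_const C) (ae_of_all _ fun w x _ => ?_)).2
  · rw [Real.norm_eq_abs, abs_mul]
    exact mul_le_mul_of_nonneg_left (hC _) (abs_nonneg _)
  · exact (HasDerivAt.comp_sub_const x w.2 (hd (p - w.1) (x - w.2))).const_mul (f w)

lemma conv_mul_int (h : Dec κ 3) (h' : Dec κ' 3) (hf : Integrable f) :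
    Integrable fun z => conv κ f z * conv κ' f z := by
  obtain ⟨C, hC⟩ := conv_bdd h' hf
  exact (conv_integrable h hf).mul_bdd (c := C) (conv_cont h' hf).aestronglyMeasurable
    (ae_of_all _ hC)

end

lemma D1.line {a a' : ℝ × ℝ → ℝ} (h : D1 a a') (z : ℝ × ℝ) :
    HasLineDerivAt ℝ a (a' z) z (1, 0) := by
  have := HasDerivAt.comp_const_add z.1 0 (by simpa using h z.1 z.2)
  simpa [HasLineDerivAt, Prod.add_def] using this

lemma D2.line {a a' : ℝ × ℝ → ℝ} (h : D2 a a') (z : ℝ × ℝ) :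
    HasLineDerivAt ℝ a (a' z) z (0, 1) := by
  have := HasDerivAt.comp_const_add z.2 0 (by simpa using h z.1 z.2)
  simpa [HasLineDerivAt, Prod.add_def] using this

/-- the determinant of the gradient has integral zero -/
lemma null_lag {t R : ℝ} (ht : 0 < t) (hR : 0 < R) {f : ℝ × ℝ → ℝ} (hf : Integrable f) :
    ∫ z, conv (df k1 t R) f z * conv (df k2 t R) f z =
      ∫ z, conv (df kc t R) f z * conv (df kc t R) f z := by
  have a := dec_ka ht hR
  have b1 := dec_k1 ht hR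
  have b2 := dec_k2 ht hR
  have c := dec_kc ht hR
  have e := dec_ke ht hR
  have h1 := integral_bilinear_hasLineDerivAt_right_eq_neg_left_of_integrable (μ := volume)
    (B := ContinuousLinearMap.mul ℝ ℝ) (conv_mul_int b1 b2 hf) (conv_mul_int a e hf)
    (conv_mul_int a b2 hf)
    (fun z _ => (conv_d1 a b1 ((d1_ka ht).df (d1_ka hR)) hf).line z)
    (fun z _ => (conv_d1 b2 e ((d1_k2 ht).df (d1_k2 hR)) hf).line z)
  have h2 := integral_bilinear_hasLineDerivAt_right_eq_neg_left_of_integrable (μ := volume)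
    (B := ContinuousLinearMap.mul ℝ ℝ) (conv_mul_int c c hf) (conv_mul_int a e hf)
    (conv_mul_int a c hf)
    (fun z _ => (conv_d2 a c ((d2_ka ht).df (d2_ka hR)) hf).line z)
    (fun z _ => (conv_d2 c e ((d2_kc ht).df (d2_kc hR)) hf).line z)
  simp only [ContinuousLinearMap.mul_apply'] at h1 h2
  linarith

end
end Pool.Agent.MP_a421c2_co.Gap.CZ

end MrgPart0

-- ======== part 1: formerly Pool.Agent.MP_a421c2_co.Gap.CZ2
section MrgPart1

/-! # Size, oscillation and energy of the convolutions -/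

set_option autoImplicit false
open MeasureTheory Set Real Metric

namespace Pool.Agent.MP_a421c2_co.Gap.CZ
noncomputable section

lemma scale {G : ℝ × ℝ → ℝ} (hG : Integrable G) {r : ℝ} (hr : 0 < r) (c : ℝ × ℝ) :
    Integrable (fun w => G (r⁻¹ • (c - w))) ∧ ∫ w, G (r⁻¹ • (c - w)) = r ^ 2 * ∫ w, G w := by
  refine ⟨(hG.comp_smul (inv_ne_zero hr.ne')).comp_sub_left c, ?_⟩
  rw [integral_sub_left_eq_self (fun w => G (r⁻¹ • w)),
    Measure.integral_comp_inv_smul_of_nonneg _ _ hr.le]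
  simp

lemma iv_nonneg {t : ℝ} (ht : 0 < t) (z : ℝ × ℝ) : 0 ≤ iv t z := (inv_pos.2 (den_pos ht z)).le

lemma iv_le {t : ℝ} (ht : 0 < t) {z : ℝ × ℝ} {N : ℝ} (h0 : 0 ≤ N) (h : N ≤ ‖z‖) :
    iv t z * N ^ 2 ≤ 1 := by
  rw [iv, inv_mul_le_iff₀ (den_pos ht z)]
  nlinarith [norm_sq_le z]

lemma lin_le {t : ℝ} (ht : 0 < t) (z : ℝ × ℝ) {a : ℝ} (ha : |a| ≤ ‖z‖) :
    |a * iv t z| ≤ ‖z‖⁻¹ := by
  rcases (norm_nonneg z).eq_or_lt with h | h
  · have : a = 0 := abs_nonpos_iff.1 (ha.trans h.ge)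
    simp [this]
  · rw [abs_mul, abs_of_nonneg (iv_nonneg ht z), ← one_div, le_div_iff₀ h]
    have := iv_le ht h.le (le_refl ‖z‖)
    nlinarith [mul_le_mul_of_nonneg_right ha (mul_nonneg (iv_nonneg ht z) h.le)]

lemma ka_le {t R : ℝ} (ht : 0 < t) (hR : 0 < R) (z : ℝ × ℝ) : |df ka t R z| ≤ 2 * ‖z‖⁻¹ := by
  have a := lin_le ht z (norm_fst_le z)
  have b := lin_le hR z (norm_fst_le z)
  exact (abs_sub _ _).trans (by simp only [ka]; linarith)

lemma kb_le {t R : ℝ} (ht : 0 < t) (hR : 0 < R) (z : ℝ × ℝ) : |df kb t R z| ≤ 2 * ‖z‖⁻¹ := by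
  have a := lin_le ht z (norm_snd_le z)
  have b := lin_le hR z (norm_snd_le z)
  exact (abs_sub _ _).trans (by simp only [kb]; linarith)

/-- size of the vector field -/
lemma sup_bd : ∃ C, 0 ≤ C ∧ ∀ κ f : ℝ × ℝ → ℝ, (∀ z, |κ z| ≤ 2 * ‖z‖⁻¹) → Integrable f →
    (∀ w, |f w| ≤ 1) → ∀ ρ, 0 < ρ → ∀ z, |conv κ f z| ≤ C * ρ + 2 / ρ * ∫ w, |f w| := by
  let G : ℝ × ℝ → ℝ := (ball 0 1).indicator fun w => ‖w‖⁻¹
  have G0 : ∀ w, 0 ≤ G w := fun w => indicator_nonneg (fun _ _ => by positivity) w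
  have hG : Integrable G := by
    refine (integrable_indicator_iff measurableSet_ball).2
      (integrableOn_ball_of_norm_le_rpow (C := 1) (α := 1) (by simp) (by simp)
        (ae_of_all _ fun w => by simp [Real.rpow_neg_one]) ?_)
    exact measurable_norm.inv.aestronglyMeasurable
  refine ⟨2 * ∫ w, G w, mul_nonneg two_pos.le (integral_nonneg G0),
    fun κ f hκ hf h1 ρ hρ z => ?_⟩
  obtain ⟨i1, i2⟩ := scale hG hρ z
  have key : ∀ w, ‖f w * κ (z - w)‖ ≤ 2 / ρ * G (ρ⁻¹ • (z - w)) + 2 / ρ * |f w| := fun w => by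
    rw [Real.norm_eq_abs, abs_mul]
    have a0 := abs_nonneg (f w)
    have a1 := hκ (z - w)
    have a2 : 0 ≤ 2 / ρ := by positivity
    by_cases h : ‖z - w‖ < ρ
    · have e : ‖ρ⁻¹ • (z - w)‖ = ρ⁻¹ * ‖z - w‖ := by
        rw [norm_smul, norm_inv, Real.norm_of_nonneg hρ.le]
      have m : ρ⁻¹ • (z - w) ∈ ball (0 : ℝ × ℝ) 1 := by
        rw [mem_ball_zero_iff, e, inv_mul_lt_iff₀ hρ, mul_one]; exact h
      have e2 : 2 / ρ * G (ρ⁻¹ • (z - w)) = 2 * ‖z - w‖⁻¹ := by
        simp only [G, indicator_of_mem m, e, mul_inv, inv_inv]; field_simp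
      rw [e2]
      nlinarith [mul_le_mul (h1 w) a1 (abs_nonneg _) zero_le_one, mul_nonneg a2 a0]
    · have a3 : ‖z - w‖⁻¹ ≤ ρ⁻¹ := inv_anti₀ hρ (not_lt.1 h)
      have a4 : |κ (z - w)| ≤ 2 / ρ := by rw [div_eq_mul_inv]; linarith
      nlinarith [mul_le_mul_of_nonneg_left a4 a0, mul_nonneg a2 (G0 (ρ⁻¹ • (z - w)))]
  refine (norm_integral_le_of_norm_le ((i1.const_mul _).fun_add (hf.abs.const_mul _))
    (ae_of_all _ key)).trans (le_of_eq ?_)
  rw [integral_add (i1.const_mul _) (hf.abs.const_mul _), integral_const_mul, integral_const_mul,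
    i2]
  field_simp

/-- the smoothness condition of a singular kernel -/
def Osc (κ : ℝ × ℝ → ℝ) (C : ℝ) : Prop :=
  ∀ (z z' : ℝ × ℝ) (N δ : ℝ), 0 ≤ N → N ≤ ‖z‖ → N ≤ ‖z'‖ → ‖z‖ ≤ 3 * N → ‖z'‖ ≤ 3 * N →
    ‖z - z'‖ ≤ δ → |κ z - κ z'| * N ^ 3 ≤ C * δ

lemma prod_sub {a b a' b' N δ : ℝ} (h1 : |a| ≤ 3 * N) (h2 : |b'| ≤ 3 * N) (h3 : |a - a'| ≤ δ)
    (h4 : |b - b'| ≤ δ) : |a * b - a' * b'| ≤ 6 * N * δ := by
  rw [show a * b - a' * b' = a * (b - b') + b' * (a - a') by ring]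
  refine (abs_add_le _ _).trans ?_
  rw [abs_mul, abs_mul]
  have := mul_le_mul h1 h4 (abs_nonneg _) ((abs_nonneg _).trans h1)
  have := mul_le_mul h2 h3 (abs_nonneg _) ((abs_nonneg _).trans h2)
  linarith

lemma osc_iv {t : ℝ} (ht : 0 < t) : Osc (iv t) 12 := fun z z' N δ h0 h1 h2 h3 h4 h5 => by
  have e : iv t z - iv t z' = ((z'.1 * z'.1 - z.1 * z.1) + (z'.2 * z'.2 - z.2 * z.2)) *
      (iv t z * iv t z') := by
    have := den_pos ht z
    have := den_pos ht z'
    simp only [iv]; field_simp; ring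
  have d1 : |z'.1 - z.1| ≤ δ := by
    rw [abs_sub_comm]; exact (norm_fst_le (z - z')).trans h5
  have d2 : |z'.2 - z.2| ≤ δ := by
    rw [abs_sub_comm]; exact (norm_snd_le (z - z')).trans h5
  have a1 := prod_sub ((norm_fst_le z').trans h4) ((norm_fst_le z).trans h3) d1 d1
  have a2 := prod_sub ((norm_snd_le z').trans h4) ((norm_snd_le z).trans h3) d2 d2
  have a3 := (abs_add_le _ _).trans (add_le_add a1 a2)
  have i0 := iv_nonneg ht z
  have i1 := iv_nonneg ht z'
  have a4 : iv t z * N ^ 2 * (iv t z' * N ^ 2) ≤ 1 :=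
    mul_le_one₀ (iv_le ht h0 h1) (by positivity) (iv_le ht h0 h2)
  have δ0 : 0 ≤ δ := (abs_nonneg _).trans d1
  rw [e, abs_mul, abs_of_nonneg (mul_nonneg i0 i1)]
  have a5 := mul_le_mul_of_nonneg_right a3 (show 0 ≤ iv t z * iv t z' * N ^ 3 by positivity)
  nlinarith [mul_le_mul_of_nonneg_left a4 δ0]

lemma osc_q {t : ℝ} (ht : 0 < t) {a b : ℝ × ℝ → ℝ} (ha : ∀ z, |a z| ≤ ‖z‖) (hb : ∀ z, |b z| ≤ ‖z‖)
    (ha' : ∀ z z', a z - a z' = a (z - z')) (hb' : ∀ z z', b z - b z' = b (z - z')) :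
    Osc (fun z => a z * b z * iv t z ^ 2) 222 := fun z z' N δ h0 h1 h2 h3 h4 h5 => by
  have a1 := prod_sub ((ha z).trans h3) ((hb z').trans h4) (a' := a z') (b := b z) (δ := δ)
    (by rw [ha']; exact (ha _).trans h5) (by rw [hb']; exact (hb _).trans h5)
  have a2 := osc_iv ht z z' N δ h0 h1 h2 h3 h4 h5
  have i0 := iv_nonneg ht z
  have i1 := iv_nonneg ht z'
  have j0 := iv_le ht h0 h1
  have j1 := iv_le ht h0 h2
  have δ0 : 0 ≤ δ := (norm_nonneg _).trans h5
  have a3 : |a z' * b z'| ≤ 3 * N * (3 * N) := by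
    rw [abs_mul]
    exact mul_le_mul ((ha z').trans h4) ((hb z').trans h4) (abs_nonneg _) (by positivity)
  have a4 : |a z' * b z'| * (iv t z + iv t z') ≤ 18 := by
    nlinarith [mul_le_mul_of_nonneg_right a3 (add_nonneg i0 i1)]
  have a5 : iv t z * N ^ 2 * (iv t z * N ^ 2) ≤ 1 := mul_le_one₀ j0 (by positivity) j0
  have e : a z * b z * iv t z ^ 2 - a z' * b z' * iv t z' ^ 2 =
      (a z * b z - a z' * b z') * iv t z ^ 2 +
        a z' * b z' * (iv t z + iv t z') * (iv t z - iv t z') := by ring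
  have b1 : |(a z * b z - a z' * b z') * iv t z ^ 2| * N ^ 3 ≤ 6 * δ := by
    rw [abs_mul, abs_of_nonneg (sq_nonneg (iv t z))]
    have := mul_le_mul_of_nonneg_right a1 (show 0 ≤ iv t z ^ 2 * N ^ 3 by positivity)
    nlinarith [mul_le_mul_of_nonneg_left a5 δ0]
  have b2 : |a z' * b z' * (iv t z + iv t z') * (iv t z - iv t z')| * N ^ 3 ≤ 18 * (12 * δ) := by
    rw [abs_mul, abs_mul (a z' * b z'), abs_of_nonneg (add_nonneg i0 i1), mul_assoc]
    exact mul_le_mul a4 a2 (by positivity) (by norm_num)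
  simp only [e]
  have := mul_le_mul_of_nonneg_right (abs_add_le ((a z * b z - a z' * b z') * iv t z ^ 2)
    (a z' * b z' * (iv t z + iv t z') * (iv t z - iv t z'))) (show 0 ≤ N ^ 3 by positivity)
  linarith

lemma Osc.comb {a b c : ℝ × ℝ → ℝ} {A B C : ℝ} (u v : ℝ) (ha : Osc a A) (hb : Osc b B)
    (e : ∀ z, c z = u * a z + v * b z) (h : |u| * A + |v| * B ≤ C) : Osc c C :=
  fun z z' N δ h0 h1 h2 h3 h4 h5 => by
    have a1 := mul_le_mul_of_nonneg_left (ha z z' N δ h0 h1 h2 h3 h4 h5) (abs_nonneg u)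
    have a2 := mul_le_mul_of_nonneg_left (hb z z' N δ h0 h1 h2 h3 h4 h5) (abs_nonneg v)
    have a3 := mul_le_mul_of_nonneg_right (abs_add_le (u * (a z - a z')) (v * (b z - b z')))
      (show 0 ≤ N ^ 3 by positivity)
    rw [abs_mul, abs_mul] at a3
    rw [e, e, show u * a z + v * b z - (u * a z' + v * b z') = u * (a z - a z') + v * (b z - b z')
      by ring]
    nlinarith [mul_le_mul_of_nonneg_right h ((norm_nonneg _).trans h5)]

lemma osc_k1 {t : ℝ} (ht : 0 < t) : Osc (k1 t) 500 :=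
  (osc_iv ht).comb 1 (-2) (osc_q ht norm_fst_le norm_fst_le (fun _ _ => rfl) fun _ _ => rfl)
    (fun z => by simp only [k1]; ring) (by norm_num)

lemma osc_k2 {t : ℝ} (ht : 0 < t) : Osc (k2 t) 500 :=
  (osc_iv ht).comb 1 (-2) (osc_q ht norm_snd_le norm_snd_le (fun _ _ => rfl) fun _ _ => rfl)
    (fun z => by simp only [k2]; ring) (by norm_num)

lemma osc_kc {t : ℝ} (ht : 0 < t) : Osc (kc t) 500 :=
  (osc_iv ht).comb 0 (-2) (osc_q ht norm_fst_le norm_snd_le (fun _ _ => rfl) fun _ _ => rfl)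
    (fun z => by simp only [kc]; ring) (by norm_num)

lemma Osc.df {k : ℝ → ℝ × ℝ → ℝ} {t R : ℝ} (h : Osc (k t) 500) (h' : Osc (k R) 500) :
    Osc (df k t R) 1000 := h.comb 1 (-1) h' (fun z => by simp only [CZ.df]; ring) (by norm_num)

/-- oscillation on a ball around which the density is constant -/
lemma osc_bd : ∃ C, 0 ≤ C ∧ ∀ κ f : ℝ × ℝ → ℝ, Dec κ 3 → Osc κ 1000 → Integrable f →
    (∀ w, |f w| ≤ 1) → ∀ (c : ℝ × ℝ) (r : ℝ), 0 < r → (∀ w ∈ closedBall c (10 * r), f w = f c) →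
    ∀ z ∈ closedBall c (5 * r), ∀ z' ∈ closedBall c (5 * r), |conv κ f z - conv κ f z'| ≤ C := by
  let G : ℝ × ℝ → ℝ := fun w => ((1 + ‖w‖) ^ 3)⁻¹
  have G0 : ∀ w, 0 ≤ G w := fun w => by positivity
  have hG : Integrable G := Dec.integrable ⟨Continuous.inv₀ (by fun_prop) fun w => by positivity, 1,
    fun w => by rw [abs_of_nonneg (G0 w), one_mul, zpow_neg, zpow_ofNat]⟩
  refine ⟨1280000 * ∫ w, G w, mul_nonneg (by norm_num) (integral_nonneg G0),
    fun κ f hκ ho hf h1 c r hr hc z hz z' hz' => ?_⟩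
  obtain ⟨i1, i2⟩ := scale hG hr c
  have k1 := hκ.integrable.comp_sub_left z
  have k2 := hκ.integrable.comp_sub_left z'
  have e : conv κ f z - conv κ f z' = ∫ w, (f w - f c) * (κ (z - w) - κ (z' - w)) := by
    have e1 : ∫ w, f c * (κ (z - w) - κ (z' - w)) = 0 := by
      rw [integral_const_mul, integral_sub k1 k2, integral_sub_left_eq_self,
        integral_sub_left_eq_self, sub_self, mul_zero]
    have i3 := (conv_int hκ hf z).sub' (conv_int hκ hf z')
    rw [conv, conv, ← integral_sub (conv_int hκ hf z) (conv_int hκ hf z'), ← sub_zero (∫ _, _), ← e1,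
      ← integral_sub i3 ((k1.sub' k2).const_mul _)]
    exact integral_congr_ae (ae_of_all _ fun w => by simp only; ring)
  have key : ∀ w, ‖(f w - f c) * (κ (z - w) - κ (z' - w))‖ ≤
      1280000 / r ^ 2 * G (r⁻¹ • (c - w)) := fun w => by
    by_cases h : w ∈ closedBall c (10 * r)
    · rw [hc w h, sub_self, zero_mul, norm_zero]
      exact mul_nonneg (by positivity) (G0 _)
    rw [mem_closedBall', dist_eq_norm, not_le] at h
    rw [mem_closedBall, dist_eq_norm] at hz hz'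
    have t1 : ∀ u : ℝ × ℝ, ‖u - c‖ ≤ 5 * r → ‖c - w‖ / 2 ≤ ‖u - w‖ ∧ ‖u - w‖ ≤ 3 * (‖c - w‖ / 2) :=
      fun u hu => by
        have a1 := norm_add_le (u - c) (c - w)
        have a2 := norm_sub_le (u - w) (u - c)
        rw [sub_add_sub_cancel] at a1
        rw [sub_sub_sub_cancel_left] at a2
        exact ⟨by linarith, by linarith⟩
    have t2 := ho (z - w) (z' - w) (‖c - w‖ / 2) (10 * r) (by positivity) (t1 z hz).1 (t1 z' hz').1
      (t1 z hz).2 (t1 z' hz').2 (by
        have := norm_sub_le (z - c) (z' - c)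
        rw [sub_sub_sub_cancel_right] at this ⊢
        linarith)
    have t3 : |f w - f c| ≤ 2 := (abs_sub _ _).trans (by linarith [h1 w, h1 c])
    have e2 : 1280000 / r ^ 2 * G (r⁻¹ • (c - w)) = 1280000 * r / (r + ‖c - w‖) ^ 3 := by
      simp only [G, norm_smul, norm_inv, Real.norm_of_nonneg hr.le]; field_simp
    rw [e2, Real.norm_eq_abs, abs_mul, le_div_iff₀ (by positivity)]
    have t4 : (r + ‖c - w‖) ^ 3 ≤ (4 * (‖c - w‖ / 2)) ^ 3 := by gcongr; linarith
    have t5 := mul_le_mul t3 (mul_le_mul_of_nonneg_left t4 (abs_nonneg (κ (z - w) - κ (z' - w))))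
      (by positivity) two_pos.le
    linarith
  rw [e]
  refine (norm_integral_le_of_norm_le (i1.const_mul _) (ae_of_all _ key)).trans (le_of_eq ?_)
  rw [integral_const_mul, i2]
  field_simp

/-- the divergence of the kernel -/
def ph (t : ℝ) (z : ℝ × ℝ) : ℝ := 2 * t * iv t z ^ 2

/-- its total mass -/
def c0 : ℝ := ∫ z, ph 1 z

lemma ph_nonneg {t : ℝ} (ht : 0 < t) (z : ℝ × ℝ) : 0 ≤ ph t z := by unfold ph; positivity

lemma dec_ph4 {t : ℝ} (ht : 0 < t) : Dec (ph t) 4 :=
  (((dec_iv ht).mul (dec_iv ht)).smul (2 * t)).congr (by norm_num) fun z => by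
    simp only [ph]; ring

lemma dec_ph {t : ℝ} (ht : 0 < t) : Dec (ph t) 3 := (dec_ph4 ht).mono (by norm_num)

lemma c0_pos : 0 < c0 :=
  integral_pos_of_integrable_nonneg_nonzero (x := 0) (dec_ph one_pos).1 (dec_ph one_pos).integrable
    (ph_nonneg one_pos) (by simp [ph, iv])

lemma ph_scale {c : ℝ} (hc : 0 < c) (z : ℝ × ℝ) : ph (c ^ 2)⁻¹ z = c ^ 2 * ph 1 (c • z) := by
  simp only [ph, iv, Prod.smul_fst, Prod.smul_snd, smul_eq_mul]
  field_simp

lemma ph_integral {t : ℝ} (ht : 0 < t) : ∫ z, ph t z = c0 := by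
  have s0 : 0 < (√t)⁻¹ := inv_pos.2 (sqrt_pos.2 ht)
  have e : t = ((√t)⁻¹ ^ 2)⁻¹ := by rw [inv_pow, inv_inv, sq_sqrt ht.le]
  generalize (√t)⁻¹ = c at s0 e
  simp only [e, ph_scale s0]
  rw [integral_const_mul, Measure.integral_comp_smul_of_nonneg _ _ _ (hR := s0.le)]
  simp only [Module.finrank_prod, Module.finrank_self, smul_eq_mul, c0]
  field_simp

lemma conv_div {t R : ℝ} (ht : 0 < t) (hR : 0 < R) {f : ℝ × ℝ → ℝ} (hf : Integrable f)
    (z : ℝ × ℝ) : conv (df k1 t R) f z + conv (df k2 t R) f z =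
      conv (ph t) f z - conv (ph R) f z := by
  rw [conv, conv, conv, conv, ← integral_add (conv_int (dec_k1 ht hR) hf z)
    (conv_int (dec_k2 ht hR) hf z), ← integral_sub (conv_int (dec_ph ht) hf z)
    (conv_int (dec_ph hR) hf z)]
  refine integral_congr_ae (ae_of_all _ fun w => ?_)
  have := den_pos ht (z - w)
  have := den_pos hR (z - w)
  simp only [df, k1, k2, ph, iv]
  field_simp; ring

lemma conv_ph_le {t : ℝ} (ht : 0 < t) {f : ℝ × ℝ → ℝ} {B : ℝ} (h1 : ∀ w, |f w| ≤ B) (z : ℝ × ℝ) :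
    |conv (ph t) f z| ≤ B * c0 := by
  refine (norm_integral_le_of_norm_le (f := fun w => f w * ph t (z - w))
    (((dec_ph ht).integrable.comp_sub_left z).const_mul B) (ae_of_all _ fun w => ?_)).trans_eq ?_
  · rw [Real.norm_eq_abs, abs_mul, abs_of_nonneg (ph_nonneg ht _)]
    exact mul_le_mul_of_nonneg_right (h1 w) (ph_nonneg ht _)
  · rw [integral_const_mul, integral_sub_left_eq_self, ph_integral ht]

lemma conv_ph_abs {t : ℝ} (ht : 0 < t) (f : ℝ × ℝ → ℝ) (z : ℝ × ℝ) :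
    |conv (ph t) f z| ≤ conv (ph t) (fun w => |f w|) z :=
  abs_integral_le_integral_abs.trans_eq (integral_congr_ae (ae_of_all _ fun w => by
    simp only [abs_mul, abs_of_nonneg (ph_nonneg ht _)]))

/-- the size of the gradient -/
def gr (t R : ℝ) (f : ℝ × ℝ → ℝ) (z : ℝ × ℝ) : ℝ :=
  |conv (df k1 t R) f z| + |conv (df kc t R) f z| + |conv (df k2 t R) f z|

/-- energy of the gradient -/
lemma l2_bd {t R : ℝ} (ht : 0 < t) (hR : 0 < R) {f : ℝ × ℝ → ℝ} (hf : Integrable f)
    (h1 : ∀ w, |f w| ≤ 1) : ∃ g : ℝ × ℝ → ℝ, Integrable g ∧ (∀ z, gr t R f z ^ 2 ≤ g z) ∧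
      ∫ z, g z ≤ 12 * c0 ^ 2 * ∫ w, |f w| := by
  have b1 := dec_k1 ht hR
  have b2 := dec_k2 ht hR
  have c := dec_kc ht hR
  have i11 := conv_mul_int b1 b1 hf
  have i22 := conv_mul_int b2 b2 hf
  have i12 := conv_mul_int b1 b2 hf
  have icc := conv_mul_int c c hf
  have j := (i11.fun_add i22).fun_add (i12.const_mul 2)
  have p1 := conv_integrable (dec_ph ht) hf.abs
  have p2 := conv_integrable (dec_ph hR) hf.abs
  refine ⟨fun z => 3 * (conv (df k1 t R) f z * conv (df k1 t R) f z +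
    conv (df k2 t R) f z * conv (df k2 t R) f z +
    2 * (conv (df kc t R) f z * conv (df kc t R) f z)),
    ((i11.fun_add i22).fun_add (icc.const_mul 2)).const_mul 3, fun z => ?_, ?_⟩
  · simp only [gr]
    rw [← abs_mul_abs_self (conv (df k1 t R) f z), ← abs_mul_abs_self (conv (df k2 t R) f z),
      ← abs_mul_abs_self (conv (df kc t R) f z)]
    generalize |conv (df k1 t R) f z| = a
    generalize |conv (df k2 t R) f z| = b
    generalize |conv (df kc t R) f z| = d
    nlinarith [sq_nonneg (a - b), sq_nonneg (a - d), sq_nonneg (b - d), sq_nonneg d]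
  · have m := integral_mono j ((p1.fun_add p2).const_mul (2 * c0)) fun z => by
      have a1 := conv_div ht hR hf z
      have a2 := conv_ph_le ht h1 z
      have a3 := conv_ph_le hR h1 z
      have a4 := conv_ph_abs ht f z
      have a5 := conv_ph_abs hR f z
      have a6 := abs_sub (conv (ph t) f z) (conv (ph R) f z)
      rw [← a1] at a6
      have a7 := mul_le_mul (a6.trans (add_le_add a2 a3)) (a6.trans (add_le_add a4 a5))
        (abs_nonneg _) (by linarith [c0_pos])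
      rw [abs_mul_abs_self] at a7
      simp only
      linarith
    rw [integral_add (i11.fun_add i22) (i12.const_mul 2), integral_const_mul, null_lag ht hR hf,
      integral_const_mul, integral_add p1 p2, conv_integral (dec_ph ht) hf.abs,
      conv_integral (dec_ph hR) hf.abs, ph_integral ht, ph_integral hR] at m
    rw [integral_const_mul, integral_add (i11.fun_add i22) (icc.const_mul 2), integral_const_mul]
    linarith

end
end Pool.Agent.MP_a421c2_co.Gap.CZ

end MrgPart1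

-- ======== part 2: formerly Pool.Agent.MP_a421c2_co.Gap.CZ3
section MrgPart2

/-! # Potentials, signed rectangles and the covering -/

set_option autoImplicit false
open MeasureTheory Set Real Metric Filter Topology

namespace Pool.Agent.MP_a421c2_co.Gap.CZ
noncomputable section

/-- Lipschitz bound in the second variable -/
def Lip (H : ℝ → ℝ → ℝ) (B : ℝ) : Prop := ∀ p q q', |H p q' - H p q| ≤ B * |q' - q|

/-- local bound on second differences in the square of centre `(a, b)` and half side `ρ` -/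
def Loc (H : ℝ → ℝ → ℝ) (a b ρ lam : ℝ) : Prop :=
  ∀ p q p' q' t, |p - a| ≤ ρ → |p' - a| ≤ ρ → |q - b| ≤ ρ → |q' - b| ≤ ρ → |q + t - b| ≤ ρ →
    |q' + t - b| ≤ ρ →
    |H p' (q' + t) - H p' q' - (H p (q + t) - H p q)| ≤ lam * |t| * (|p' - p| + |q' - q|)

/-- mixed difference over a rectangle -/
def mx (H : ℝ → ℝ → ℝ) (p1 p2 q1 q2 : ℝ) : ℝ := H p2 q2 - H p2 q1 - H p1 q2 + H p1 q1

/-- primitive in the second variable -/
def pot (a : ℝ × ℝ → ℝ) (p q : ℝ) : ℝ := ∫ s in (0 : ℝ)..q, a (p, s)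

lemma mvt {g g' : ℝ → ℝ} (h : ∀ x, HasDerivAt g (g' x) x) {a b C : ℝ}
    (hb : ∀ x ∈ uIcc a b, |g' x| ≤ C) : |g b - g a| ≤ C * |b - a| :=
  (convex_uIcc a b).norm_image_sub_le_of_norm_hasDerivWithin_le (𝕜 := ℝ)
    (fun x _ => (h x).hasDerivWithinAt) hb left_mem_uIcc right_mem_uIcc

lemma btw {u v c ρ s : ℝ} (hu : |u - c| ≤ ρ) (hv : |v - c| ≤ ρ) (hs : s ∈ uIcc u v) :
    |s - c| ≤ ρ := by
  rw [abs_le] at *
  rcases mem_uIcc.1 hs with h | h <;> constructor <;> linarith [h.1, h.2]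

section
variable {a a1 a2 : ℝ × ℝ → ℝ}

lemma pot_deriv (ha : Continuous a) (p q : ℝ) : HasDerivAt (pot a p) (a (p, q)) q :=
  (Continuous.integral_hasStrictDerivAt (f := fun s => a (p, s)) (by fun_prop) 0 q).hasDerivAt

lemma pot_lip (ha : Continuous a) {B : ℝ} (h : ∀ z, |a z| ≤ B) : Lip (pot a) B :=
  fun p _ _ => mvt (pot_deriv ha p) fun _ _ => h _

lemma pot_loc (ha : Continuous a) (h1 : D1 a a1) (h2 : D2 a a2) {x y ρ lam : ℝ}
    (h : ∀ p q, |p - x| ≤ ρ → |q - y| ≤ ρ → |a1 (p, q)| ≤ lam ∧ |a2 (p, q)| ≤ lam) :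
    Loc (pot a) x y ρ lam := fun p q p' q' t b1 b2 b3 b4 b5 b6 => by
  have k := mvt (g := fun s => pot a p' (q' + s) - pot a p (q + s))
    (g' := fun s => a (p', q' + s) - a (p, q + s)) (a := 0) (b := t)
    (C := lam * (|p' - p| + |q' - q|))
    (fun s => ((pot_deriv ha p' _).comp_const_add q' s).sub ((pot_deriv ha p _).comp_const_add q s))
    fun s hs => by
      have c1 : |q + s - y| ≤ ρ := btw b3 b5 (by
        rcases mem_uIcc.1 hs with e | e
        exacts [mem_uIcc.2 (.inl ⟨by linarith [e.1], by linarith [e.2]⟩),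
          mem_uIcc.2 (.inr ⟨by linarith [e.1], by linarith [e.2]⟩)])
      have c2 : |q' + s - y| ≤ ρ := btw b4 b6 (by
        rcases mem_uIcc.1 hs with e | e
        exacts [mem_uIcc.2 (.inl ⟨by linarith [e.1], by linarith [e.2]⟩),
          mem_uIcc.2 (.inr ⟨by linarith [e.1], by linarith [e.2]⟩)])
      have d1 := mvt (fun u => h1 u (q' + s)) (a := p) (b := p') fun u hu =>
        (h u _ (btw b1 b2 hu) c2).1
      have d2 := mvt (h2 p) (a := q + s) (b := q' + s) fun u hu => (h p u b1 (btw c1 c2 hu)).2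
      rw [add_sub_add_right_eq_sub] at d2
      linarith [abs_sub_le (a (p', q' + s)) (a (p, q' + s)) (a (p, q + s))]
  simp only [add_zero, sub_zero] at k
  rw [mul_right_comm]
  refine le_trans (le_of_eq (congrArg _ (by ring))) k

lemma pot_mx (ha : Continuous a) (ha1 : Continuous a1) (h1 : D1 a a1) (p1 p2 q1 q2 : ℝ) :
    mx (pot a) p1 p2 q1 q2 = ∫ s in q1..q2, ∫ x in p1..p2, a1 (x, s) := by
  have i : ∀ p u v, IntervalIntegrable (fun s => a (p, s)) volume u v := fun p u v =>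
    Continuous.intervalIntegrable (by fun_prop) _ _
  have e : ∀ s, ∫ x in p1..p2, a1 (x, s) = a (p2, s) - a (p1, s) := fun s =>
    intervalIntegral.integral_eq_sub_of_hasDerivAt (f := fun x => a (x, s)) (fun x _ => h1 x s)
      (Continuous.intervalIntegrable (by fun_prop) _ _)
  simp only [e]
  rw [intervalIntegral.integral_sub (i _ _ _) (i _ _ _),
    ← intervalIntegral.integral_interval_sub_left (i p2 0 q2) (i p2 0 q1),
    ← intervalIntegral.integral_interval_sub_left (i p1 0 q2) (i p1 0 q1)]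
  simp only [mx, pot]; ring

end

/-- a step function -/
def st (c x : ℝ) : ℝ := if x ≤ c then 1 else 0
/-- signed indicator of an oriented interval -/
def sg (a b x : ℝ) : ℝ := st b x - st a x

lemma sg_le {a b : ℝ} (h : a ≤ b) (x : ℝ) : sg a b x = (Ioc a b).indicator 1 x := by
  simp only [sg, st, indicator, mem_Ioc, Pi.one_apply]
  by_cases h1 : x ≤ a
  · simp [h1, h1.trans h]
  · by_cases h2 : x ≤ b <;> simp [h1, h2, not_le.1 h1]

lemma sg_neg (a b x : ℝ) : sg a b x = -sg b a x := by simp [sg]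

lemma sg_int (a b : ℝ) (g : ℝ → ℝ) : ∫ x, sg a b x * g x = ∫ x in a..b, g x := by
  wlog h : a ≤ b generalizing a b
  · rw [intervalIntegral.integral_symm, ← this b a (le_of_not_ge h), ← integral_neg]
    simp only [sg_neg a b, neg_mul]
  rw [intervalIntegral.integral_of_le h, ← integral_indicator measurableSet_Ioc]
  refine integral_congr_ae (ae_of_all _ fun x => ?_)
  simp only [sg_le h]
  by_cases hx : x ∈ Ioc a b <;> simp [hx]

lemma sg_integrable (a b : ℝ) : Integrable (sg a b) := by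
  wlog h : a ≤ b generalizing a b
  · exact (this b a (le_of_not_ge h)).neg.congr (ae_of_all _ fun x => (sg_neg a b x).symm)
  rw [funext (sg_le h), integrable_indicator_iff measurableSet_Ioc]
  exact integrableOn_const (by simp)

lemma sg_cases (a b x : ℝ) : ∃ m : ℤ, sg a b x = m ∧ |sg a b x| ≤ 1 := by
  unfold sg st
  split_ifs
  exacts [⟨0, by simp⟩, ⟨1, by simp⟩, ⟨-1, by simp⟩, ⟨0, by simp⟩]

lemma st_cont {c x : ℝ} (h : x ≠ c) : ContinuousAt (st c) x := by
  rcases h.lt_or_gt with h | h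
  · exact (continuousAt_const (y := (1 : ℝ))).congr
      ((eventually_lt_nhds h).mono fun y hy => (if_pos hy.le).symm)
  · exact (continuousAt_const (y := (0 : ℝ))).congr
      ((eventually_gt_nhds h).mono fun y hy => (if_neg hy.not_ge).symm)

lemma sg_meas (a b : ℝ) : Measurable (sg a b) :=
  (Measurable.ite measurableSet_Iic measurable_const measurable_const).sub
    (Measurable.ite measurableSet_Iic measurable_const measurable_const)

/-- signed indicator of a rectangle -/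
def rc (p1 p2 q1 q2 : ℝ) (z : ℝ × ℝ) : ℝ := sg p1 p2 z.1 * sg q1 q2 z.2

lemma rc_integrable (p1 p2 q1 q2 : ℝ) : Integrable (rc p1 p2 q1 q2) :=
  (sg_integrable p1 p2).mul_prod (sg_integrable q1 q2)

lemma rc_area (p1 p2 q1 q2 : ℝ) : ∫ z, rc p1 p2 q1 q2 z = (p2 - p1) * (q2 - q1) := by
  have e : ∀ a b, ∫ x, sg a b x = b - a := fun a b => by simpa using sg_int a b fun _ => 1
  rw [← e, ← e]
  exact integral_prod_mul _ _

lemma rc_int {g : ℝ × ℝ → ℝ} {p1 p2 q1 q2 : ℝ} (h : Integrable fun z => rc p1 p2 q1 q2 z * g z) :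
    (∫ z, rc p1 p2 q1 q2 z * g z = ∫ s in q1..q2, ∫ x in p1..p2, g (x, s)) ∧
      ∫ z, rc p1 p2 q1 q2 z * g z = ∫ x in p1..p2, ∫ s in q1..q2, g (x, s) := by
  constructor
  · rw [Measure.volume_eq_prod, integral_prod_symm _ h, ← sg_int]
    refine integral_congr_ae (ae_of_all _ fun s => ?_)
    simp only [← sg_int, ← integral_const_mul, rc]
    exact integral_congr_ae (ae_of_all _ fun x => by ring)
  · rw [Measure.volume_eq_prod, integral_prod _ h, ← sg_int]
    refine integral_congr_ae (ae_of_all _ fun s => ?_)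
    simp only [← sg_int, ← integral_const_mul, rc]
    exact integral_congr_ae (ae_of_all _ fun x => by ring)

lemma mul_conv_int {A κ f : ℝ × ℝ → ℝ} (hA : Integrable A) (h : Dec κ 3) (hf : Integrable f) :
    Integrable fun z => A z * conv κ f z := by
  obtain ⟨C, hC⟩ := conv_bdd h hf
  exact hA.mul_bdd (c := C) (conv_cont h hf).aestronglyMeasurable (ae_of_all _ hC)

/-- the formula of Green on a rectangle -/
lemma green {t R : ℝ} (ht : 0 < t) (hR : 0 < R) {f : ℝ × ℝ → ℝ} (hf : Integrable f)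
    (p1 p2 q1 q2 : ℝ) : mx (pot (conv (df ka t R) f)) p1 p2 q1 q2 +
      mx (pot fun z => conv (df kb t R) f z.swap) q1 q2 p1 p2 =
      ∫ z, rc p1 p2 q1 q2 z * (conv (ph t) f z - conv (ph R) f z) := by
  have i1 := mul_conv_int (rc_integrable p1 p2 q1 q2) (dec_k1 ht hR) hf
  have i2 := mul_conv_int (rc_integrable p1 p2 q1 q2) (dec_k2 ht hR) hf
  rw [pot_mx (conv_cont (dec_ka ht hR) hf) (conv_cont (dec_k1 ht hR) hf)
      (conv_d1 (dec_ka ht hR) (dec_k1 ht hR) ((d1_ka ht).df (d1_ka hR)) hf),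
    pot_mx (a := fun z => conv (df kb t R) f z.swap) (a1 := fun z => conv (df k2 t R) f z.swap)
      ((conv_cont (dec_kb ht hR) hf).comp continuous_swap)
      ((conv_cont (dec_k2 ht hR) hf).comp continuous_swap)
      (fun p q => conv_d2 (dec_kb ht hR) (dec_k2 ht hR) ((d2_kb ht).df (d2_kb hR)) hf q p),
    ← (rc_int i1).1]
  simp only [Prod.swap_prod_mk]
  rw [← (rc_int i2).2, ← integral_add i1 i2]
  simp only [← conv_div ht hR hf, mul_add]

/-- the limit of small and large scales -/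
lemma limit {A f : ℝ × ℝ → ℝ} (hA : Integrable A) {N : ℝ} (hN : ∀ z, |A z| ≤ N)
    (hc : ∀ᵐ z, ContinuousAt A z) (hf : Integrable f) :
    Tendsto (fun c : ℝ => ∫ z, A z * (conv (ph (c ^ 2)⁻¹) f z - conv (ph (c ^ 2)) f z)) atTop
      (𝓝 (c0 * ∫ z, f z * A z)) := by
  have swp : ∀ t, 0 < t → ∫ z, A z * conv (ph t) f z = ∫ w, f w * conv (ph t) A w := fun t ht => by
    obtain ⟨C, hC⟩ := (dec_ph ht).bdd
    have i : Integrable (Function.uncurry fun z w : ℝ × ℝ => A z * f w * ph t (z - w))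
        (volume.prod volume) := (hA.mul_prod hf).mul_bdd (c := C)
      ((dec_ph ht).1.comp (by fun_prop)).aestronglyMeasurable (ae_of_all _ fun u => hC _)
    have := integral_integral_swap i
    simp only [conv, ← integral_const_mul]
    refine Eq.trans ?_ (this.trans ?_)
    · simp only [mul_assoc]
    · refine integral_congr_ae (ae_of_all _ fun w => integral_congr_ae (ae_of_all _ fun z => ?_))
      simp only [ph, iv, Prod.fst_sub, Prod.snd_sub]
      rw [sub_sq_comm z.1, sub_sq_comm z.2]; ring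
  have pos : ∀ᶠ c : ℝ in atTop, 0 < c := eventually_gt_atTop 0
  have l1 : Tendsto (fun c : ℝ => ∫ w, f w * conv (ph (c ^ 2)⁻¹) A w) atTop
      (𝓝 (∫ w, f w * (c0 * A w))) := by
    refine tendsto_integral_filter_of_dominated_convergence (fun w => |f w| * (N * c0))
      (pos.mono fun c hc => ?_) (pos.mono fun c hc => ae_of_all _ fun w => ?_)
      (hf.abs.mul_const _) (hc.mono fun w hw => Tendsto.const_mul _ ?_)
    · exact (mul_conv_int hf (dec_ph (by positivity)) hA).aestronglyMeasurable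
    · rw [Real.norm_eq_abs, abs_mul]
      exact mul_le_mul_of_nonneg_left (conv_ph_le (by positivity) hN w) (abs_nonneg _)
    · have k := tendsto_integral_comp_smul_smul_of_integrable' (μ := volume)
        (φ := fun z => c0⁻¹ * ph 1 z) (fun z => mul_nonneg (inv_pos.2 c0_pos).le (ph_nonneg one_pos z))
        (by rw [integral_const_mul]; exact inv_mul_cancel₀ c0_pos.ne') ?_ hA hw
      · refine (k.const_mul c0).congr' (pos.mono fun c hc => ?_)
        simp only [conv, ← integral_const_mul, ph_scale hc, Module.finrank_prod,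
          Module.finrank_self, smul_eq_mul]
        refine integral_congr_ae (ae_of_all _ fun z => ?_)
        have := c0_pos
        simp only
        field_simp
        norm_num [mul_comm, mul_left_comm]
      · obtain ⟨-, C, hC⟩ := (dec_ph one_pos).smul c0⁻¹
        have k0 : Tendsto (fun z : ℝ × ℝ => C * (1 + ‖z‖)⁻¹) (Bornology.cobounded _) (𝓝 (C * 0)) :=
          (tendsto_inv_atTop_zero.comp (tendsto_atTop_add_const_left _ 1
            tendsto_norm_cobounded_atTop)).const_mul C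
        rw [mul_zero] at k0
        refine squeeze_zero_norm (fun z => ?_) k0
        have p := pos1 z
        have e : C * (1 + ‖z‖)⁻¹ = (1 + ‖z‖) ^ 2 * (C * (1 + ‖z‖) ^ (-(3 : ℤ))) := by
          rw [zpow_neg, zpow_ofNat]; field_simp
        simp only [Module.finrank_prod, Module.finrank_self, norm_mul, norm_pow, norm_norm, e]
        refine mul_le_mul (by gcongr; linarith) ?_ (by positivity) (by positivity)
        rw [← norm_mul]; exact hC z
  have l2 : Tendsto (fun c : ℝ => ∫ w, f w * conv (ph (c ^ 2)) A w) atTop (𝓝 0) := by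
    have k0 : Tendsto (fun c : ℝ => (∫ w, |f w| * ∫ z, |A z| * 2) * (c ^ 2)⁻¹) atTop (𝓝 (_ * 0)) :=
      (tendsto_inv_atTop_zero.comp (tendsto_pow_atTop two_ne_zero)).const_mul _
    rw [mul_zero] at k0
    refine squeeze_zero_norm' (pos.mono fun c hc => ?_) k0
    rw [← integral_mul_const]
    refine norm_integral_le_of_norm_le ((hf.abs.mul_const _).mul_const _) (ae_of_all _ fun w => ?_)
    rw [Real.norm_eq_abs, abs_mul, mul_assoc, ← integral_mul_const]
    refine mul_le_mul_of_nonneg_left (norm_integral_le_of_norm_le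
      (f := fun z => A z * ph (c ^ 2) (w - z)) ((hA.abs.mul_const _).mul_const _)
      (ae_of_all _ fun z => ?_)) (abs_nonneg _)
    have c2 : 0 < c ^ 2 := by positivity
    rw [Real.norm_eq_abs, abs_mul, mul_assoc, abs_of_nonneg (ph_nonneg c2 _)]
    refine mul_le_mul_of_nonneg_left ?_ (abs_nonneg _)
    have i1 : iv (c ^ 2) (w - z) ≤ (c ^ 2)⁻¹ := inv_anti₀ c2 (le_add_of_nonneg_left (by positivity))
    have i2 := pow_le_pow_left₀ (iv_nonneg c2 _) i1 2
    refine (mul_le_mul_of_nonneg_left i2 (by positivity)).trans_eq ?_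
    field_simp
  have l3 := l1.sub l2
  rw [sub_zero] at l3
  have e : c0 * ∫ z, f z * A z = ∫ w, f w * (c0 * A w) := by
    rw [← integral_const_mul]; simp only [mul_left_comm c0]
  rw [e]
  refine l3.congr' (pos.mono fun c hc => ?_)
  simp only [mul_sub]
  rw [integral_sub (mul_conv_int hA (dec_ph (by positivity)) hf)
    (mul_conv_int hA (dec_ph (by positivity)) hf), swp _ (by positivity), swp _ (by positivity)]

/-- the covering by balls that carry about their own area -/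
lemma cover {F : Type} [Fintype F] [DecidableEq F] (z : F → ℝ × ℝ) (ρ : F → ℝ) (h0 : ∀ f, 0 < ρ f) :
    ∃ (u : Finset F) (r : F → ℝ) (bb : F → F), (∀ g, 0 < r g) ∧
      ((u : Set F).PairwiseDisjoint fun g => closedBall (z g) (r g)) ∧
      (∀ f, bb f ∈ u ∧ closedBall (z f) (ρ f) ⊆ closedBall (z (bb f)) (5 * r (bb f))) ∧
      ∑ g ∈ u, r g ^ 2 ≤ ∑ f, ρ f ^ 2 ∧
      ∀ g, ∑ f with bb f = g, ρ f ^ 2 ≤ 25 * r g ^ 2 := by
  classical
  let w : F → ℝ → ℝ := fun g s => ∑ f with z f ∈ closedBall (z g) s, ρ f ^ 2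
  have ex : ∀ g, ∃ s, ρ g ≤ s ∧ s ^ 2 ≤ w g s ∧ w g (5 * s) ≤ 25 * s ^ 2 := fun g => by
    have p := h0 g
    have e1 : ∃ k : ℕ, w g (5 * (5 ^ k * ρ g)) < 25 * (5 ^ k * ρ g) ^ 2 := by
      obtain ⟨k, hk⟩ := pow_unbounded_of_one_lt ((∑ f, ρ f ^ 2) / ρ g ^ 2) (show (1 : ℝ) < 5 by norm_num)
      rw [div_lt_iff₀ (by positivity)] at hk
      have a1 : w g (5 * (5 ^ k * ρ g)) ≤ ∑ f, ρ f ^ 2 :=
        Finset.sum_le_sum_of_subset_of_nonneg (Finset.filter_subset _ _) fun _ _ _ => sq_nonneg _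
      have a2 : (1 : ℝ) ≤ 5 ^ k := one_le_pow₀ (by norm_num)
      have a3 : 0 < 5 ^ k * ρ g ^ 2 := by positivity
      exact ⟨k, by nlinarith⟩
    refine ⟨5 ^ Nat.find e1 * ρ g, le_mul_of_one_le_left p.le (one_le_pow₀ (by norm_num)), ?_,
      (Nat.find_spec e1).le⟩
    rcases Nat.eq_zero_or_eq_succ_pred (Nat.find e1) with a | a
    · rw [a, pow_zero, one_mul]
      exact Finset.single_le_sum (f := fun f => ρ f ^ 2) (fun _ _ => sq_nonneg _)
        (Finset.mem_filter.2 ⟨Finset.mem_univ g, mem_closedBall_self p.le⟩)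
    · have a1 := not_lt.1 (Nat.find_min e1 (m := (Nat.find e1).pred) (by omega))
      generalize (Nat.find e1).pred = k at a a1
      rw [a, Nat.succ_eq_add_one, pow_succ' 5 k, mul_assoc]
      exact le_trans (le_of_eq (by ring)) a1
  choose r r1 r2 r3 using ex
  have r0 : ∀ g, 0 < r g := fun g => (h0 g).trans_le (r1 g)
  obtain ⟨u, -, u1, u2⟩ := Vitali.exists_disjoint_subfamily_covering_enlargement_closedBall
    (univ : Set F) z r (∑ g, r g) (fun g _ => Finset.single_le_sum (fun g _ => (r0 g).le)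
      (Finset.mem_univ g)) 5 (by norm_num)
  choose bb b1 b2 using fun f => u2 f trivial
  refine ⟨u.toFinset, r, bb, r0, by simpa using u1, fun f => ⟨mem_toFinset.2 (b1 f),
    (closedBall_subset_closedBall (r1 f)).trans (b2 f)⟩, ?_, fun g => le_trans ?_ (r3 g)⟩
  · refine (Finset.sum_le_sum fun g _ => r2 g).trans ?_
    simp only [w]
    rw [← Finset.sum_biUnion]
    · exact Finset.sum_le_sum_of_subset_of_nonneg (Finset.subset_univ _) fun _ _ _ => sq_nonneg _
    · intro g hg g' hg' hne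
      refine Finset.disjoint_left.2 fun f a b => ?_
      exact Set.disjoint_left.1 (u1 (by simpa using hg) (by simpa using hg') hne)
        (Finset.mem_filter.1 a).2 (Finset.mem_filter.1 b).2
  · refine Finset.sum_le_sum_of_subset_of_nonneg (fun f hf => ?_) fun _ _ _ => sq_nonneg _
    refine Finset.mem_filter.2 ⟨Finset.mem_univ _, ?_⟩
    rw [← (Finset.mem_filter.1 hf).2]
    exact b2 f (mem_closedBall_self (r0 f).le)

end
end Pool.Agent.MP_a421c2_co.Gap.CZ

end MrgPart2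

-- ======== part 3: formerly Pool.Agent.MP_a421c2_co.Gap.CZ4
section MrgPart3

/-! # An isoperimetric inequality up to small dipoles -/

set_option autoImplicit false
open MeasureTheory Set Real Metric Filter Topology

namespace Pool.Agent.MP_a421c2_co.Gap.CZ
noncomputable section

/-- the boundary of the signed rectangles consists of a part of length `L` and of dipoles -/
def Hyp {R F : Type} [Fintype F] (S : Finset R) (p1 p2 q1 q2 : R → ℝ) (a b ρ : F → ℝ) (L : ℝ) :
    Prop :=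
  ∀ (H H' : ℝ → ℝ → ℝ) (B : ℝ) (lam : F → ℝ), 0 ≤ B → (∀ f, 0 ≤ lam f) → Lip H B → Lip H' B →
    (∀ f, Loc H (a f) (b f) (ρ f) (lam f) ∧ Loc H' (b f) (a f) (ρ f) (lam f)) →
    |∑ r ∈ S, (mx H (p1 r) (p2 r) (q1 r) (q2 r) + mx H' (q1 r) (q2 r) (p1 r) (p2 r))| ≤
      L * B + ∑ f, lam f * ρ f ^ 2

lemma vol_ball (c : ℝ × ℝ) {r : ℝ} (hr : 0 ≤ r) :
    volume (closedBall c r) ≠ ⊤ ∧ volume.real (closedBall c r) = 4 * r ^ 2 := by
  refine ⟨(isCompact_closedBall c r).measure_ne_top, ?_⟩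
  rw [← closedBall_prod_same c.1 c.2 r, Measure.volume_eq_prod, measureReal_prod_prod,
    volume_real_closedBall hr, volume_real_closedBall hr]
  ring

/-- testing with a density that is constant near the balls of the covering -/
lemma test : ∃ C, 0 ≤ C ∧ ∀ {R F : Type} [Fintype F] [DecidableEq F] (S : Finset R)
    (p1 p2 q1 q2 : R → ℝ) (a b ρ : F → ℝ) (L : ℝ), 0 < L → Hyp S p1 p2 q1 q2 a b ρ L →
    ∀ (u : Finset F) (r : F → ℝ) (bb : F → F), (∀ g, 0 < r g) →
    ((u : Set F).PairwiseDisjoint fun g => closedBall (a g, b g) (r g)) →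
    (∀ f, bb f ∈ u ∧ closedBall (a f, b f) (ρ f) ⊆ closedBall (a (bb f), b (bb f)) (5 * r (bb f))) →
    ∑ g ∈ u, r g ^ 2 ≤ ∑ f, ρ f ^ 2 → (∀ g, ∑ f with bb f = g, ρ f ^ 2 ≤ 25 * r g ^ 2) →
    ∀ f : ℝ × ℝ → ℝ, Integrable f → (∀ w, |f w| ≤ 1) →
    (∀ g ∈ u, ∀ w ∈ closedBall (a g, b g) (10 * r g), f w = f (a g, b g)) →
    |∫ z, f z * ∑ r ∈ S, rc (p1 r) (p2 r) (q1 r) (q2 r) z| ≤
      (∫ w, |f w|) / 2 + C * (L ^ 2 + ∑ f, ρ f ^ 2) := by
  obtain ⟨Cs, Cs0, hs⟩ := sup_bd
  obtain ⟨Co, Co0, ho⟩ := osc_bd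
  have c := c0_pos
  refine ⟨(8 * Cs / c0 + 25 * (6 * Co + 75 * c0)) / c0, by positivity,
    fun {R F} _ _ S p1 p2 q1 q2 a b ρ L L0 hyp u r bb r0 dis sub s1 s2 f hf h1 hc => ?_⟩
  obtain ⟨n, hn⟩ : ∃ n, n = ∫ w, |f w| := ⟨_, rfl⟩
  obtain ⟨m, hm⟩ : ∃ m, m = ∑ f, ρ f ^ 2 := ⟨_, rfl⟩
  have n0 : 0 ≤ n := hn ▸ integral_nonneg fun _ => abs_nonneg _
  have m0 : 0 ≤ m := hm ▸ Finset.sum_nonneg fun _ _ => sq_nonneg _
  rw [← hn, ← hm]
  rw [← hm] at s1
  have main : ∀ t R : ℝ, 0 < t → 0 < R →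
      |∫ z, (∑ r ∈ S, rc (p1 r) (p2 r) (q1 r) (q2 r) z) * (conv (ph t) f z - conv (ph R) f z)| ≤
        c0 * n / 2 + 8 * Cs / c0 * L ^ 2 + 25 * (6 * Co + 75 * c0) * m := fun t R ht hR => by
    have da := dec_ka ht hR
    have db := dec_kb ht hR
    have d1 := dec_k1 ht hR
    have d2 := dec_k2 ht hR
    have dc := dec_kc ht hR
    have osc : ∀ g ∈ u, ∀ z ∈ closedBall (a g, b g) (5 * r g), ∀ z' ∈ closedBall (a g, b g) (5 * r g),
        gr t R f z ≤ gr t R f z' + 3 * Co := fun g hg z hz z' hz' => by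
      have o1 := ho _ f d1 ((osc_k1 ht).df (osc_k1 hR)) hf h1 _ _ (r0 g) (hc g hg) z hz z' hz'
      have o2 := ho _ f d2 ((osc_k2 ht).df (osc_k2 hR)) hf h1 _ _ (r0 g) (hc g hg) z hz z' hz'
      have o3 := ho _ f dc ((osc_kc ht).df (osc_kc hR)) hf h1 _ _ (r0 g) (hc g hg) z hz z' hz'
      simp only [gr]
      linarith [(abs_sub_abs_le_abs_sub _ _).trans o1, (abs_sub_abs_le_abs_sub _ _).trans o2,
        (abs_sub_abs_le_abs_sub _ _).trans o3]
    have ctr : ∀ g, (a g, b g) ∈ closedBall (a g, b g) (5 * r g) := fun g =>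
      mem_closedBall_self (by linarith [r0 g])
    have gr0 : ∀ z, 0 ≤ gr t R f z := fun z => by unfold gr; positivity
    have inb : ∀ k p q, |p - a k| ≤ ρ k → |q - b k| ≤ ρ k →
        gr t R f (p, q) ≤ gr t R f (a (bb k), b (bb k)) + 3 * Co := fun k p q hp hq =>
      osc _ (sub k).1 _ ((sub k).2 (by
        rw [← closedBall_prod_same]; exact ⟨hp, hq⟩)) _ (ctr _)
    have k := hyp (pot (conv (df ka t R) f)) (pot fun z => conv (df kb t R) f z.swap)
      (Cs * (8 * L / c0) + 2 / (8 * L / c0) * n) (fun k => gr t R f (a (bb k), b (bb k)) + 3 * Co)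
      (by positivity) (fun k => by linarith [gr0 (a (bb k), b (bb k))])
      (pot_lip (conv_cont da hf) (hn ▸ hs _ f (ka_le ht hR) hf h1 _ (by positivity)))
      (pot_lip ((conv_cont db hf).comp continuous_swap) fun z =>
        hn ▸ hs _ f (kb_le ht hR) hf h1 _ (by positivity) _)
      fun k => ⟨pot_loc (conv_cont da hf) (conv_d1 da d1 ((d1_ka ht).df (d1_ka hR)) hf)
        (conv_d2 da dc ((d2_ka ht).df (d2_ka hR)) hf) fun p q hp hq => by
          have := inb k p q hp hq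
          simp only [gr] at this ⊢
          constructor <;> linarith [abs_nonneg (conv (df k1 t R) f (p, q)),
            abs_nonneg (conv (df k2 t R) f (p, q)), abs_nonneg (conv (df kc t R) f (p, q))],
        pot_loc (a1 := fun z => conv (df k2 t R) f z.swap) (a2 := fun z => conv (df kc t R) f z.swap)
          ((conv_cont db hf).comp continuous_swap)
          (fun p q => conv_d2 db d2 ((d2_kb ht).df (d2_kb hR)) hf q p)
          (fun p q => conv_d1 db dc ((d1_kb ht).df (d1_kb hR)) hf q p) fun p q hp hq => by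
          have := inb k q p hq hp
          simp only [gr, Prod.swap_prod_mk] at this ⊢
          constructor <;> linarith [abs_nonneg (conv (df k1 t R) f (q, p)),
            abs_nonneg (conv (df k2 t R) f (q, p)), abs_nonneg (conv (df kc t R) f (q, p))]⟩
    simp only [green ht hR hf] at k
    rw [← integral_finsetSum _ fun r _ => ((mul_conv_int (rc_integrable _ _ _ _) (dec_ph ht) hf).sub'
      (mul_conv_int (rc_integrable _ _ _ _) (dec_ph hR) hf)).congr
        (ae_of_all _ fun z => (mul_sub _ _ _).symm)] at k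
    simp only [← Finset.sum_mul] at k
    refine k.trans ?_
    obtain ⟨g2, i2, le2, int2⟩ := l2_bd ht hR hf h1
    have e1 : L * (Cs * (8 * L / c0) + 2 / (8 * L / c0) * n) = c0 * n / 4 + 8 * Cs / c0 * L ^ 2 := by
      field_simp; ring
    have e2 : ∑ k, (gr t R f (a (bb k), b (bb k)) + 3 * Co) * ρ k ^ 2 ≤
        ∑ g ∈ u, (gr t R f (a g, b g) + 3 * Co) * (25 * r g ^ 2) := by
      rw [← Finset.sum_fiberwise_of_maps_to (t := u) (g := bb) fun k _ => (sub k).1]
      refine Finset.sum_le_sum fun g _ => ?_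
      refine le_trans (le_of_eq ?_) (mul_le_mul_of_nonneg_left (s2 g)
        (by linarith [gr0 (a g, b g)]))
      rw [Finset.mul_sum]
      exact Finset.sum_congr rfl fun k hk => by rw [(Finset.mem_filter.1 hk).2]
    have e3 : ∀ g ∈ u, (gr t R f (a g, b g) + 3 * Co) * (25 * r g ^ 2) ≤
        1 / (48 * c0) * (∫ z in closedBall (a g, b g) (r g), g2 z) +
          25 * (6 * Co + 75 * c0) * r g ^ 2 := fun g hg => by
      obtain ⟨v1, v2⟩ := vol_ball (a g, b g) (r0 g).le
      have := setIntegral_ge_of_const_le_real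
        (c := 300 * c0 * (gr t R f (a g, b g) - 3 * Co - 75 * c0)) measurableSet_closedBall v1
        (fun z hz => by
          have o := osc g hg _ (ctr g) z (closedBall_subset_closedBall (by linarith [r0 g]) hz)
          nlinarith [le2 z, sq_nonneg (gr t R f z - 150 * c0), mul_le_mul_of_nonneg_left o c.le])
        i2.integrableOn
      rw [v2] at this
      have e := mul_le_mul_of_nonneg_left this (show 0 ≤ 1 / (48 * c0) by positivity)
      have e' : 1 / (48 * c0) * (300 * c0 * (gr t R f (a g, b g) - 3 * Co - 75 * c0) *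
          (4 * r g ^ 2)) = (gr t R f (a g, b g) - 3 * Co - 75 * c0) * (25 * r g ^ 2) := by
        field_simp; ring
      linarith
    have e4 : ∑ g ∈ u, ∫ z in closedBall (a g, b g) (r g), g2 z ≤ 12 * c0 ^ 2 * n := by
      rw [← integral_biUnion_finset u (fun _ _ => measurableSet_closedBall) dis
        fun _ _ => i2.integrableOn]
      exact (setIntegral_le_integral i2 (ae_of_all _ fun z => (sq_nonneg _).trans (le2 z))).trans
        (hn ▸ int2)
    have e5 := Finset.sum_le_sum e3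
    rw [Finset.sum_add_distrib, ← Finset.mul_sum, ← Finset.mul_sum] at e5
    have e6 := mul_le_mul_of_nonneg_left e4 (show 0 ≤ 1 / (48 * c0) by positivity)
    have e7 : 1 / (48 * c0) * (12 * c0 ^ 2 * n) = c0 * n / 4 := by field_simp; ring
    have e8 := mul_le_mul_of_nonneg_left s1 (show 0 ≤ 25 * (6 * Co + 75 * c0) by positivity)
    linarith
  have lim := limit (A := fun z => ∑ r ∈ S, rc (p1 r) (p2 r) (q1 r) (q2 r) z) (N := S.card)
    (integrable_finsetSum _ fun r _ => rc_integrable _ _ _ _) (fun z => by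
      refine (Finset.abs_sum_le_sum_abs _ _).trans ((Finset.sum_le_card_nsmul _ _ 1 fun r _ => ?_).trans
        (by simp))
      obtain ⟨-, -, a1⟩ := sg_cases (p1 r) (p2 r) z.1
      obtain ⟨-, -, a2⟩ := sg_cases (q1 r) (q2 r) z.2
      rw [rc, abs_mul]
      exact mul_le_one₀ a1 (abs_nonneg _) a2) (by
      have n1 : ∀ c : ℝ, ∀ᵐ z : ℝ × ℝ, z.1 ≠ c := fun c =>
        (Measure.quasiMeasurePreserving_fst (μ := volume) (ν := volume)).ae (Measure.ae_ne volume c)
      have n2 : ∀ c : ℝ, ∀ᵐ z : ℝ × ℝ, z.2 ≠ c := fun c =>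
        (Measure.quasiMeasurePreserving_snd (μ := volume) (ν := volume)).ae (Measure.ae_ne volume c)
      have n3 : ∀ᵐ z : ℝ × ℝ, ∀ r ∈ S, (z.1 ≠ p1 r ∧ z.1 ≠ p2 r) ∧ z.2 ≠ q1 r ∧ z.2 ≠ q2 r :=
        (eventually_all_finset S).2 fun r _ => ((n1 _).and (n1 _)).and ((n2 _).and (n2 _))
      refine n3.mono fun z hz => tendsto_finsetSum _ fun r hr => ?_
      obtain ⟨⟨a1, a2⟩, a3, a4⟩ := hz r hr
      exact (((st_cont a2).sub (st_cont a1)).comp continuousAt_fst).mul
        (((st_cont a4).sub (st_cont a3)).comp continuousAt_snd)) hf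
  have fin := le_of_tendsto lim.abs ((eventually_gt_atTop 0).mono fun c hc =>
    main _ _ (by positivity) (by positivity))
  rw [abs_mul, abs_of_pos c] at fin
  refine le_of_mul_le_mul_left (fin.trans ?_) c
  have e : c0 * (n / 2 + (8 * Cs / c0 + 25 * (6 * Co + 75 * c0)) / c0 * (L ^ 2 + m)) =
      c0 * n / 2 + (8 * Cs / c0 + 25 * (6 * Co + 75 * c0)) * (L ^ 2 + m) := by field_simp
  have a1 : 0 ≤ 8 * Cs / c0 * m := by positivity
  have a2 : 0 ≤ 25 * (6 * Co + 75 * c0) * L ^ 2 := by positivity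
  rw [e]
  linarith

theorem cz : ∃ C, 0 ≤ C ∧ ∀ {R F : Type} [Fintype F] (S : Finset R) (p1 p2 q1 q2 : R → ℝ)
    (a b ρ : F → ℝ) (L : ℝ), 0 < L → (∀ f, 0 < ρ f) → Hyp S p1 p2 q1 q2 a b ρ L →
    |∑ r ∈ S, (p2 r - p1 r) * (q2 r - q1 r)| ≤ C * (L ^ 2 + ∑ f, ρ f ^ 2) := by
  classical
  obtain ⟨C, C0, h⟩ := test
  refine ⟨3 * C + 200, by positivity, fun {R F} _ S p1 p2 q1 q2 a b ρ L L0 ρ0 hyp => ?_⟩
  obtain ⟨u, r, bb, r0, dis, sub, s1, s2⟩ := cover (fun f => (a f, b f)) ρ ρ0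
  replace h := h S p1 p2 q1 q2 a b ρ L L0 hyp u r bb r0 dis sub s1 s2
  obtain ⟨A, hA⟩ : ∃ A : ℝ × ℝ → ℝ, ∀ z, ∑ r ∈ S, rc (p1 r) (p2 r) (q1 r) (q2 r) z = A z :=
    ⟨_, fun _ => rfl⟩
  have iA : Integrable A := funext hA ▸ integrable_finsetSum _ fun r _ => rc_integrable _ _ _ _
  have mA : Measurable A := funext hA ▸ Finset.measurable_sum _ fun r _ =>
    ((sg_meas _ _).comp measurable_fst).mul ((sg_meas _ _).comp measurable_snd)
  have zA : ∀ z, ∃ m : ℤ, A z = m := fun z => by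
    choose m1 h1 using fun r => sg_cases (p1 r) (p2 r) z.1
    choose m2 h2 using fun r => sg_cases (q1 r) (q2 r) z.2
    refine ⟨∑ r ∈ S, m1 r * m2 r, ?_⟩
    rw [← hA]; push_cast
    exact Finset.sum_congr rfl fun r _ => by rw [rc, (h1 r).1, (h2 r).1]
  have eA : ∑ r ∈ S, (p2 r - p1 r) * (q2 r - q1 r) = ∫ z, A z := by
    simp only [← hA, ← rc_area]
    exact (integral_finsetSum _ fun r _ => rc_integrable _ _ _ _).symm
  simp only [hA] at h
  let Ω : Set (ℝ × ℝ) := ⋃ g ∈ u, closedBall (a g, b g) (10 * r g)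
  have mΩ : MeasurableSet Ω := u.measurableSet_biUnion fun _ _ => measurableSet_closedBall
  have vΩ : volume Ω ≠ ⊤ := (measure_biUnion_lt_top u.finite_toSet fun g _ =>
    (vol_ball _ (by linarith [r0 g])).1.lt_top).ne
  have sΩ : ∀ g ∈ u, closedBall (a g, b g) (10 * r g) ⊆ Ω := fun g hg =>
    subset_biUnion_of_mem (u := fun g => closedBall (a g, b g) (10 * r g)) hg
  have cΩ : ∀ g ∈ u, (a g, b g) ∈ Ω := fun g hg => sΩ g hg (mem_closedBall_self (by linarith [r0 g]))
  have k2 := h (Ω.indicator 1) ((integrable_indicator_iff mΩ).2 (integrableOn_const vΩ))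
    (fun w => by by_cases hw : w ∈ Ω <;> simp [hw]) fun g hg w hw => by simp [sΩ g hg hw, cΩ g hg]
  have v2 : ∫ w, |Ω.indicator (1 : ℝ × ℝ → ℝ) w| ≤ 400 * ∑ f, ρ f ^ 2 := by
    have e : ∀ w, |Ω.indicator (1 : ℝ × ℝ → ℝ) w| = Ω.indicator 1 w := fun w =>
      abs_of_nonneg (indicator_nonneg (fun _ _ => zero_le_one) w)
    simp only [e]
    rw [integral_indicator_one mΩ]
    refine (measureReal_biUnion_finset_le _ _).trans (le_trans (le_of_eq ?_)
      (mul_le_mul_of_nonneg_left s1 (by norm_num)))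
    rw [Finset.mul_sum]
    exact Finset.sum_congr rfl fun g _ => by rw [(vol_ball _ (by linarith [r0 g])).2]; ring
  let f : ℝ × ℝ → ℝ := fun z => if z ∈ Ω then 0 else if 0 < A z then 1 else if A z < 0 then -1 else 0
  have mf : Measurable f := Measurable.ite mΩ measurable_const
    (Measurable.ite (measurableSet_lt measurable_const mA) measurable_const
      (Measurable.ite (measurableSet_lt mA measurable_const) measurable_const measurable_const))
  have pf : ∀ z, |f z| ≤ 1 ∧ |f z| ≤ f z * A z ∧ f z * A z ≤ |A z| ∧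
      |A z - Ω.indicator 1 z * A z| ≤ f z * A z := fun z => by
    obtain ⟨m, hm⟩ := zA z
    by_cases hz : z ∈ Ω
    · simp [f, hz]
    rcases lt_trichotomy 0 (A z) with k | k | k
    · have : (1 : ℝ) ≤ A z := by
        rw [hm] at k ⊢
        exact_mod_cast k
      simp [f, hz, k, this, abs_of_pos k]
    · simp [f, hz, ← k]
    · have : A z ≤ -1 := by
        rw [hm] at k ⊢
        have : m < 0 := by exact_mod_cast k
        exact_mod_cast (by omega : m ≤ -1)
      simp only [f, hz, k, k.not_gt, if_false, if_true, abs_of_neg k, indicator_of_notMem,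
        not_false_eq_true]
      simp only [abs_neg, abs_one, zero_mul, sub_zero, abs_of_neg k]
      refine ⟨le_rfl, ?_, ?_, ?_⟩ <;> linarith
  have jf : Integrable f := iA.abs.mono' mf.aestronglyMeasurable
    (ae_of_all _ fun z => (pf z).2.1.trans (pf z).2.2.1)
  have jA : Integrable fun z => f z * A z :=
    iA.bdd_mul (c := 1) mf.aestronglyMeasurable (ae_of_all _ fun z => (pf z).1)
  have jΩ : Integrable fun z => Ω.indicator (1 : ℝ × ℝ → ℝ) z * A z :=
    iA.bdd_mul (c := 1) (measurable_const.indicator mΩ).aestronglyMeasurable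
      (ae_of_all _ fun z => by by_cases hw : z ∈ Ω <;> simp [hw])
  have k1 := h f jf (fun z => (pf z).1) fun g hg w hw => by simp [f, sΩ g hg hw, cΩ g hg]
  have v1 := integral_mono jf.abs jA fun z => (pf z).2.1
  have v3 := norm_integral_le_of_norm_le (f := fun z => A z - Ω.indicator 1 z * A z) jA
    (ae_of_all _ fun z => (pf z).2.2.2)
  rw [integral_sub iA jΩ, Real.norm_eq_abs] at v3
  have v4 := le_abs_self (∫ z, f z * A z)
  have v5 := abs_add_le ((∫ z, A z) - ∫ z, Ω.indicator 1 z * A z) (∫ z, Ω.indicator 1 z * A z)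
  rw [sub_add_cancel] at v5
  rw [eA]
  nlinarith [sq_nonneg L]

end
end Pool.Agent.MP_a421c2_co.Gap.CZ

end MrgPart3

-- marker of a merged file
example : 731051 + 631265 = 731051 + 631265 := rfl
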