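import Pool.Agent.MP_a421c2_co.Gap.CZ4
import Pool.Agent.MP_a421c2_co.Ex.Leak
import Pool.Agent.MP_a421c2_co.Ex.Net

-- ======== part 0: formerly Pool.Agent.MP_a421c2_co.Gap.Asp1
section MrgPart0

/-! # Staircase paths, faces and runs -/

set_option autoImplicit false
open Finset (range Ico)

namespace Pool.Agent.MP_a421c2_co.Gap.Asp
open Ex CZ
noncomputable section

section
variable {H H' : ℝ → ℝ → ℝ} {B a b ρ lam : ℝ}

/-- the line integral along one step of a staircase -/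
def step (H H' : ℝ → ℝ → ℝ) (p p' q q' : ℝ) : ℝ := H p' q' - H p' q - H' q p' + H' q p

lemma step_le (h : Lip H B) (h' : Lip H' B) (hB : 0 ≤ B) {p p' q q' u : ℝ} (h1 : |p' - p| ≤ u)
    (h2 : |q' - q| ≤ u) : |step H H' p p' q q'| ≤ 2 * B * u := by
  have a1 := abs_le.1 ((h p' q q').trans (mul_le_mul_of_nonneg_left h2 hB))
  have a2 := abs_le.1 ((h' q p p').trans (mul_le_mul_of_nonneg_left h1 hB))
  exact abs_le.2 ⟨by unfold step; linarith, by unfold step; linarith⟩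

lemma two {u v c : ℝ} (h1 : |u - c| ≤ ρ) (h2 : |v - c| ≤ ρ) : |u - v| ≤ 2 * ρ := by
  rw [abs_le] at *; constructor <;> linarith [h1.1, h2.1]

/-- a dipole -/
lemma dip (h : Lip H B) (hl : Loc H a b (5 * ρ) lam) (l0 : 0 ≤ lam) {p p' q1 q2 q1' q2' : ℝ}
    (b1 : |p - a| ≤ ρ) (b2 : |p' - a| ≤ ρ) (b3 : |q1 - b| ≤ ρ) (b4 : |q2 - b| ≤ ρ)
    (b5 : |q1' - b| ≤ ρ) :
    |H p' q2' - H p' q1' - (H p q2 - H p q1)| ≤ B * |q2' - q1' - (q2 - q1)| + 8 * lam * ρ ^ 2 := by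
  have r0 : 0 ≤ ρ := (abs_nonneg _).trans b1
  have a1 := hl p q1 p' q1' (q2 - q1) (by linarith) (by linarith) (by linarith) (by linarith)
    (by rw [add_sub_cancel]; linarith) (by
      rw [abs_le] at *; constructor <;> linarith [b3.1, b4.1, b5.1])
  have a2 := h p' (q1' + (q2 - q1)) q2'
  rw [add_sub_cancel] at a1
  rw [← sub_sub] at a2
  have a3 : lam * |q2 - q1| * (|p' - p| + |q1' - q1|) ≤ lam * (2 * ρ) * (2 * ρ + 2 * ρ) :=
    mul_le_mul (mul_le_mul_of_nonneg_left (two b4 b3) l0) (add_le_add (two b2 b1) (two b5 b3))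
      (by positivity) (by positivity)
  have a4 := abs_add_le (H p' q2' - H p' (q1' + (q2 - q1)))
    (H p' (q1' + (q2 - q1)) - H p' q1' - (H p q2 - H p q1))
  rw [show H p' q2' - H p' (q1' + (q2 - q1)) + (H p' (q1' + (q2 - q1)) - H p' q1' -
    (H p q2 - H p q1)) = H p' q2' - H p' q1' - (H p q2 - H p q1) by ring] at a4
  linarith

/-- an almost horizontal staircase -/
lemma stair (h : Lip H B) (hl : Loc H' b a (5 * ρ) lam) (l0 : 0 ≤ lam) {p q : ℕ → ℝ} {l k : ℕ}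
    (hk : l ≤ k) (hp : ∀ x, l ≤ x → x ≤ k → |p x - a| ≤ ρ ∧ |q x - b| ≤ ρ) :
    |∑ x ∈ Ico l k, step H H' (p x) (p (x + 1)) (q x) (q (x + 1)) +
      (H' (q k) (p k) - H' (q k) (p l))| ≤ (B + 2 * ρ * lam) * ∑ x ∈ Ico l k, |q (x + 1) - q x| := by
  induction k, hk using Nat.le_induction with
  | base => simp
  | succ k hk ih =>
    have ih := abs_le.1 (ih fun x a b => hp x a (by omega))
    obtain ⟨a1, -⟩ := hp l le_rfl (by omega)
    obtain ⟨-, a2⟩ := hp k hk (by omega)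
    obtain ⟨a3, a4⟩ := hp (k + 1) (by omega) le_rfl
    have r0 : 0 ≤ ρ := (abs_nonneg _).trans a1
    have c1 := abs_le.1 (h (p (k + 1)) (q k) (q (k + 1)))
    have c2 := hl (q k) (p l) (q (k + 1)) (p l) (p (k + 1) - p l) (by linarith) (by linarith)
      (by linarith) (by linarith) (by rw [add_sub_cancel]; linarith)
      (by rw [add_sub_cancel]; linarith)
    rw [add_sub_cancel, sub_self, abs_zero, add_zero] at c2
    have c3 := abs_le.1 (c2.trans (mul_le_mul_of_nonneg_right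
      (mul_le_mul_of_nonneg_left (two a3 a1) l0) (abs_nonneg _)))
    rw [Finset.sum_Ico_succ_top hk, Finset.sum_Ico_succ_top hk, abs_le]
    simp only [step] at ih ⊢
    constructor <;> linarith [ih.1, ih.2]

/-- the top and the bottom side of a face -/
lemma face (h : Lip H B) (h' : Lip H' B) (hl : Loc H a b (5 * ρ) lam) (hl' : Loc H' b a (5 * ρ) lam)
    (l0 : 0 ≤ lam) {pb pt qb qt : ℕ → ℝ} {l r : ℕ} (hr : l < r)
    (hb : ∀ x, l ≤ x → x ≤ r → |pb x - a| ≤ ρ ∧ |qb x - b| ≤ ρ)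
    (ht : ∀ x, l ≤ x → x ≤ r → |pt x - a| ≤ ρ ∧ |qt x - b| ≤ ρ)
    (hc : ∀ x, l ≤ x → x < r → qb x = qb l)
    (hV : ∑ x ∈ Ico l r, |qt (x + 1) - qt x - (qb (x + 1) - qb x)| ≤ ρ) :
    |∑ x ∈ Ico l r, (step H H' (pt x) (pt (x + 1)) (qt x) (qt (x + 1)) -
      step H H' (pb x) (pb (x + 1)) (qb x) (qb (x + 1)))| ≤
      B * (∑ x ∈ Ico l r, |qt (x + 1) - qt x - (qb (x + 1) - qb x)| +
        |pt r - pt l - (pb r - pb l)|) + lam * (5 * ρ) ^ 2 := by
  obtain ⟨n, rfl⟩ : ∃ n, r = n + 1 := ⟨r - 1, by omega⟩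
  have hn : l ≤ n := by omega
  have s1 := stair h hl' l0 hn fun x a b => ht x a (by omega)
  have s2 := stair h hl' l0 hn fun x a b => hb x a (by omega)
  have e0 : ∀ x ∈ Ico l n, qb (x + 1) - qb x = 0 := fun x hx => by
    obtain ⟨x1, x2⟩ := Finset.mem_Ico.1 hx
    rw [hc _ (by omega) (by omega), hc x x1 (by omega), sub_self]
  rw [Finset.sum_eq_zero (f := fun x => |qb (x + 1) - qb x|) fun x hx => by rw [e0 x hx, abs_zero],
    mul_zero] at s2
  have e1 : ∑ x ∈ Ico l n, |qt (x + 1) - qt x - (qb (x + 1) - qb x)| =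
      ∑ x ∈ Ico l n, |qt (x + 1) - qt x| :=
    Finset.sum_congr rfl fun x hx => by rw [e0 x hx, sub_zero]
  obtain ⟨a1, -⟩ := hb l le_rfl (by omega)
  obtain ⟨-, a2⟩ := hb n hn (by omega)
  obtain ⟨a3, a4⟩ := hb (n + 1) (by omega) le_rfl
  obtain ⟨b1, -⟩ := ht l le_rfl (by omega)
  obtain ⟨-, b2⟩ := ht n hn (by omega)
  obtain ⟨b3, -⟩ := ht (n + 1) (by omega) le_rfl
  have r0 : 0 ≤ ρ := (abs_nonneg _).trans a1
  have d1 := dip (q2' := qt (n + 1)) h hl l0 a3 b3 a2 a4 b2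
  have d2 := dip (q2' := pt (n + 1)) h' hl' l0 a2 b2 a1 a3 b1
  rw [Finset.sum_Ico_succ_top hn, e1] at hV
  rw [Finset.sum_Ico_succ_top hn, Finset.sum_Ico_succ_top hn, e1, Finset.sum_sub_distrib]
  have d3 : 2 * ρ * lam * ∑ x ∈ Ico l n, |qt (x + 1) - qt x| ≤ 2 * ρ * lam * ρ :=
    mul_le_mul_of_nonneg_left (by linarith [abs_nonneg (qt (n + 1) - qt n - (qb (n + 1) - qb n))])
      (by positivity)
  have d4 : 0 ≤ lam * ρ ^ 2 := by positivity
  rw [abs_le] at s1 s2 d1 d2 ⊢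
  simp only [step] at s1 s2 ⊢
  constructor <;> linarith [s1.1, s1.2, s2.1, s2.2, d1.1, d1.2, d2.1, d2.2]

end

/-- telescoping along runs -/
lemma runs {χ : Finset (ℕ × ℕ)} {Sl Sr : ℕ × ℕ → ℝ} {β : ℝ}
    (h : ∀ u ∈ χ, |Sl u| ≤ β ∧ |Sr u| ≤ β)
    (link : ∀ u ∈ χ, (u.1 + 1, u.2) ∈ χ → Sr u = Sl (u.1 + 1, u.2)) :
    |∑ u ∈ χ, (Sr u - Sl u)| ≤ 2 * β * (χ.filter fun u => u.1 = 0 ∨ (u.1 - 1, u.2) ∉ χ).card := by
  have bij : ∀ f g : ℕ × ℕ → ℝ, (∀ u ∈ χ, (u.1 + 1, u.2) ∈ χ → f u = g (u.1 + 1, u.2)) →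
      ∑ u ∈ χ with (u.1 + 1, u.2) ∈ χ, f u =
        ∑ u ∈ χ with ¬ (u.1 = 0 ∨ (u.1 - 1, u.2) ∉ χ), g u := fun f g hfg => by
    refine Finset.sum_nbij' (fun u => (u.1 + 1, u.2)) (fun u => (u.1 - 1, u.2)) ?_ ?_ ?_ ?_ ?_
    · intro u hu
      simp only [Finset.mem_filter] at hu ⊢
      exact ⟨hu.2, by simpa using hu.1⟩
    · intro u hu
      simp only [Finset.mem_filter, not_or, not_not] at hu ⊢
      exact ⟨hu.2.2, by rw [show u.1 - 1 + 1 = u.1 by omega]; exact hu.1⟩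
    · intro u _; simp
    · intro u hu
      simp only [Finset.mem_filter, not_or, not_not] at hu
      exact Prod.ext (show u.1 - 1 + 1 = u.1 by omega) rfl
    · intro u hu
      exact hfg u (Finset.mem_filter.1 hu).1 (Finset.mem_filter.1 hu).2
  have e1 := bij Sr Sl link
  have e2 := bij (fun _ => β) (fun _ => β) fun _ _ _ => rfl
  have s1 := fun f : ℕ × ℕ → ℝ =>
    Finset.sum_filter_add_sum_filter_not χ (fun u => (u.1 + 1, u.2) ∈ χ) f
  have s2 := fun f : ℕ × ℕ → ℝ =>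
    Finset.sum_filter_add_sum_filter_not χ (fun u => u.1 = 0 ∨ (u.1 - 1, u.2) ∉ χ) f
  have b1 := (Finset.abs_sum_le_sum_abs Sr (χ.filter fun u => ¬ (u.1 + 1, u.2) ∈ χ)).trans
    (Finset.sum_le_sum fun u hu => (h u (Finset.mem_filter.1 hu).1).2)
  have b2 := (Finset.abs_sum_le_sum_abs Sl (χ.filter fun u => u.1 = 0 ∨ (u.1 - 1, u.2) ∉ χ)).trans
    (Finset.sum_le_sum fun u hu => (h u (Finset.mem_filter.1 hu).1).1)
  have e3 : ∑ _u ∈ χ.filter fun u => u.1 = 0 ∨ (u.1 - 1, u.2) ∉ χ, β =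
      β * (χ.filter fun u => u.1 = 0 ∨ (u.1 - 1, u.2) ∉ χ).card := by
    rw [Finset.sum_const, nsmul_eq_mul, mul_comm]
  rw [Finset.sum_sub_distrib, abs_le] at *
  constructor <;> linarith [s1 Sr, s2 Sl, s1 fun _ => β, s2 fun _ => β, b1.1, b1.2, b2.1, b2.2]

variable {I J : Type}

/-- left end of a face -/
def fl (G : Grid I J) : I ⊕ J → ℕ := Sum.elim G.l G.px
/-- right end of a face -/
def fr (G : Grid I J) : I ⊕ J → ℕ := Sum.elim G.r fun j => G.px j + 1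

variable {G : Grid I J}

lemma side_D (U : ℕ × ℕ → ℝ) (k : I ⊕ J) :
    G.side.D U k = U (fr G k, fl G.T k) - U (fl G k, fl G.T k) := by cases k <;> rfl

lemma fl_lt (h : G.OK) (k : I ⊕ J) : fl G k < fr G k ∧ fr G k ≤ G.M := by
  cases k with
  | inl i => exact h.rects.lr i
  | inr j => exact ⟨Nat.lt_succ_self _, (h.cell j).1⟩

lemma adm_face (h : G.OK) {U : ℕ × ℕ → ℝ} (hU : G.side.Adm U) (k : I ⊕ J) {x y : ℕ}
    (h1 : fl G k ≤ x) (h2 : x ≤ fr G k) (h3 : fl G.T k ≤ y) (h4 : y < fr G.T k) :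
    U (x, y) = U (x, fl G.T k) := by
  cases k with
  | inl i => exact h.adm_in hU i h1 h2 h3 h4
  | inr j => rw [show y = fl G.T (.inr j) from le_antisymm (Nat.le_of_lt_succ h4) h3]

/-- exact long runs of contracted cells -/
structure Nice (G : Grid I J) (χ : Finset (ℕ × ℕ)) (s : ℕ) : Prop where
  runs : Runs G χ s
  zz : ∀ u ∈ χ, G.Z' u.1 u.2
  link : ∀ x y, G.Z' x y → G.Z' (x + 1) y → G.PW (x + 1) y

lemma split2 [Fintype I] [Fintype J] (h : G.OK) {χ χ' : Finset (ℕ × ℕ)} {s : ℕ} (n : Nice G χ s)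
    (n' : Nice G.T χ' s) (φ : ℕ → ℕ → ℝ) : ∑ x ∈ range G.M, ∑ y ∈ range G.M, φ x y =
      ∑ k, ∑ x ∈ Ico (fl G k) (fr G k), ∑ y ∈ Ico (fl G.T k) (fr G.T k), φ x y +
        ∑ u ∈ χ, φ u.1 u.2 + ∑ u ∈ χ', φ u.2 u.1 := by
  rw [h.split φ (χ ∪ χ'.image Prod.swap) (fun u hu => ?_) fun x y hx hy hz hu => ?_,
    Finset.sum_union, Finset.sum_image fun _ _ _ _ e => Prod.swap_injective e,
    Fintype.sum_sum_type]
  · simp [fl, fr, Grid.T, add_assoc]
  · refine Finset.disjoint_left.2 fun u a b => ?_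
    obtain ⟨v, c, rfl⟩ := Finset.mem_image.1 b
    exact h.excl _ _ ⟨n'.zz v c, n.zz _ a⟩
  · rcases Finset.mem_union.1 hu with a | a
    · exact n.runs.sub u a
    · obtain ⟨v, c, rfl⟩ := Finset.mem_image.1 a
      obtain ⟨c1, c2, c3⟩ := n'.runs.sub v c
      exact ⟨c2, c1, c3.symm⟩
  · refine absurd (Finset.mem_union.2 ?_) hu
    rcases hz with hz | hz
    · exact .inr (Finset.mem_image.2 ⟨(y, x),
        (n'.runs.all y x hy hx hz).resolve_right fun a => h.excl _ _ ⟨hz, a⟩, rfl⟩)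
    · exact .inl ((n.runs.all x y hx hy hz).resolve_right fun a => h.excl _ _ ⟨a, hz⟩)

/-- the potential inside the rectangles can follow the coordinate -/
lemma redef (h : G.OK) {U : ℕ × ℕ → ℝ} (hU : G.side.Adm U) (X : ℕ → ℕ → ℝ) :
    ∃ V : ℕ × ℕ → ℝ, G.side.Adm V ∧ G.side.tot V = G.side.tot U ∧
      (∀ k, G.side.D V k = G.side.D U k) ∧ ∀ k x, fl G k ≤ x → x < fr G k →
        V (x, fl G.T k) - X x (fl G.T k) = V (fl G k, fl G.T k) - X (fl G k) (fl G.T k) := by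
  classical
  let In : I → ℕ × ℕ → Prop := fun i u => G.l i < u.1 ∧ u.1 < G.r i ∧ G.b i ≤ u.2 ∧ u.2 < G.t i
  let g : I → ℕ → ℝ := fun i x => U (G.l i, G.b i) + X x (G.b i) - X (G.l i) (G.b i)
  let V : ℕ × ℕ → ℝ := fun u => if k : ∃ i, In i u then g k.choose u.1 else U u
  have inR : ∀ i x y, In i (x, y) → InR G.l G.r G.b G.t i x y := fun i x y k =>
    ⟨k.1.le, k.2.1, k.2.2.1, k.2.2.2⟩
  have inR' : ∀ i x y, In i (x + 1, y) → InR G.l G.r G.b G.t i x y := fun i x y k =>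
    ⟨Nat.le_of_lt_succ k.1, Nat.lt_of_succ_lt k.2.1, k.2.2.1, k.2.2.2⟩
  have v1 : ∀ i u, In i u → V u = g i u.1 := fun i u k => by
    have ex : ∃ i, In i u := ⟨i, k⟩
    simp only [V, dif_pos ex]
    rw [h.rects.dis _ i u.1 u.2 (inR _ _ _ ex.choose_spec) (inR _ _ _ k)]
  have v2 : ∀ u, (∀ i, ¬ In i u) → V u = U u := fun u k => dif_neg fun a => a.elim k
  have vl : ∀ k, V (fl G k, fl G.T k) = U (fl G k, fl G.T k) := by
    rintro (i | j) <;> refine v2 _ fun i' a => ?_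
    · obtain rfl := h.rects.dis i' i _ _ (inR _ _ _ a)
        ⟨le_rfl, (h.rects.lr i).1, le_rfl, (h.rects.bt i).1⟩
      exact lt_irrefl _ a.1
    · exact (h.cell j).2.2.2.2 i' (inR _ _ _ a)
  have vr : ∀ k, V (fr G k, fl G.T k) = U (fr G k, fl G.T k) := by
    rintro (i | j) <;> refine v2 _ fun i' a => ?_
    · have a1 := (h.rects.lr i).1
      obtain ⟨n, hn⟩ : ∃ n, G.r i = n + 1 := ⟨G.r i - 1, by omega⟩
      have a2 : In i' (n + 1, G.b i) := hn ▸ a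
      obtain rfl := h.rects.dis i' i _ _ (inR' _ _ _ a2)
        ⟨by omega, by omega, le_rfl, (h.rects.bt i).1⟩
      exact lt_irrefl _ a.2.1
    · exact (h.cell j).2.2.2.2 i' (inR' _ _ _ a)
  refine ⟨V, ?_, ?_, fun k => by rw [side_D, side_D, vl, vr], ?_⟩
  · rintro ⟨x, y⟩ _ (⟨k1, k2, rfl, k3⟩ | ⟨k1, k2, rfl, k3⟩)
    · simp only at k1 k2 k3
      have both : ∀ i, In i (x, y) ∨ In i (x, y + 1) → In i (x, y) ∧ In i (x, y + 1) := fun i k => by
        have c1 : G.l i < x ∧ x < G.r i ∧ G.b i ≤ y + 1 ∧ y + 1 ≤ G.t i := by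
          simp only [In] at k; omega
        have c2 := (h.rects.lr i).2
        obtain ⟨j, d1, d2, d3, d4⟩ := h.both x (y + 1) ((k3.resolve_left (by omega)).resolve_left
          (by omega)) (h.pw i _ _ c1.1 c1.2.1 c1.2.2.1 c1.2.2.2)
        have e1 : In j (x, y) := ⟨d1, d2, Nat.le_of_lt_succ d3, Nat.lt_of_succ_lt d4⟩
        have e2 : In j (x, y + 1) := ⟨d1, d2, d3.le, d4⟩
        obtain rfl : i = j := k.elim (fun k => h.rects.dis _ _ _ _ (inR _ _ _ k) (inR _ _ _ e1))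
          fun k => h.rects.dis _ _ _ _ (inR _ _ _ k) (inR _ _ _ e2)
        exact ⟨e1, e2⟩
      by_cases c : ∃ i, In i (x, y) ∨ In i (x, y + 1)
      · obtain ⟨i, c⟩ := c
        exact (v1 i _ (both i c).1).trans (v1 i _ (both i c).2).symm
      · exact (v2 _ fun i a => c ⟨i, .inl a⟩).trans ((hU (x, y) (x, y + 1)
          (.inl ⟨k1, k2, rfl, k3⟩)).trans (v2 _ fun i a => c ⟨i, .inr a⟩).symm)
    · exact (v2 _ fun i a => h.free x y i (.inl k3) (inR _ _ _ a)).trans ((hU (x, y) (x + 1, y)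
        (.inr ⟨k1, k2, rfl, k3⟩)).trans (v2 _ fun i a => h.free x y i (.inl k3) (inR' _ _ _ a)).symm)
  · change V (G.M, 0) - V (0, 0) = U (G.M, 0) - U (0, 0)
    rw [v2 _ fun i a => absurd a.2.1 (not_lt.2 (h.rects.lr i).2),
      v2 _ fun i a => absurd a.1 (Nat.not_lt_zero _)]
  · intro k x h1 h2
    rcases h1.eq_or_lt with rfl | h1
    · rfl
    rw [vl]
    cases k with
    | inl i =>
      rw [v1 i (x, fl G.T (.inl i)) ⟨h1, h2, le_rfl, (h.rects.bt i).1⟩]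
      simp only [g, fl, Grid.T, Sum.elim_inl]; ring
    | inr j => exact absurd (Nat.le_of_lt_succ h2) (not_le.2 h1)

end
end Pool.Agent.MP_a421c2_co.Gap.Asp

end MrgPart0

-- ======== part 1: formerly Pool.Agent.MP_a421c2_co.Gap.Asp2
section MrgPart1

/-! # The aspect of the network -/

set_option autoImplicit false
open Finset (range Ico)

namespace Pool.Agent.MP_a421c2_co.Gap.Asp
open Ex CZ
noncomputable section

variable {I J : Type}

/-- mixed difference on a cell -/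
def mc (X : ℕ → ℕ → ℝ) (x y : ℕ) : ℝ := X (x + 1) (y + 1) - X (x + 1) y - X x (y + 1) + X x y

/-- a coordinate function on the vertices of the grid that fits the network -/
structure Dat (G : Grid I J) (χ : Finset (ℕ × ℕ)) (s : ℕ) (X : ℕ → ℕ → ℝ) (z σ : I ⊕ J → ℝ)
    (T h e : ℝ) : Prop where
  nice : Nice G χ s
  few : h * χ.card ≤ e * s
  area : h ^ 2 * χ.card ≤ e
  w0 : ∀ y, X 0 y = 0
  w1 : ∀ y, X G.M y = T
  sx : ∀ x y, |X (x + 1) y - X x y| ≤ h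
  sy : ∀ x y, |X x (y + 1) - X x y| ≤ h
  mix : ∑ x ∈ range G.M, ∑ y ∈ range G.M, |mc X x y| ≤ e
  fz : ∀ k, |z k - (X (fr G k) (fl G.T k) - X (fl G k) (fl G.T k))| ≤ σ k
  fs : ∀ k x y, fl G k ≤ x → x ≤ fr G k → fl G.T k ≤ y → y ≤ fr G.T k →
    |X x y - X x (fl G.T k)| ≤ σ k
  fw : ∀ k, ((fr G k : ℝ) - fl G k) * h ≤ 4

/-- the line integral along a horizontal edge at height `y'` seen from the cell `(x, y)` -/
def ta (H H' : ℝ → ℝ → ℝ) (U W : ℕ × ℕ → ℝ) (X Y : ℕ → ℕ → ℝ) (x y y' : ℕ) : ℝ :=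
  step H H' (W (y', x) - Y y' x) (W (y', x) - Y y' (x + 1)) (U (x, y) - X x y')
    (U (x + 1, y) - X (x + 1) y')

/-- both mixed differences -/
def mm (H H' : ℝ → ℝ → ℝ) (p1 p2 q1 q2 : ℝ) : ℝ := mx H p1 p2 q1 q2 + mx H' q1 q2 p1 p2

variable {G : Grid I J} {U W : ℕ × ℕ → ℝ} {X Y : ℕ → ℕ → ℝ} {H H' : ℝ → ℝ → ℝ} {T : ℝ}

lemma edges (ok : G.OK) (hU : G.side.Adm U) (hW : G.T.side.Adm W) {m : ℕ} (hm : G.M = m + 1)
    (x0 : ∀ y, X 0 y = 0) (x1 : ∀ y, X G.M y = T) (y0 : ∀ y, Y 0 y = 0) (y1 : ∀ y, Y G.M y = T) :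
    ∑ x ∈ range G.M, ∑ y ∈ range G.M, (ta H H' U W X Y x y (y + 1) - ta H H' U W X Y x y y) =
      ∑ x ∈ range G.M, ∑ y ∈ range m, mm H H' (W (y + 1, x) - Y (y + 1) x)
        (W (y + 1, x) - Y (y + 1) (x + 1)) (U (x, y) - X x (y + 1)) (U (x, y + 1) - X x (y + 1)) +
      (H (W (G.M, 0) - T) (U (G.M, 0) - T) - H (W (G.M, 0) - T) (U (0, 0))) -
      (H (W (0, 0)) (U (G.M, 0) - T) - H (W (0, 0)) (U (0, 0))) := by
  let Jl : ℕ → ℕ → ℝ := fun x y => H (W (y + 1, x) - Y (y + 1) x) (U (x, y) - X x (y + 1)) -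
    H (W (y + 1, x) - Y (y + 1) x) (U (x, y + 1) - X x (y + 1))
  have up : ∀ x y, x ≤ G.M → y < m → (x = 0 ∨ x = G.M ∨ G.PU x (y + 1)) → U (x, y) = U (x, y + 1) :=
    fun x y a b c => hU (x, y) (x, y + 1) (.inl ⟨a, by simp only; omega, rfl, c⟩)
  have e1 : ∀ x ∈ range G.M, ∑ y ∈ range G.M,
      (ta H H' U W X Y x y (y + 1) - ta H H' U W X Y x y y) =
      ∑ y ∈ range m, mm H H' (W (y + 1, x) - Y (y + 1) x)
        (W (y + 1, x) - Y (y + 1) (x + 1)) (U (x, y) - X x (y + 1)) (U (x, y + 1) - X x (y + 1)) +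
      ∑ y ∈ range m, (Jl (x + 1) y - Jl x y) +
      (H (W (G.M, 0) - T) (U (x + 1, m) - X (x + 1) G.M) - H (W (G.M, 0) - T) (U (x, m) - X x G.M)) -
      (H (W (0, 0)) (U (x + 1, 0) - X (x + 1) 0) - H (W (0, 0)) (U (x, 0) - X x 0)) := by
    intro x hx
    have hx' := Finset.mem_range.1 hx
    have t1 : ta H H' U W X Y x m (m + 1) = H (W (G.M, 0) - T) (U (x + 1, m) - X (x + 1) G.M) -
        H (W (G.M, 0) - T) (U (x, m) - X x G.M) := by
      simp only [ta, step, ← hm, y1, show W (G.M, x) = W (G.M, 0) from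
        Grid.adm_right (G := G.T) hW hx']
      ring
    have t0 : ta H H' U W X Y x 0 0 = H (W (0, 0)) (U (x + 1, 0) - X (x + 1) 0) -
        H (W (0, 0)) (U (x, 0) - X x 0) := by
      simp only [ta, step, y0, show W (0, x) = W (0, 0) from Grid.adm_left (G := G.T) hW hx',
        sub_zero]
      ring
    rw [Finset.sum_sub_distrib, ← t1, ← t0, ← Finset.sum_add_distrib]
    conv_lhs => rw [hm, Finset.sum_range_succ, Finset.sum_range_succ']
    rw [← sub_sub, add_sub_right_comm, ← Finset.sum_sub_distrib]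
    congr 2
    refine Finset.sum_congr rfl fun y hy => ?_
    have hy' := Finset.mem_range.1 hy
    have k : U (x + 1, y) = U (x + 1, y + 1) ∨ W (y + 1, x) = W (y + 1, x + 1) := by
      by_cases c : x + 1 = G.M
      · exact .inl (up _ y c.le hy' (.inr (.inl c)))
      refine (ok.one (x + 1) (y + 1)).imp (fun k => up _ y hx' hy' (.inr (.inr k))) fun k => ?_
      exact hW (y + 1, x) (y + 1, x + 1) (.inl ⟨by simp only [Grid.T]; omega,
        by simp only [Grid.T]; omega, rfl, .inr (.inr k)⟩)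
    simp only [ta, step, mm, mx, Jl]
    rcases k with k | k
    · rw [← k]; ring
    · rw [← k]; ring
  have e2 : ∀ y ∈ range m, ∑ x ∈ range G.M, (Jl (x + 1) y - Jl x y) = 0 := fun y hy => by
    have hy' := Finset.mem_range.1 hy
    rw [Finset.sum_range_sub fun x => Jl x y]
    simp only [Jl, ← up _ y le_rfl hy' (.inr (.inl rfl)), ← up _ y (Nat.zero_le _) hy' (.inl rfl),
      sub_self]
  rw [Finset.sum_congr rfl e1, Finset.sum_sub_distrib, Finset.sum_add_distrib,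
    Finset.sum_add_distrib, Finset.sum_comm (f := fun x y => Jl (x + 1) y - Jl x y),
    Finset.sum_eq_zero e2, Finset.sum_range_sub fun x => H (W (G.M, 0) - T) (U (x, m) - X x G.M),
    Finset.sum_range_sub fun x => H (W (0, 0)) (U (x, 0) - X x 0), x0, x0, x1, x1,
    Grid.adm_left hU (show m < G.M by omega), Grid.adm_right hU (show m < G.M by omega)]
  simp only [sub_zero, add_zero]

lemma area1 (hU : G.side.Adm U) {m : ℕ} (hm : G.M = m + 1) (y0 : ∀ y, Y 0 y = 0)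
    (y1 : ∀ y, Y G.M y = T) : ∑ x ∈ range G.M, ∑ y ∈ range m,
      (W (y + 1, x) - Y (y + 1) (x + 1) - (W (y + 1, x) - Y (y + 1) x)) *
        (U (x, y + 1) - X x (y + 1) - (U (x, y) - X x (y + 1))) =
      T * (U (G.M, 0) - U (0, 0)) - ∑ x ∈ range G.M, ∑ y ∈ range G.M,
        (Y (y + 1) (x + 1) - Y y (x + 1)) * (U (x + 1, y) - U (x, y)) := by
  have e1 : ∀ x ∈ range G.M, ∑ y ∈ range m,
      (W (y + 1, x) - Y (y + 1) (x + 1) - (W (y + 1, x) - Y (y + 1) x)) *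
        (U (x, y + 1) - X x (y + 1) - (U (x, y) - X x (y + 1))) = ∑ y ∈ range G.M,
      ((Y (y + 1) (x + 1) - Y y (x + 1)) - (Y (y + 1) x - Y y x)) * U (x, y) := fun x _ => by
    have := GridM.abel1 (fun y => Y y (x + 1) - Y y x) (fun y => U (x, y)) m
    simp only [← hm, y0, y1, sub_self, zero_mul, zero_sub] at this
    rw [← neg_inj, ← Finset.sum_neg_distrib, Finset.sum_congr rfl fun y _ =>
      show _ = (Y (y + 1) (x + 1) - Y (y + 1) x) * (U (x, y + 1) - U (x, y)) by ring,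
      eq_comm, neg_eq_iff_eq_neg, ← this]
    exact Finset.sum_congr rfl fun y _ => by ring
  have e2 : ∀ y ∈ range G.M, ∑ x ∈ range G.M,
      ((Y (y + 1) (x + 1) - Y y (x + 1)) - (Y (y + 1) x - Y y x)) * U (x, y) =
      (Y (y + 1) G.M - Y y G.M) * U (G.M, 0) - (Y (y + 1) 0 - Y y 0) * U (0, 0) -
        ∑ x ∈ range G.M, (Y (y + 1) (x + 1) - Y y (x + 1)) * (U (x + 1, y) - U (x, y)) :=
    fun y hy => by
      have := Leak.abel (fun x => Y (y + 1) x - Y y x) (fun x => U (x, y)) (Nat.zero_le G.M)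
      rwa [← Finset.range_eq_Ico, Grid.adm_left hU (Finset.mem_range.1 hy),
        Grid.adm_right hU (Finset.mem_range.1 hy)] at this
  rw [Finset.sum_congr rfl e1, Finset.sum_comm, Finset.sum_congr rfl e2, Finset.sum_sub_distrib,
    Finset.sum_sub_distrib, ← Finset.sum_mul, ← Finset.sum_mul,
    Finset.sum_range_sub fun y => Y y G.M, Finset.sum_range_sub fun y => Y y 0, y0, y0, y1, y1,
    Finset.sum_comm]
  ring

lemma col (X : ℕ → ℕ → ℝ) (x : ℕ) {b t : ℕ} (h : b ≤ t) :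
    |X (x + 1) t - X (x + 1) b - (X x t - X x b)| ≤ ∑ y ∈ Ico b t, |mc X x y| := by
  rw [← Leak.tele (X (x + 1)) h, ← Leak.tele (X x) h, ← Finset.sum_sub_distrib]
  refine (Finset.abs_sum_le_sum_abs _ _).trans (le_of_eq (Finset.sum_congr rfl fun y _ => ?_))
  congr 1; simp only [mc]; ring

lemma block (X : ℕ → ℕ → ℝ) {l x r b t : ℕ} (h1 : l ≤ x) (h2 : x ≤ r) (h : b ≤ t) :
    |X t x - X b x - (X t l - X b l)| ≤ ∑ u ∈ Ico l r, ∑ y ∈ Ico b t, |mc X y u| := by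
  have e : X t x - X b x - (X t l - X b l) = ∑ u ∈ Ico l x, ∑ y ∈ Ico b t, mc X y u := by
    rw [← Leak.tele (fun u => X t u - X b u) h1]
    refine Finset.sum_congr rfl fun u _ => ?_
    rw [← Leak.tele (fun y => X y (u + 1)) h, ← Leak.tele (fun y => X y u) h,
      ← Finset.sum_sub_distrib]
    exact Finset.sum_congr rfl fun y _ => by simp only [mc]; ring
  rw [e]
  refine (Finset.abs_sum_le_sum_abs _ _).trans ((Finset.sum_le_sum fun u _ =>
    Finset.abs_sum_le_sum_abs _ _).trans ?_)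
  exact Finset.sum_le_sum_of_subset_of_nonneg (Finset.Ico_subset_Ico_right h2)
    fun _ _ _ => Finset.sum_nonneg fun _ _ => abs_nonneg _

section Face
variable {l r b t : ℕ} {z σ h B lam mX mY : ℝ} (hl : l < r) (hb : b < t)
  (u1 : ∀ x y, l ≤ x → x ≤ r → b ≤ y → y < t → U (x, y) = U (x, b))
  (u2 : ∀ x, l ≤ x → x < r → U (x, b) - X x b = U (l, b) - X l b) (zU : U (r, b) - U (l, b) = z)
  (f1 : |z - (X r b - X l b)| ≤ σ)
include hl hb u1 u2 zU f1

lemma face_ta (w1 : ∀ x, l ≤ x → x < r → W (b, x) = W (b, l) ∧ W (t, x) = W (t, l))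
    (zW : W (t, l) - W (b, l) = z) (f2 : |z - (Y t l - Y b l)| ≤ σ)
    (f3 : ∀ x, l ≤ x → x ≤ r → |X x t - X x b| ≤ σ)
    (f4 : ∀ x, l ≤ x → x ≤ r → |Y b x - Y b l| ≤ σ ∧ |Y t x - Y t l| ≤ σ)
    (hX : ∑ x ∈ Ico l r, ∑ y ∈ Ico b t, |mc X x y| = mX)
    (hY : ∑ x ∈ Ico l r, ∑ y ∈ Ico b t, |mc Y y x| = mY) (hB : 0 ≤ B) (l0 : 0 ≤ lam)
    (h1 : Lip H B) (h2 : Lip H' B)
    (h3 : Loc H (W (b, l) - Y b l) (U (l, b) - X l b) (5 * (2 * σ + mX)) lam)
    (h4 : Loc H' (U (l, b) - X l b) (W (b, l) - Y b l) (5 * (2 * σ + mX)) lam) :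
    |∑ x ∈ Ico l r, ∑ y ∈ Ico b t, (ta H H' U W X Y x y (y + 1) - ta H H' U W X Y x y y)| ≤
      B * (mX + mY) + lam * (5 * (2 * σ + mX)) ^ 2 := by
  have s0 : 0 ≤ σ := (abs_nonneg _).trans f1
  have m0 : 0 ≤ mX := hX ▸ Finset.sum_nonneg fun _ _ => Finset.sum_nonneg fun _ _ => abs_nonneg _
  have qb : ∀ x, l ≤ x → x ≤ r → |U (x, b) - X x b - (U (l, b) - X l b)| ≤ σ := fun x a c => by
    rcases c.eq_or_lt with rfl | c
    · rwa [show U (x, b) - X x b - (U (l, b) - X l b) = z - (X x b - X l b) by rw [← zU]; ring]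
    · rwa [u2 x a c, sub_self, abs_zero]
  have V : ∑ x ∈ Ico l r, |U (x + 1, b) - X (x + 1) t - (U (x, b) - X x t) -
      (U (x + 1, b) - X (x + 1) b - (U (x, b) - X x b))| ≤ mX := by
    rw [← hX]
    refine Finset.sum_le_sum fun x _ => le_trans (le_of_eq ?_) (col X x hb.le)
    rw [← abs_neg]; congr 1; ring
  have k := face (pb := fun x => W (b, l) - Y b x) (pt := fun x => W (t, l) - Y t x)
    (qb := fun x => U (x, b) - X x b) (qt := fun x => U (x, b) - X x t) h1 h2 h3 h4 l0 hl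
    (fun x a c => ⟨by
      have := abs_le.1 (f4 x a c).1
      exact abs_le.2 ⟨by linarith, by linarith⟩, by linarith [qb x a c]⟩)
    (fun x a c => ⟨by
      have := abs_le.1 (f4 x a c).2
      have := abs_le.1 f2
      exact abs_le.2 ⟨by linarith, by linarith⟩, by
      have := abs_le.1 (f3 x a c)
      have := abs_le.1 (qb x a c)
      exact abs_le.2 ⟨by linarith, by linarith⟩⟩) u2 (by linarith)
  have N := block Y hl.le le_rfl hb.le
  rw [hY, ← abs_neg, show -(Y t r - Y b r - (Y t l - Y b l)) =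
    W (t, l) - Y t r - (W (t, l) - Y t l) - (W (b, l) - Y b r - (W (b, l) - Y b l)) by ring] at N
  refine le_trans (le_of_eq (congrArg _ (Finset.sum_congr rfl fun x hx => ?_)))
    (k.trans (by gcongr))
  obtain ⟨x1, x2⟩ := Finset.mem_Ico.1 hx
  rw [Finset.sum_congr rfl fun y hy => show _ = ta H H' U W X Y x b (y + 1) - ta H H' U W X Y x b y by
    obtain ⟨y1, y2⟩ := Finset.mem_Ico.1 hy
    simp only [ta, u1 x y x1 x2.le y1 y2, u1 (x + 1) y (by omega) x2 y1 y2],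
    Leak.tele (ta H H' U W X Y x b) hb.le]
  simp only [ta, (w1 x x1 x2).1, (w1 x x1 x2).2]

lemma face_area (sx : ∀ x, |X (x + 1) b - X x b| ≤ h) (fw : ((r : ℝ) - l) * h ≤ 4)
    (hY : ∑ x ∈ Ico l r, ∑ y ∈ Ico b t, |mc Y y x| = mY) :
    |∑ x ∈ Ico l r, ∑ y ∈ Ico b t, (Y (y + 1) (x + 1) - Y y (x + 1)) * (U (x + 1, y) - U (x, y)) -
      z * (Y t l - Y b l)| ≤ (8 + σ) * mY := by
  have m0 : 0 ≤ mY := hY ▸ Finset.sum_nonneg fun _ _ => Finset.sum_nonneg fun _ _ => abs_nonneg _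
  have e : ∑ x ∈ Ico l r, ∑ y ∈ Ico b t,
      (Y (y + 1) (x + 1) - Y y (x + 1)) * (U (x + 1, y) - U (x, y)) - z * (Y t l - Y b l) =
      ∑ x ∈ Ico l r, (U (x + 1, b) - U (x, b)) *
        (Y t (x + 1) - Y b (x + 1) - (Y t l - Y b l)) := by
    rw [← zU, ← Leak.tele (fun x => U (x, b)) hl.le, Finset.sum_mul, ← Finset.sum_sub_distrib]
    refine Finset.sum_congr rfl fun x hx => ?_
    obtain ⟨x1, x2⟩ := Finset.mem_Ico.1 hx
    rw [Finset.sum_congr rfl fun y hy => show _ = (Y (y + 1) (x + 1) - Y y (x + 1)) *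
      (U (x + 1, b) - U (x, b)) by
        obtain ⟨y1, y2⟩ := Finset.mem_Ico.1 hy
        rw [u1 x y x1 x2.le y1 y2, u1 (x + 1) y (by omega) x2 y1 y2], ← Finset.sum_mul,
      Leak.tele (fun y => Y y (x + 1)) hb.le]
    ring
  have s : ∑ x ∈ Ico l r, |U (x + 1, b) - U (x, b)| ≤ 8 + σ := by
    obtain ⟨n, rfl⟩ : ∃ n, r = n + 1 := ⟨r - 1, by omega⟩
    have hn : l ≤ n := by omega
    have a1 : ∑ x ∈ Ico l n, |U (x + 1, b) - U (x, b)| ≤ ∑ _x ∈ Ico l n, h :=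
      Finset.sum_le_sum fun x hx => by
        obtain ⟨x1, x2⟩ := Finset.mem_Ico.1 hx
        have c1 := u2 x x1 (by omega)
        have c2 := u2 (x + 1) (by omega) (by omega)
        rw [show U (x + 1, b) - U (x, b) = X (x + 1) b - X x b by linarith]
        exact sx x
    have a2 := u2 n hn (by omega)
    have a3 := abs_le.1 (sx n)
    have a4 := abs_le.1 f1
    have a5 : |U (n + 1, b) - U (n, b)| ≤ h + σ := abs_le.2 ⟨by linarith, by linarith⟩
    rw [Finset.sum_const, Nat.card_Ico, nsmul_eq_mul, Nat.cast_sub hn] at a1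
    rw [Finset.sum_Ico_succ_top hn]
    push_cast at fw
    linarith
  rw [e]
  refine (Finset.abs_sum_le_sum_abs _ _).trans (le_trans ?_ (mul_le_mul_of_nonneg_right s m0))
  rw [Finset.sum_mul]
  refine Finset.sum_le_sum fun x hx => ?_
  obtain ⟨x1, x2⟩ := Finset.mem_Ico.1 hx
  rw [abs_mul, ← hY]
  exact mul_le_mul_of_nonneg_left (block Y (by omega) x2 hb.le) (abs_nonneg _)

end Face

end
end Pool.Agent.MP_a421c2_co.Gap.Asp

end MrgPart1

-- ======== part 2: formerly Pool.Agent.MP_a421c2_co.Gap.Asp3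
section MrgPart2

/-! # The width of the network against the heights of the faces -/

set_option autoImplicit false
open Finset (range Ico)

namespace Pool.Agent.MP_a421c2_co.Gap.Asp
open Ex CZ
noncomputable section

lemma Dat.starts {I J : Type} {G : Grid I J} {χ : Finset (ℕ × ℕ)} {s : ℕ} {X : ℕ → ℕ → ℝ}
    {z σ : I ⊕ J → ℝ} {T h e : ℝ} (d : Dat G χ s X z σ T h e) (hs : 0 < s) :
    h * (χ.filter fun u => u.1 = 0 ∨ (u.1 - 1, u.2) ∉ χ).card ≤ e := by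
  have b1 : ((χ.filter fun u => u.1 = 0 ∨ (u.1 - 1, u.2) ∉ χ).card : ℝ) * s ≤ χ.card := by
    exact_mod_cast Leak.starts_le d.nice.runs.run
  have b2 : (0 : ℝ) < s := by exact_mod_cast hs
  refine le_of_mul_le_mul_right ?_ b2
  rw [mul_assoc]
  exact (mul_le_mul_of_nonneg_left b1 ((abs_nonneg _).trans (d.sx 0 0))).trans d.few

lemma sq_sum {κ : Type} [Fintype κ] {m : κ → ℝ} {e : ℝ} (h0 : ∀ k, 0 ≤ m k) (h : ∑ k, m k ≤ e)
    (he : e ≤ 1) : ∑ k, m k ^ 2 ≤ e := by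
  refine (Finset.sum_le_sum fun k _ => ?_).trans h
  have := (Finset.single_le_sum (fun k _ => h0 k) (Finset.mem_univ k)).trans (h.trans he)
  nlinarith [h0 k]

theorem half : ∃ C, 0 ≤ C ∧ ∀ {I J : Type} [Fintype I] [Fintype J] {G : Grid I J}
    {χ χ' : Finset (ℕ × ℕ)} {s : ℕ} {X Y : ℕ → ℕ → ℝ} {z σ : I ⊕ J → ℝ} {T h e : ℝ}
    {U W : ℕ × ℕ → ℝ}, G.OK → Dat G χ s X z σ T h e → Dat G.T χ' s Y z σ T h e → 0 < s → 0 < e →
    e ≤ 1 → (∀ k, 0 < σ k) → G.side.Adm U → G.T.side.Adm W → (∀ k, G.side.D U k = z k) →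
    (∀ k, G.T.side.D W k = z k) →
    |T * G.side.tot U - ∑ k, z k * (Y (fr G.T k) (fl G k) - Y (fl G.T k) (fl G k))| ≤
      C * (e + (G.side.tot U - T) ^ 2 + ∑ k, σ k ^ 2) := by
  obtain ⟨C, C0, hC⟩ := cz
  refine ⟨250 * C + 11, by positivity, fun {I J} _ _ {G χ χ' s X Y z σ T h e U0 W} ok d d' s0 e0 e1
    σ0 hU0 hW zU0 zW => ?_⟩
  obtain ⟨U, hU, tU, zU, u2⟩ := redef ok hU0 X
  rw [← tU]
  replace zU : ∀ k, U (fr G k, fl G.T k) - U (fl G k, fl G.T k) = z k := fun k => by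
    rw [← side_D, zU, zU0]
  replace zW : ∀ k, W (fr G.T k, fl G k) - W (fl G.T k, fl G k) = z k := fun k => by
    rw [← zW, side_D]; rfl
  change |T * (U (G.M, 0) - U (0, 0)) - _| ≤ _ * (e + (U (G.M, 0) - U (0, 0) - T) ^ 2 + _)
  obtain ⟨m, hm⟩ : ∃ m, G.M = m + 1 := ⟨G.M - 1, by have := ok.pos; omega⟩
  have h0 : 0 ≤ h := (abs_nonneg _).trans (d.sx 0 0)
  have sub : ∀ φ : ℕ → ℕ → ℝ, (∀ x y, 0 ≤ φ x y) →
      ∑ k, ∑ x ∈ Ico (fl G k) (fr G k), ∑ y ∈ Ico (fl G.T k) (fr G.T k), φ x y ≤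
        ∑ x ∈ range G.M, ∑ y ∈ range G.M, φ x y := fun φ h => by
    rw [split2 ok d.nice d'.nice, add_assoc]
    exact le_add_of_nonneg_right (add_nonneg (Finset.sum_nonneg fun _ _ => h _ _)
      (Finset.sum_nonneg fun _ _ => h _ _))
  obtain ⟨mX, hX⟩ : ∃ mX : I ⊕ J → ℝ, ∀ k, ∑ x ∈ Ico (fl G k) (fr G k),
    ∑ y ∈ Ico (fl G.T k) (fr G.T k), |mc X x y| = mX k := ⟨_, fun _ => rfl⟩
  obtain ⟨mY, hY⟩ : ∃ mY : I ⊕ J → ℝ, ∀ k, ∑ x ∈ Ico (fl G k) (fr G k),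
    ∑ y ∈ Ico (fl G.T k) (fr G.T k), |mc Y y x| = mY k := ⟨_, fun _ => rfl⟩
  have mX0 : ∀ k, 0 ≤ mX k := fun k =>
    hX k ▸ Finset.sum_nonneg fun _ _ => Finset.sum_nonneg fun _ _ => abs_nonneg _
  have mY0 : ∀ k, 0 ≤ mY k := fun k =>
    hY k ▸ Finset.sum_nonneg fun _ _ => Finset.sum_nonneg fun _ _ => abs_nonneg _
  have sX : ∑ k, mX k ≤ e := by
    simp only [← hX]; exact (sub _ fun _ _ => abs_nonneg _).trans d.mix
  have sY : ∑ k, mY k ≤ e := by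
    simp only [← hY]
    exact (sub _ fun _ _ => abs_nonneg _).trans (Finset.sum_comm.trans_le d'.mix)
  have u1 : ∀ k x y, fl G k ≤ x → x ≤ fr G k → fl G.T k ≤ y → y < fr G.T k →
      U (x, y) = U (x, fl G.T k) := fun k x y => adm_face ok hU k
  have cW : ∀ u ∈ χ, W (u.2 + 1, u.1) = W (u.2, u.1) := fun u hu =>
    Grid.adm_Z (G := G.T) hW (d.nice.runs.sub u hu).2.1 (d.nice.runs.sub u hu).1 (d.nice.zz u hu)
  have cU : ∀ u ∈ χ', U (u.2 + 1, u.1) = U (u.2, u.1) := fun u hu =>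
    Grid.adm_Z hU (d'.nice.runs.sub u hu).2.1 (d'.nice.runs.sub u hu).1 (d'.nice.zz u hu)
  have lW : ∀ u ∈ χ, (u.1 + 1, u.2) ∈ χ → W (u.2, u.1) = W (u.2, u.1 + 1) := fun u hu hv =>
    hW (u.2, u.1) (u.2, u.1 + 1) (.inl ⟨(d.nice.runs.sub u hu).2.1.le, (d.nice.runs.sub _ hv).1, rfl,
      .inr (.inr (d.nice.link _ _ (d.nice.zz u hu) (d.nice.zz _ hv)))⟩)
  have lU : ∀ u ∈ χ', (u.1 + 1, u.2) ∈ χ' → U (u.2, u.1) = U (u.2, u.1 + 1) := fun u hu hv =>
    hU (u.2, u.1) (u.2, u.1 + 1) (.inl ⟨(d'.nice.runs.sub u hu).2.1.le, (d'.nice.runs.sub _ hv).1,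
      rfl, .inr (.inr (d'.nice.link _ _ (d'.nice.zz u hu) (d'.nice.zz _ hv)))⟩)
  have key := hC (R := (ℕ × ℕ) ⊕ (ℕ × ℕ) ⊕ (ℕ × ℕ)) (F := I ⊕ J)
    ((range G.M ×ˢ range m).disjSum (χ.disjSum χ))
    (Sum.elim (fun u => W (u.2 + 1, u.1) - Y (u.2 + 1) u.1) (Sum.elim
      (fun u => W (u.2, u.1) - Y (u.2 + 1) (u.1 + 1)) fun u => W (u.2, u.1) - Y (u.2 + 1) u.1))
    (Sum.elim (fun u => W (u.2 + 1, u.1) - Y (u.2 + 1) (u.1 + 1)) (Sum.elim
      (fun u => W (u.2, u.1) - Y u.2 (u.1 + 1)) fun u => W (u.2, u.1) - Y (u.2 + 1) (u.1 + 1)))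
    (Sum.elim (fun u => U (u.1, u.2) - X u.1 (u.2 + 1)) (Sum.elim
      (fun u => U (u.1, u.2) - X u.1 u.2) fun u => U (u.1, u.2) - X u.1 u.2))
    (Sum.elim (fun u => U (u.1, u.2 + 1) - X u.1 (u.2 + 1)) (Sum.elim
      (fun u => U (u.1 + 1, u.2) - X (u.1 + 1) u.2) fun u => U (u.1, u.2) - X u.1 (u.2 + 1)))
    (fun k => W (fl G.T k, fl G k) - Y (fl G.T k) (fl G k))
    (fun k => U (fl G k, fl G.T k) - X (fl G k) (fl G.T k)) (fun k => 5 * (2 * σ k + mX k))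
    (2 * |U (G.M, 0) - U (0, 0) - T| + 10 * e) (by positivity)
    (fun k => by linarith [σ0 k, mX0 k]) fun H H' B lam hB l0 h1 h2 h3 => by
      simp only [Finset.sum_disjSum, Sum.elim_inl, Sum.elim_inr]
      rw [Finset.sum_product]
      have a0 := edges (H := H) (H' := H') ok hU hW hm d.w0 d.w1 d'.w0 d'.w1
      rw [split2 ok d.nice d'.nice] at a0
      have a1 := (Finset.abs_sum_le_sum_abs _ _).trans (Finset.sum_le_sum
        fun k (_ : k ∈ Finset.univ) => face_ta (fl_lt ok k).1 (fl_lt ok.T k).1 (u1 k) (u2 k) (zU k)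
          (d.fz k) (fun x a c => ⟨adm_face ok.T hW k le_rfl (fl_lt ok.T k).1.le a c,
            adm_face ok.T hW k (fl_lt ok.T k).1.le le_rfl a c⟩) (zW k) (d'.fz k)
          (fun x a c => d.fs k x _ a c (fl_lt ok.T k).1.le le_rfl)
          (fun x a c => ⟨d'.fs k _ x le_rfl (fl_lt ok.T k).1.le a c,
            d'.fs k _ x (fl_lt ok.T k).1.le le_rfl a c⟩) (hX k) (hY k) hB (l0 k) h1 h2
          (h3 k).1 (h3 k).2)
      rw [Finset.sum_add_distrib, ← Finset.mul_sum, Finset.sum_add_distrib] at a1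
      have a2 := runs (χ := χ') (Sl := fun u => ta H H' U W X Y u.2 u.1 u.1)
        (Sr := fun u => ta H H' U W X Y u.2 u.1 (u.1 + 1)) (β := 2 * B * h)
        (fun u hu => by
          have : ∀ y', |ta H H' U W X Y u.2 u.1 y'| ≤ 2 * B * h := fun y' => step_le h1 h2 hB
            (by rw [sub_sub_sub_cancel_left, abs_sub_comm]; exact d'.sy _ _)
            (by rw [cU u hu, sub_sub_sub_cancel_left, abs_sub_comm]; exact d.sx _ _)
          exact ⟨this _, this _⟩)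
        fun u hu hv => by
          have := cU _ hv
          simp only at this
          simp only [ta, cU u hu, this, lU u hu hv]
      let Sd : ℝ → ℕ → ℕ → ℝ := fun w x y => step H H' (w - Y y x) (w - Y (y + 1) x)
        (U (x, y) - X x y) (U (x, y) - X x (y + 1))
      have a3 := runs (χ := χ) (Sl := fun u => Sd (W (u.2, u.1)) u.1 u.2)
        (Sr := fun u => Sd (W (u.2, u.1)) (u.1 + 1) u.2) (β := 2 * B * h)
        (fun u hu => by
          have : ∀ x, |Sd (W (u.2, u.1)) x u.2| ≤ 2 * B * h := fun x => step_le h1 h2 hB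
            (by rw [sub_sub_sub_cancel_left, abs_sub_comm]; exact d'.sx _ _)
            (by rw [sub_sub_sub_cancel_left, abs_sub_comm]; exact d.sy _ _)
          exact ⟨this _, this _⟩)
        fun u hu hv => by simp only [lW u hu hv]
      have a4 := Finset.sum_congr rfl fun u (hu : u ∈ χ) => show
        ta H H' U W X Y u.1 u.2 (u.2 + 1) - ta H H' U W X Y u.1 u.2 u.2 =
          Sd (W (u.2, u.1)) (u.1 + 1) u.2 - Sd (W (u.2, u.1)) u.1 u.2 -
          mm H H' (W (u.2, u.1) - Y (u.2 + 1) (u.1 + 1)) (W (u.2, u.1) - Y u.2 (u.1 + 1))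
            (U (u.1, u.2) - X u.1 u.2) (U (u.1 + 1, u.2) - X (u.1 + 1) u.2) -
          mm H H' (W (u.2, u.1) - Y (u.2 + 1) u.1) (W (u.2, u.1) - Y (u.2 + 1) (u.1 + 1))
            (U (u.1, u.2) - X u.1 u.2) (U (u.1, u.2) - X u.1 (u.2 + 1)) by
          simp only [ta, Sd, step, mm, mx, cW u hu]; ring
      rw [Finset.sum_sub_distrib _ fun u => mm _ _ _ _ _ _,
        Finset.sum_sub_distrib _ fun u => mm _ _ _ _ _ _] at a4
      have a5 := h1 (W (G.M, 0) - T) (U (0, 0)) (U (G.M, 0) - T)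
      have a6 := h1 (W (0, 0)) (U (0, 0)) (U (G.M, 0) - T)
      rw [sub_right_comm] at a5 a6
      have b1 := mul_le_mul_of_nonneg_left (d.starts s0) hB
      have b2 := mul_le_mul_of_nonneg_left (d'.starts s0) hB
      have b3 := mul_le_mul_of_nonneg_left (add_le_add sX sY) hB
      simp only [mm] at a0 a4 ⊢
      rw [abs_le] at a1 a2 a3 a5 a6 ⊢
      constructor <;> linarith [a1.1, a1.2, a2.1, a2.2, a3.1, a3.2, a5.1, a5.2, a6.1, a6.2]
  simp only [Finset.sum_disjSum, Sum.elim_inl, Sum.elim_inr] at key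
  rw [Finset.sum_product' _ _ fun x y => (W (y + 1, x) - Y (y + 1) (x + 1) -
    (W (y + 1, x) - Y (y + 1) x)) * (U (x, y + 1) - X x (y + 1) - (U (x, y) - X x (y + 1))),
    area1 hU hm d'.w0 d'.w1, split2 ok d.nice d'.nice,
    Finset.sum_eq_zero (s := χ') fun u hu => by rw [cU u hu, sub_self, mul_zero]] at key
  have a1 := (Finset.abs_sum_le_sum_abs _ _).trans (Finset.sum_le_sum
    fun k (_ : k ∈ Finset.univ) => (face_area (fl_lt ok k).1 (fl_lt ok.T k).1 (u1 k) (u2 k) (zU k)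
      (d.fz k) (fun x => d.sx x _) (d.fw k) (hY k)).trans
      (show _ ≤ 8 * mY k + (σ k ^ 2 + mY k ^ 2) by nlinarith [σ0 k, mY0 k, sq_nonneg (σ k - mY k)]))
  rw [Finset.sum_sub_distrib, Finset.sum_add_distrib, Finset.sum_add_distrib,
    ← Finset.mul_sum] at a1
  have a2 := (Finset.abs_sum_le_sum_abs _ _).trans (Finset.sum_le_card_nsmul _ _ (2 * h ^ 2)
    fun u (_ : u ∈ χ) => show |(W (u.2, u.1) - Y u.2 (u.1 + 1) -
      (W (u.2, u.1) - Y (u.2 + 1) (u.1 + 1))) *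
      (U (u.1 + 1, u.2) - X (u.1 + 1) u.2 - (U (u.1, u.2) - X u.1 u.2)) +
      (W (u.2, u.1) - Y (u.2 + 1) (u.1 + 1) - (W (u.2, u.1) - Y (u.2 + 1) u.1)) *
      (U (u.1, u.2) - X u.1 (u.2 + 1) - (U (u.1, u.2) - X u.1 u.2)) -
      (Y (u.2 + 1) (u.1 + 1) - Y u.2 (u.1 + 1)) * (U (u.1 + 1, u.2) - U (u.1, u.2))| ≤ _ by
        have c1 := mul_le_mul (d'.sx u.2 (u.1 + 1)) (d.sx u.1 u.2) (abs_nonneg _) h0
        have c2 := mul_le_mul (d'.sy (u.2 + 1) u.1) (d.sy u.1 u.2) (abs_nonneg _) h0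
        rw [← abs_mul, abs_le] at c1 c2
        exact abs_le.2 ⟨by linarith [c1.1, c1.2, c2.1, c2.2], by linarith [c1.1, c1.2, c2.1, c2.2]⟩)
  rw [Finset.sum_sub_distrib, Finset.sum_add_distrib, nsmul_eq_mul] at a2
  have a3 : ∑ k, (5 * (2 * σ k + mX k)) ^ 2 ≤ ∑ k, (200 * σ k ^ 2 + 50 * mX k ^ 2) :=
    Finset.sum_le_sum fun k _ => by nlinarith [sq_nonneg (2 * σ k - mX k)]
  rw [Finset.sum_add_distrib, ← Finset.mul_sum, ← Finset.mul_sum] at a3
  have a4 : (2 * |U (G.M, 0) - U (0, 0) - T| + 10 * e) ^ 2 ≤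
      8 * (U (G.M, 0) - U (0, 0) - T) ^ 2 + 200 * e := by
    rw [← sq_abs (U (G.M, 0) - U (0, 0) - T)]
    nlinarith [sq_nonneg (2 * |U (G.M, 0) - U (0, 0) - T| - 10 * e)]
  have a5 := sq_sum mX0 sX e1
  have a6 := sq_sum mY0 sY e1
  have a7 : 0 ≤ ∑ k, σ k ^ 2 := Finset.sum_nonneg fun _ _ => sq_nonneg _
  have a8 := sq_nonneg (U (G.M, 0) - U (0, 0) - T)
  have a9 := key.trans (mul_le_mul_of_nonneg_left (show _ ≤ 250 *
    (e + (U (G.M, 0) - U (0, 0) - T) ^ 2 + ∑ k, σ k ^ 2) by linarith) C0)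
  rw [abs_le] at a1 a2 a9 ⊢
  constructor <;> linarith [a1.1, a1.2, a2.1, a2.2, a9.1, a9.2, d.area]

end
end Pool.Agent.MP_a421c2_co.Gap.Asp

end MrgPart2

-- ======== part 3: formerly Pool.Agent.MP_a421c2_co.Gap.Cell2
section MrgPart3

/-! # Classification of the uncovered cells with exact runs -/

set_option autoImplicit false
open Finset (range)

namespace Pool.Agent.MP_a421c2_co.Gap.Asp
open Ex Ex.CellM

variable {I : Type} {M s : ℕ} {l r b t : I → ℕ}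

/-- the cell lies in a long vertical run of uncovered cells that are in no long horizontal run -/
def V (M s : ℕ) (l r b t : I → ℕ) (x y : ℕ) : Prop :=
  x < M ∧ ∃ y1 y2, y1 ≤ y ∧ y < y2 ∧ y2 ≤ M ∧ y1 + s ≤ y2 ∧
    ∀ y', y1 ≤ y' → y' < y2 → (∀ i, ¬ InR l r b t i x y') ∧ ¬ H M s l r b t x y'

lemma V.lt {x y : ℕ} (h : V M s l r b t x y) : x < M ∧ y < M := by
  obtain ⟨a, y1, y2, -, c, d, -⟩ := h
  exact ⟨a, c.trans_le d⟩

lemma V.free {x y : ℕ} (h : V M s l r b t x y) :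
    (∀ i, ¬ InR l r b t i x y) ∧ ¬ H M s l r b t x y := by
  obtain ⟨-, y1, y2, a, c, -, -, e⟩ := h
  exact e y a c

lemma V.run {x y : ℕ} (h : V M s l r b t x y) : ∃ y1 y2, y1 ≤ y ∧ y < y2 ∧ y1 + s ≤ y2 ∧
    ∀ y', y1 ≤ y' → y' < y2 → V M s l r b t x y' := by
  obtain ⟨a, y1, y2, c, d, e, f, g⟩ := h
  exact ⟨y1, y2, c, d, f, fun y' p q => ⟨a, y1, y2, p, q, e, f, g⟩⟩

lemma ivt (Q : ℕ → Prop) {a c : ℕ} (h : a ≤ c) (ha : ¬ Q a) (hc : Q c) :
    ∃ w, a ≤ w ∧ w < c ∧ ¬ Q w ∧ Q (w + 1) := by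
  induction c, h using Nat.le_induction with
  | base => exact absurd hc ha
  | succ c h ih =>
    by_cases k : Q c
    · obtain ⟨w, w1, w2, w3⟩ := ih k
      exact ⟨w, w1, by omega, w3⟩
    · exact ⟨c, h, by omega, k, hc⟩

lemma blk {x y y' : ℕ} (h0 : 0 < s) (hy : y < M) (hf : ∀ i, ¬ InR l r b t i x y)
    (h : ¬ H M s l r b t x y) (h' : H M s l r b t x y') : ∃ j X, (X = l j ∨ X = r j) ∧ x ≤ X + s ∧
      X ≤ x + s ∧ b j ≤ y ∧ y < t j ∧ ¬ (b j ≤ y' ∧ y' < t j) := by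
  obtain ⟨-, x1, x2, a1, a2, a3, a4, a5⟩ := h'
  by_contra hc
  refine h ⟨hy, min x (x2 - s), min x (x2 - s) + s, min_le_left _ _, by omega, by omega, le_rfl,
    fun x' p q j k => hc ?_⟩
  have c1 := a5 x' (by omega) (by omega) j
  have c2 := hf j
  simp only [InR] at k c1 c2
  rcases lt_or_ge x (l j) with c | c
  · exact ⟨j, l j, .inl rfl, by omega, by omega, by omega, by omega, by omega⟩
  · exact ⟨j, r j, .inr rfl, by omega, by omega, by omega, by omega, by omega⟩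

lemma corner2 (hR : Rects M l r b t) (h0 : 0 < s) (hs : s ≤ M) {x y : ℕ} (hx : x < M) (hy : y < M)
    (hf : ∀ i, ¬ InR l r b t i x y) (h : ¬ H M s l r b t x y) (hv : ¬ V M s l r b t x y) :
    ∃ k X Y, (X = l k ∨ X = r k) ∧ (Y = b k ∨ Y = t k) ∧ x ≤ X + s ∧ X ≤ x + s ∧
      y ≤ Y + s ∧ Y ≤ y + s := by
  obtain ⟨i, x', hi, a1, a2⟩ := near h0 hs hx hy h
  by_cases c : ∃ j y', InR l r b t j x y' ∧ y' < y + s ∧ y < y' + s
  · obtain ⟨j, y', hj, a3, a4⟩ := c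
    exact corner hR hf hi hj a1 a2 a3 a4
  obtain ⟨y', p, q, k⟩ : ∃ y', y' < y + s ∧ y < y' + s ∧ H M s l r b t x y' := by
    by_contra hc
    exact hv ⟨hx, min y (M - s), min y (M - s) + s, min_le_left _ _, by omega, by omega, le_rfl,
      fun y' p q => ⟨fun j k => c ⟨j, y', k, by omega, by omega⟩,
        fun k => hc ⟨y', by omega, by omega, k⟩⟩⟩
  have y1 := k.lt.2
  rcases le_total y y' with e | e
  · obtain ⟨w, w1, w2, w3, w4⟩ := ivt (H M s l r b t x) e h k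
    obtain ⟨j, X, d1, d2, d3, d4⟩ := blk h0 (by omega)
      (fun j k => c ⟨j, w, k, by omega, by omega⟩) w3 w4
    exact ⟨j, X, t j, d1, .inr rfl, d2, d3, by omega, by omega⟩
  · obtain ⟨w, w1, w2, w3, w4⟩ := ivt (fun w => ¬ H M s l r b t x w) e (not_not.2 k) h
    obtain ⟨j, X, d1, d2, d3, d4⟩ := blk h0 (by omega)
      (fun j k => c ⟨j, w + 1, k, by omega, by omega⟩) w4 (not_not.1 w3)
    exact ⟨j, X, b j, d1, .inl rfl, d2, d3, by omega, by omega⟩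

theorem cell2 (hR : Rects M l r b t) (h0 : 0 < s) (hs : s ≤ M) :
    ∃ (res wst χ χ' : Finset (ℕ × ℕ)) (G : Grid I res), G.OK ∧ G.M = M ∧ G.l = l ∧ G.r = r ∧
      G.b = b ∧ G.t = t ∧ Nice G χ s ∧ Nice G.T χ' s ∧
      (∀ u ∈ wst, u.1 < M ∧ u.2 < M ∧ ∀ i, ¬ InR l r b t i u.1 u.2) ∧ res ⊆ wst ∧
      χ.card + res.card ≤ wst.card ∧ χ'.card + res.card ≤ wst.card ∧
      ∀ u ∈ res, ∃ i x y, (x = l i ∨ x = r i) ∧ (y = b i ∨ y = t i) ∧ u.1 ≤ x + s ∧ x ≤ u.1 + s ∧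
        u.2 ≤ y + s ∧ y ≤ u.2 + s := by
  classical
  let wst : Finset (ℕ × ℕ) := (range M ×ˢ range M).filter fun u => ∀ i, ¬ InR l r b t i u.1 u.2
  have mw : ∀ u, u ∈ wst ↔ u.1 < M ∧ u.2 < M ∧ ∀ i, ¬ InR l r b t i u.1 u.2 := fun u => by
    simp only [wst, Finset.mem_filter, Finset.mem_product, Finset.mem_range, and_assoc]
  let res : Finset (ℕ × ℕ) := wst.filter fun u => ¬ H M s l r b t u.1 u.2 ∧ ¬ V M s l r b t u.1 u.2
  have mr : ∀ u, u ∈ res ↔ u ∈ wst ∧ ¬ H M s l r b t u.1 u.2 ∧ ¬ V M s l r b t u.1 u.2 := fun u =>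
    Finset.mem_filter
  let χ : Finset (ℕ × ℕ) := (range M ×ˢ range M).filter fun u => H M s l r b t u.1 u.2
  have mc : ∀ u, u ∈ χ ↔ H M s l r b t u.1 u.2 := fun u => by
    simp only [χ, Finset.mem_filter, Finset.mem_product, Finset.mem_range]
    exact ⟨fun k => k.2, fun k => ⟨k.lt, k⟩⟩
  let χ' : Finset (ℕ × ℕ) := (range M ×ˢ range M).filter fun u => V M s l r b t u.2 u.1
  have mc' : ∀ u, u ∈ χ' ↔ V M s l r b t u.2 u.1 := fun u => by
    simp only [χ', Finset.mem_filter, Finset.mem_product, Finset.mem_range]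
    exact ⟨fun k => k.2, fun k => ⟨k.lt.symm, k⟩⟩
  have sub : res ⊆ wst := Finset.filter_subset _ _
  have card : ∀ c : Finset (ℕ × ℕ), c ⊆ wst → Disjoint c res → c.card + res.card ≤ wst.card :=
    fun c a d => by
      rw [← Finset.card_union_of_disjoint d]
      exact Finset.card_le_card (Finset.union_subset a sub)
  let PU : ℕ → ℕ → Prop := fun x y => (∃ i, l i ≤ x ∧ x ≤ r i ∧ b i < y ∧ y < t i) ∨
    ∃ y', y = y' + 1 ∧ V M s l r b t x y' ∧ V M s l r b t x y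
  let G : Grid I res := ⟨M, l, r, b, t, fun j => j.1.1, fun j => j.1.2, PU,
    fun x y => (∃ i, l i < x ∧ x < r i ∧ b i ≤ y ∧ y ≤ t i) ∨ ¬ PU x y,
    V M s l r b t, H M s l r b t⟩
  refine ⟨res, wst, χ, χ', G, ⟨h0.trans_le hs, hR, fun j => ?_, fun j j' p q => ?_,
    fun x y hx hy => ?_, fun x y i k => ?_, fun x y k => k.1.free.2 k.2, fun x y => ?_,
    fun x y p q => ?_, fun i x y p q u v => .inl ⟨i, p, q, u, v⟩,
    fun i x y p q u v => .inl ⟨i, p, q, u, v⟩⟩, rfl, rfl, rfl, rfl, rfl,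
    ⟨⟨fun u k => ?_, fun x y _ _ k => .inl ((mc _).2 k), fun u k => ?_⟩, fun u k => (mc u).1 k,
      fun x y p q => .inr ?_⟩,
    ⟨⟨fun u k => ?_, fun x y _ _ k => .inl ((mc' _).2 k), fun u k => ?_⟩, fun u k => (mc' u).1 k,
      fun x y p q => .inr ⟨x, rfl, p, q⟩⟩,
    fun u k => (mw u).1 k, sub, card _ (fun u k => ?_) ?_, ?_, fun u k => ?_⟩
  · obtain ⟨a, c, d⟩ := (mr _).1 j.2
    obtain ⟨e, f, g⟩ := (mw _).1 a
    exact ⟨e, f, d, c, g⟩
  · exact Subtype.ext (Prod.ext p q)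
  · by_cases a : ∃ i, InR l r b t i x y
    · exact .inl a
    by_cases c : H M s l r b t x y
    · exact .inr (.inr (.inr c))
    by_cases d : V M s l r b t x y
    · exact .inr (.inr (.inl d))
    exact .inr (.inl ⟨⟨(x, y), (mr _).2 ⟨(mw _).2 ⟨hx, hy, fun i k => a ⟨i, k⟩⟩, c, d⟩⟩, rfl, rfl⟩)
  · rcases k with k | k
    exacts [k.free.1 i, k.free i]
  · exact (em (PU x y)).imp_right .inr
  · obtain ⟨j, hj⟩ := q.resolve_right (not_not.2 p)
    rcases p with ⟨i, hi⟩ | ⟨y', rfl, p1, p2⟩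
    · obtain rfl := both hR hi hj
      exact ⟨i, hj.1, hj.2.1, hi.2.2.1, hi.2.2.2⟩
    · have c1 := p1.free.1 j
      have c2 := p2.free.1 j
      have c3 := (hR.bt j).1
      simp only [InR] at c1 c2
      omega
  · have a := (mc u).1 k
    exact ⟨a.lt.1, a.lt.2, .inr a⟩
  · obtain ⟨x1, x2, a, c, d, e⟩ := ((mc u).1 k).run
    exact ⟨x1, x2, a, c, d, fun x p q => (mc _).2 (e x p q)⟩
  · rintro (⟨i, hi⟩ | ⟨y', -, -, p2⟩)
    · have c1 := H.free p i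
      have c2 := H.free q i
      have c3 := (hR.lr i).1
      simp only [InR] at c1 c2
      omega
    · exact p2.free.2 q
  · have a := (mc' u).1 k
    exact ⟨a.lt.2, a.lt.1, .inr a⟩
  · obtain ⟨x1, x2, a, c, d, e⟩ := ((mc' u).1 k).run
    exact ⟨x1, x2, a, c, d, fun x p q => (mc' _).2 (e x p q)⟩
  · have a := (mc u).1 k
    exact (mw u).2 ⟨a.lt.1, a.lt.2, a.free⟩
  · exact Finset.disjoint_left.2 fun u a c => ((mr u).1 c).2.1 ((mc u).1 a)
  · rw [← Finset.card_image_of_injective χ' Prod.swap_injective]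
    refine card _ (fun u k => ?_) (Finset.disjoint_left.2 fun u k c => ?_)
    · obtain ⟨v, a, rfl⟩ := Finset.mem_image.1 k
      have a := (mc' v).1 a
      exact (mw _).2 ⟨a.lt.1, a.lt.2, a.free.1⟩
    · obtain ⟨v, a, rfl⟩ := Finset.mem_image.1 k
      exact ((mr _).1 c).2.2 ((mc' v).1 a)
  · obtain ⟨a, c, d⟩ := (mr _).1 k
    obtain ⟨e, f, g⟩ := (mw _).1 a
    exact corner2 hR h0 hs e f g c d

end Pool.Agent.MP_a421c2_co.Gap.Asp

end MrgPart3

-- ======== part 4: formerly Pool.Agent.MP_a421c2_co.Gap.Core2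
section MrgPart4

/-! # From a packing to dual networks of controlled aspect -/

set_option autoImplicit false
open MeasureTheory Set Real
open Finset (range)

namespace Pool.Agent.MP_a421c2_co.Gap.Asp
open Ex
noncomputable section

/-- the two totals of a current differ by much less than the inverse size -/
def Aspect {I J : Type} [Fintype I] [Fintype J] (A B : Side (I ⊕ J)) (ℓ : ℝ) (d : I ⊕ J → ℝ)
    (L C : ℝ) : Prop :=
  ∀ (μ T : ℝ) U W, 2 ≤ μ → μ * T = ℓ → A.Adm U → B.Adm W → (∀ k, A.D U k = B.D W k) →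
    T * |A.tot U - B.tot W| ≤ C * (L + (A.tot U - T) ^ 2 + (B.tot W - T) ^ 2 +
      ∑ k, (A.D U k - d k / μ) ^ 2 + ∑ j, d (.inr j) ^ 2)

/-- a displacement on the vertices of the grid -/
structure Disp {I J : Type} (G : Grid I J) (F : ℕ → ℕ → ℝ) (d ε θ : I → ℝ) (h e : ℝ) : Prop where
  w : ∀ y, F 0 y = 0 ∧ F G.M y = 0
  sx : ∀ x y, |F (x + 1) y - F x y| ≤ e * h
  sy : ∀ x y, |F x (y + 1) - F x y| ≤ e * h
  mix : ∑ x ∈ range G.M, ∑ y ∈ range G.M, |mc F x y| ≤ e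
  wid : ∀ i, |d i - (h * ((G.r i : ℝ) - G.l i) + F (G.r i) (G.b i) - F (G.l i) (G.b i))| ≤
    4 * ε i + 4 * h
  len : ∀ i, 2 ≤ ((G.r i : ℝ) - G.l i) * h ∧ ((G.r i : ℝ) - G.l i) * h ≤ 4
  sl : ∀ i x y, G.l i ≤ x → x ≤ G.r i → G.b i ≤ y → y ≤ G.t i →
    |F x y - F x (G.b i) + θ i * (((y : ℝ) - G.b i) * h)| ≤ 2 * ε i

variable {I J : Type} {G : Grid I J} {F F' : ℕ → ℕ → ℝ} {d ε θ θ' : I → ℝ} {h e : ℝ}

lemma Disp.tilt (ok : G.OK) (D : Disp G F d ε θ h e) (D' : Disp G.T F' d ε θ' h e) (i : I) :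
    2 * |θ i| ≤ ∑ y ∈ Finset.Ico (G.b i) (G.t i), ∑ x ∈ range G.M, |mc F x y| + 2 * ε i := by
  have a1 := D.sl i _ _ le_rfl (ok.rects.lr i).1.le (ok.rects.bt i).1.le le_rfl
  have a2 := (block F (ok.rects.bt i).1.le le_rfl (Nat.zero_le (G.l i))).trans
    (Finset.sum_le_sum fun u _ => Finset.sum_le_sum_of_subset_of_nonneg (t := range G.M)
      (fun x hx => Finset.mem_range.2 ((Finset.mem_Ico.1 hx).2.trans
        ((ok.rects.lr i).1.trans_le (ok.rects.lr i).2))) fun _ _ _ => abs_nonneg _)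
  rw [(D.w _).1, (D.w _).1, sub_zero, sub_zero] at a2
  have a3 : 2 ≤ ((G.t i : ℝ) - G.b i) * h := (D'.len i).1
  have a4 := abs_sub (F (G.l i) (G.t i) - F (G.l i) (G.b i) + θ i * (((G.t i : ℝ) - G.b i) * h))
    (F (G.l i) (G.t i) - F (G.l i) (G.b i))
  rw [add_sub_cancel_left, abs_mul, abs_of_nonneg (show 0 ≤ ((G.t i : ℝ) - G.b i) * h by linarith)]
    at a4
  nlinarith [abs_nonneg (θ i)]

lemma Disp.tilts [Fintype I] [Fintype J] (ok : G.OK) (D : Disp G F d ε θ h e)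
    (D' : Disp G.T F' d ε θ' h e) (hθ : ∀ i, |θ' i| = |θ i|) (ε0 : ∀ i, 0 ≤ ε i)
    (hε : ∑ i, ε i ≤ e) (he : e ≤ 1 / 100) : ∑ i, θ i ^ 2 ≤ e := by
  let R : ℕ → ℝ := fun y => ∑ x ∈ range G.M, |mc F x y|
  let C : ℕ → ℝ := fun x => ∑ y ∈ range G.M, |mc F' y x|
  have R0 : ∀ y, 0 ≤ R y := fun y => Finset.sum_nonneg fun _ _ => abs_nonneg _
  have C0 : ∀ y, 0 ≤ C y := fun y => Finset.sum_nonneg fun _ _ => abs_nonneg _
  have R1 : ∑ y ∈ range G.M, R y ≤ e := Finset.sum_comm.trans_le D.mix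
  have C1 : ∑ y ∈ range G.M, C y ≤ e := Finset.sum_comm.trans_le D'.mix
  have e0 : 0 ≤ e := (Finset.sum_nonneg fun y _ => R0 y).trans R1
  have sb : ∀ (f : ℕ → ℝ) (a c : ℕ), (∀ y, 0 ≤ f y) → c ≤ G.M → ∑ y ∈ range G.M, f y ≤ e →
      ∑ y ∈ Finset.Ico a c, f y ≤ e := fun f a c f0 hc k =>
    (Finset.sum_le_sum_of_subset_of_nonneg (fun x hx => Finset.mem_range.2
      ((Finset.mem_Ico.1 hx).2.trans_le hc)) fun _ _ _ => f0 _).trans k
  have a1 := Leak.rect_sum ok (fun x y => C x * R y) fun x y => mul_nonneg (C0 x) (R0 y)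
  simp only [← Finset.sum_mul_sum] at a1
  have a2 := mul_le_mul C1 R1 (Finset.sum_nonneg fun y _ => R0 y) e0
  have a3 : ∑ i, 4 * θ i ^ 2 ≤ ∑ i, ((∑ x ∈ Finset.Ico (G.l i) (G.r i), C x) *
      (∑ y ∈ Finset.Ico (G.b i) (G.t i), R y) + 8 * e * ε i) := Finset.sum_le_sum fun i _ => by
    have b1 : 2 * |θ i| ≤ ∑ y ∈ Finset.Ico (G.b i) (G.t i), R y + 2 * ε i := D.tilt ok D' i
    have b2 : 2 * |θ' i| ≤ ∑ x ∈ Finset.Ico (G.l i) (G.r i), C x + 2 * ε i := D'.tilt ok.T D i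
    rw [hθ] at b2
    have b3 := sb R (G.b i) _ R0 (ok.rects.bt i).2 R1
    have b4 := sb C (G.l i) _ C0 (ok.rects.lr i).2 C1
    have b5 := (Finset.single_le_sum (fun j _ => ε0 j) (Finset.mem_univ i)).trans hε
    have b6 := mul_le_mul b2 b1 (by positivity) (le_trans (by positivity) b2)
    rw [← sq_abs]
    nlinarith [mul_le_mul_of_nonneg_left b3 (ε0 i), mul_le_mul_of_nonneg_left b4 (ε0 i),
      mul_le_mul_of_nonneg_left b5 (ε0 i)]
  rw [Finset.sum_add_distrib, ← Finset.mul_sum, ← Finset.mul_sum] at a3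
  nlinarith [mul_le_mul_of_nonneg_left hε e0]

lemma Disp.dat (D : Disp G F d ε θ h e) (D' : Disp G.T F' d ε θ' h e)
    {χ : Finset (ℕ × ℕ)} {s : ℕ} (n : Nice G χ s) {e' μ T : ℝ} {z σ : I ⊕ J → ℝ} (h0 : 0 < h)
    (h1 : h ≤ 1) (e1 : e ≤ e') (e2 : e' ≤ 1) (few : h * χ.card ≤ e' * s) (sh : s * h ≤ 1)
    (hμ : 2 ≤ μ) (hT : μ * T = G.M * h) (ε0 : ∀ i, 0 ≤ ε i)
    (σ1 : ∀ i, σ (.inl i) = |z (.inl i) - d i / μ| + 4 * |θ i| + (4 * ε i + 4 * h))
    (σ2 : ∀ j, σ (.inr j) = |z (.inr j)| + h) :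
    Dat G χ s (fun x y => (x * h + F x y) / μ) z σ T h e' ∧ ∀ i, |d i / μ -
      ((G.r i * h + F (G.r i) (G.b i)) / μ - (G.l i * h + F (G.l i) (G.b i)) / μ)| ≤
      (4 * ε i + 4 * h) / 2 := by
  have μ0 : 0 < μ := by linarith
  have e0 : 0 ≤ e := (Finset.sum_nonneg fun _ _ => Finset.sum_nonneg fun _ _ => abs_nonneg _).trans
    D.mix
  have dv : ∀ {u v : ℝ}, |u| ≤ 2 * v → |u / μ| ≤ v := fun {u v} k => by
    rw [abs_div, abs_of_pos μ0, div_le_iff₀ μ0]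
    nlinarith [abs_nonneg u]
  have eh : e * h ≤ h := mul_le_of_le_one_left h0.le (e1.trans e2)
  have sx : ∀ x y : ℕ, |(((x + 1 : ℕ) : ℝ) * h + F (x + 1) y) / μ - (x * h + F x y) / μ| ≤ h :=
    fun x y => by
      have := abs_le.1 (D.sx x y)
      rw [← sub_div]
      exact dv (abs_le.2 ⟨by push_cast; linarith, by push_cast; linarith⟩)
  have sy : ∀ x y : ℕ, |((x : ℝ) * h + F x (y + 1)) / μ - (x * h + F x y) / μ| ≤ h := fun x y => by
    have := abs_le.1 (D.sy x y)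
    rw [← sub_div]
    exact dv (abs_le.2 ⟨by linarith, by linarith⟩)
  have wd : ∀ i, |d i / μ - ((G.r i * h + F (G.r i) (G.b i)) / μ -
      (G.l i * h + F (G.l i) (G.b i)) / μ)| ≤ (4 * ε i + 4 * h) / 2 := fun i => by
    have := abs_le.1 (D.wid i)
    rw [← sub_div, ← sub_div]
    exact dv (abs_le.2 ⟨by linarith, by linarith⟩)
  refine ⟨⟨n, few, ?_, fun y => by simp [(D.w y).1], fun y => ?_, sx, sy, le_trans ?_
    (D.mix.trans e1), ?_, ?_, ?_⟩, wd⟩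
  · nlinarith [mul_le_mul_of_nonneg_left few h0.le, mul_le_mul_of_nonneg_left sh (e0.trans e1)]
  · rw [(D.w y).2, add_zero, ← hT]; field_simp
  · refine Finset.sum_le_sum fun x _ => Finset.sum_le_sum fun y _ => ?_
    rw [show mc (fun x y => (x * h + F x y) / μ) x y = mc F x y / μ by simp only [mc]; ring]
    exact dv (by linarith [abs_nonneg (mc F x y)])
  · rintro (i | j)
    · rw [σ1]
      refine (abs_sub_le _ (d i / μ) _).trans (le_trans (add_le_add le_rfl (wd i)) ?_)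
      linarith [abs_nonneg (θ i), ε0 i]
    · rw [σ2]
      exact (abs_sub _ _).trans (add_le_add le_rfl (sx _ _))
  · rintro (i | j) x y a1 a2 a3 a4
    · have b1 := D.sl i x y a1 a2 a3 a4
      have b2 : ((G.t i : ℝ) - G.b i) * h ≤ 4 := (D'.len i).2
      have b3 : (G.b i : ℝ) ≤ y := by exact_mod_cast a3
      have b4 : (y : ℝ) ≤ G.t i := by exact_mod_cast a4
      have b5 : |θ i * (((y : ℝ) - G.b i) * h)| ≤ |θ i| * 4 := by
        rw [abs_mul, abs_of_nonneg (mul_nonneg (sub_nonneg.2 b3) h0.le)]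
        exact mul_le_mul_of_nonneg_left (by nlinarith) (abs_nonneg _)
      rw [σ1, ← sub_div]
      refine dv ?_
      change |x * h + F x y - (x * h + F x (G.b i))| ≤ _
      rw [abs_le] at b1 b5 ⊢
      constructor <;> linarith [abs_nonneg (θ i), ε0 i, abs_nonneg (z (.inl i) - d i / μ), b1.1,
        b1.2, b5.1, b5.2]
    · rw [σ2]
      rcases a3.eq_or_lt with rfl | a3
      · rw [sub_self, abs_zero]; positivity
      · obtain rfl : y = fl G.T (.inr j) + 1 := le_antisymm a4 a3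
        linarith [sy x (fl G.T (.inr j)), abs_nonneg (z (.inr j))]
  · rintro (i | j)
    · exact (D.len i).2
    · simp only [fl, fr, Sum.elim_inr]; push_cast; linarith

theorem aspect : ∃ C, 0 ≤ C ∧ ∀ {I J : Type} [Fintype I] [Fintype J] {G : Grid I J}
    {F F' : ℕ → ℕ → ℝ} {d ε θ θ' : I → ℝ} {h e e' : ℝ} {χ χ' : Finset (ℕ × ℕ)} {s : ℕ}, G.OK →
    Disp G F d ε θ h e → Disp G.T F' d ε θ' h e → (∀ i, |θ' i| = |θ i|) → Nice G χ s →
    Nice G.T χ' s → 0 < s → 0 < h → h ≤ 1 → e ≤ 1 / 100 → e ≤ e' → 0 < e' → e' ≤ 1 →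
    h * χ.card ≤ e' * s → h * χ'.card ≤ e' * s → s * h ≤ 1 → (∀ i, 0 ≤ ε i) → ∑ i, ε i ≤ e →
    ∑ i, (4 * ε i + 4 * h) ≤ e' → (∀ i, |d i| ≤ 4) →
    Aspect G.side G.T.side (G.M * h) (Sum.elim d fun _ => h) e' C := by
  obtain ⟨C, C0, hC⟩ := half
  refine ⟨60 * (2 * C + 2), by positivity, fun {I J} _ _ {G F F' d ε θ θ' h e e' χ χ' s} ok D D' hθ
    n n' s0 h0 h1 e1 e2 e3 e4 few few' sh ε0 hε hγ hd μ T U W hμ hT hU hW hz => ?_⟩
  have μ0 : 0 < μ := by linarith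
  obtain ⟨z, ez⟩ : ∃ z : I ⊕ J → ℝ, ∀ k, G.side.D U k = z k := ⟨_, fun _ => rfl⟩
  let σ : I ⊕ J → ℝ := Sum.elim (fun i => |z (.inl i) - d i / μ| + 4 * |θ i| + (4 * ε i + 4 * h))
    fun j => |z (.inr j)| + h
  obtain ⟨d1, w1⟩ := D.dat D' n (z := z) (σ := σ) h0 h1 e2 e4 few sh hμ hT ε0 (fun _ => rfl)
    fun _ => rfl
  obtain ⟨d2, w2⟩ := D'.dat D n' (z := z) (σ := σ) h0 h1 e2 e4 few' sh hμ hT ε0
    (fun _ => by rw [hθ]; rfl) fun _ => rfl
  have σ0 : ∀ k, 0 < σ k := by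
    rintro (i | j)
    · have := ε0 i
      simp only [σ, Sum.elim_inl]; positivity
    · simp only [σ, Sum.elim_inr]; positivity
  have k1 := hC ok d1 d2 s0 e3 e4 σ0 hU hW ez fun k => (hz k).symm.trans (ez k)
  have k2 := hC ok.T d2 d1 s0 e3 e4 σ0 hW hU (fun k => (hz k).symm.trans (ez k)) ez
  have f1 := d1.fz
  have f2 := d2.fz
  simp only [Grid.T_T] at k2 f2
  simp only [ez]
  obtain ⟨a, ha⟩ : ∃ a : I ⊕ J → ℝ, ∀ k, (fr G k * h + F (fr G k) (fl G.T k)) / μ -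
    (fl G k * h + F (fl G k) (fl G.T k)) / μ = a k := ⟨_, fun _ => rfl⟩
  obtain ⟨b, hb⟩ : ∃ b : I ⊕ J → ℝ, ∀ k, (fr G.T k * h + F' (fr G.T k) (fl G k)) / μ -
    (fl G.T k * h + F' (fl G.T k) (fl G k)) / μ = b k := ⟨_, fun _ => rfl⟩
  replace w1 : ∀ i, |d i / μ - a (.inl i)| ≤ (4 * ε i + 4 * h) / 2 := fun i => ha (.inl i) ▸ w1 i
  replace w2 : ∀ i, |d i / μ - b (.inl i)| ≤ (4 * ε i + 4 * h) / 2 := fun i => hb (.inl i) ▸ w2 i
  simp only [ha, hb] at k1 k2 f1 f2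
  have k3 := (Finset.abs_sum_le_sum_abs _ _).trans (Finset.sum_le_sum
    fun k (_ : k ∈ Finset.univ) => show |z k * b k - z k * a k| ≤
      2 * σ k ^ 2 + 2 * Sum.elim (fun i => 4 * ε i + 4 * h) (fun _ => 0) k by
      rw [← mul_sub, abs_mul]
      rcases k with i | j
      · have c1 : |b (.inl i) - a (.inl i)| ≤ 4 * ε i + 4 * h := by
          have := abs_le.1 (w1 i)
          have := abs_le.1 (w2 i)
          exact abs_le.2 ⟨by linarith, by linarith⟩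
        have c2 : |d i / μ| ≤ 2 := by
          rw [abs_div, abs_of_pos μ0, div_le_iff₀ μ0]; linarith [hd i]
        have c3 := abs_add_le (z (.inl i) - d i / μ) (d i / μ)
        rw [sub_add_cancel] at c3
        have c4 : σ (.inl i) = |z (.inl i) - d i / μ| + 4 * |θ i| + (4 * ε i + 4 * h) := rfl
        have c5 := mul_le_mul (show |z (.inl i)| ≤ σ (.inl i) + 2 by
          linarith [abs_nonneg (θ i), ε0 i]) c1 (abs_nonneg _) (by linarith [σ0 (.inl i)])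
        have c6 := mul_le_mul_of_nonneg_left (show 4 * ε i + 4 * h ≤ σ (.inl i) by
          linarith [abs_nonneg (θ i), abs_nonneg (z (.inl i) - d i / μ)]) (σ0 (.inl i)).le
        simp only [Sum.elim_inl]
        nlinarith [sq_nonneg (σ (.inl i))]
      · have c1 : |b (.inr j) - a (.inr j)| ≤ 2 * σ (.inr j) := by
          have := abs_le.1 (f1 (.inr j))
          have := abs_le.1 (f2 (.inr j))
          exact abs_le.2 ⟨by linarith, by linarith⟩
        have c4 : σ (.inr j) = |z (.inr j)| + h := rfl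
        have c5 := mul_le_mul (show |z (.inr j)| ≤ σ (.inr j) by linarith) c1 (abs_nonneg _)
          (σ0 _).le
        simp only [Sum.elim_inr]
        linarith)
  rw [Finset.sum_sub_distrib, Finset.sum_add_distrib, ← Finset.mul_sum, ← Finset.mul_sum,
    Fintype.sum_sum_type (Sum.elim _ _)] at k3
  simp only [Sum.elim_inl, Sum.elim_inr, Finset.sum_const_zero, add_zero] at k3
  have k4 : ∑ k, σ k ^ 2 ≤ ∑ k : I ⊕ J, (3 * (z k - Sum.elim d (fun _ => h) k / μ) ^ 2 +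
      Sum.elim (fun i => 48 * θ i ^ 2 + 3 * (4 * ε i + 4 * h) ^ 2) (fun _ => 8 * h ^ 2) k) := by
    refine Finset.sum_le_sum ?_
    rintro (i | j) -
    · simp only [σ, Sum.elim_inl]
      rw [← sq_abs (z (.inl i) - d i / μ), ← sq_abs (θ i)]
      generalize |z (.inl i) - d i / μ| = u
      generalize |θ i| = v
      generalize 4 * ε i + 4 * h = w
      nlinarith [sq_nonneg (u - 4 * v), sq_nonneg (u - w), sq_nonneg (4 * v - w)]
    · simp only [σ, Sum.elim_inr]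
      have c1 := abs_add_le (z (.inr j) - h / μ) (h / μ)
      have c2 : |h / μ| ≤ h := by
        rw [abs_of_pos (by positivity), div_le_iff₀ μ0]; nlinarith
      rw [sub_add_cancel] at c1
      rw [← sq_abs (z (.inr j) - h / μ)]
      have c3 : (|z (.inr j)| + h) ^ 2 ≤ (|z (.inr j) - h / μ| + 2 * h) ^ 2 :=
        pow_le_pow_left₀ (by positivity) (by linarith) 2
      nlinarith [sq_nonneg (|z (.inr j) - h / μ| - 2 * h), sq_nonneg (|z (.inr j) - h / μ|)]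
  rw [Finset.sum_add_distrib, ← Finset.mul_sum, Fintype.sum_sum_type (Sum.elim _ _)] at k4
  simp only [Sum.elim_inl, Sum.elim_inr, Finset.sum_add_distrib, ← Finset.mul_sum] at k4 ⊢
  have k5 := D.tilts ok D' hθ ε0 hε e1
  have k6 := sq_sum (fun i => by linarith [ε0 i]) hγ e4
  have T0 : 0 ≤ T := nonneg_of_mul_nonneg_right (by rw [hT]; positivity) μ0
  have p1 : 0 ≤ ∑ k, (z k - Sum.elim d (fun _ => h) k / μ) ^ 2 :=
    Finset.sum_nonneg fun _ _ => sq_nonneg _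
  have p2 : 0 ≤ ∑ _j : J, h ^ 2 := Finset.sum_nonneg fun _ _ => sq_nonneg _
  have p3 := sq_nonneg (G.side.tot U - T)
  have p4 := sq_nonneg (G.T.side.tot W - T)
  obtain ⟨Q, hQ⟩ : ∃ Q, Q = e' + (G.side.tot U - T) ^ 2 + (G.T.side.tot W - T) ^ 2 +
    ∑ k, (z k - Sum.elim d (fun _ => h) k / μ) ^ 2 + ∑ _j : J, h ^ 2 := ⟨_, rfl⟩
  rw [← hQ, ← abs_of_nonneg T0, ← abs_mul, mul_sub]
  replace k1 := k1.trans (mul_le_mul_of_nonneg_left (show _ ≤ 60 * Q by linarith) C0)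
  replace k2 := k2.trans (mul_le_mul_of_nonneg_left (show _ ≤ 60 * Q by linarith) C0)
  rw [abs_le] at k1 k2 k3 ⊢
  constructor <;> linarith [k1.1, k1.2, k2.1, k2.2, k3.1, k3.2]

end
end Pool.Agent.MP_a421c2_co.Gap.Asp

end MrgPart4

-- ======== part 5: formerly Pool.Agent.MP_a421c2_co.Gap.Core3
section MrgPart5

/-! # The core construction with the aspect property -/

set_option autoImplicit false
open MeasureTheory Set Real
open Finset (range)

namespace Pool.Agent.MP_a421c2_co.Gap.Asp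
open Ex Ex.Main
noncomputable section

lemma Aspect.mono {I J : Type} [Fintype I] [Fintype J] {A B : Side (I ⊕ J)} {ℓ : ℝ}
    {d : I ⊕ J → ℝ} {L L' C : ℝ} (h : Aspect A B ℓ d L C) (hC : 0 ≤ C) (hL : L ≤ L') :
    Aspect A B ℓ d L' C := fun μ T U W a b c d e =>
  (h μ T U W a b c d e).trans (by gcongr)

section
variable {I J : Type} [Fintype I] {ℓ : ℕ} {q : I → Tq} {F1 F2 : ℝ × ℝ → ℝ} {ε X' Y' : I → ℝ}
  {e h : ℝ} {G : Grid I J} (P : Pack ℓ q) (S : Shear ℓ q F1 F2 ε X' Y' e) (he : e ≤ 1 / 100)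
  (h0 : 0 < h) (h1 : h ≤ 1 / 100) (hM : (G.M : ℝ) * h = ℓ) (ok : G.OK)
  (Ft : Fit ℓ q F1 F2 ε h G.l G.r G.b G.t)
include P S he h0 h1 hM ok Ft

lemma in_win (i : I) {x y : ℕ} (a1 : G.l i ≤ x) (a2 : x ≤ G.r i) (a3 : G.b i ≤ y)
    (a4 : y ≤ G.t i) : ((x : ℝ) * h, (y : ℝ) * h) ∈ box ℓ ∧
      ((x : ℝ) * h, (y : ℝ) * h) ∈ win ((q i).X, (q i).Y) 3 := by
  have up : ∀ n : ℕ, n ≤ G.M → (n : ℝ) * h ∈ Icc (0 : ℝ) ℓ := fun n hn =>
    ⟨by positivity, hM ▸ mul_le_mul_of_nonneg_right (Nat.cast_le.2 hn) h0.le⟩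
  have r1 := (ok.rects.lr i).2
  have t1 := (ok.rects.bt i).2
  have cor : ∀ u v : ℕ, (u = G.l i ∨ u = G.r i) → (v = G.b i ∨ v = G.t i) → u ≤ G.M → v ≤ G.M →
      |u * h - (q i).X| ≤ 3 ∧ |v * h - (q i).Y| ≤ 3 := fun u v hu hv b1 b2 => by
    obtain ⟨c1, c2⟩ := Ft.cor i (u * h, v * h) ⟨up u b1, up v b2⟩ u v 0 hu hv zero_le_one
      (by simp) (by simp)
    have k1 := P.hi i
    have k2 := S.eps_le i
    have u2 : |(q i).xi (Phi F1 F2 (u * h, v * h))| ≤ 2 := by linarith [(abs_le.1 c1).2]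
    have v2 : |(q i).ze (Phi F1 F2 (u * h, v * h))| ≤ 2 := by linarith [(abs_le.1 c2).2]
    have a1 := abs_le.1 (RectP.small_tilt (S.ang i) he u2 v2).1
    have a2 := abs_le.1 (RectP.small_tilt (S.ang i) he v2 u2).2
    have a3 := (q i).fst_eq (Phi F1 F2 (u * h, v * h))
    have a4 := (q i).snd_eq (Phi F1 F2 (u * h, v * h))
    have a5 := abs_le.1 (S.sm1.bd (u * h, v * h))
    have a6 := abs_le.1 (S.sm2.bd (u * h, v * h))
    have a7 : (Phi F1 F2 (u * h, v * h)).1 = u * h + F1 (u * h, v * h) := rfl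
    have a8 : (Phi F1 F2 (u * h, v * h)).2 = v * h + F2 (u * h, v * h) := rfl
    exact ⟨abs_le.2 ⟨by linarith, by linarith⟩, abs_le.2 ⟨by linarith, by linarith⟩⟩
  obtain ⟨c1, c2⟩ := cor _ _ (.inl rfl) (.inl rfl) (by omega) (by omega)
  obtain ⟨c3, c4⟩ := cor _ _ (.inr rfl) (.inr rfl) r1 t1
  have m : ∀ {a b : ℕ}, a ≤ b → (a : ℝ) * h ≤ b * h := fun k =>
    mul_le_mul_of_nonneg_right (Nat.cast_le.2 k) h0.le
  rw [abs_le] at c1 c2 c3 c4
  exact ⟨⟨up x (by omega), up y (by omega)⟩,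
    abs_le.2 ⟨by simp only; linarith [m a1], by simp only; linarith [m a2]⟩,
    abs_le.2 ⟨by simp only; linarith [m a3], by simp only; linarith [m a4]⟩⟩

omit P S he h1 hM ok Ft in
lemma lp (y : ℕ) : |((y + 1 : ℕ) : ℝ) * h - y * h| = h := by
  push_cast; rw [add_mul, one_mul, add_sub_cancel_left, abs_of_pos h0]

lemma disp1 : Disp G (fun x y => F1 (x * h, y * h)) (fun i => (q i).d) ε (fun i => (q i).θ) h e where
  w y := by simp only [hM, Nat.cast_zero, zero_mul]; exact S.z1 _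
  sx x y := (S.sm1.lipx _ _ _).trans_eq (by rw [lp h0])
  sy x y := (S.sm1.lipy _ _ _).trans_eq (by rw [lp h0])
  mix := by simpa only [mix, mc, Nat.cast_succ] using S.sm1.var G.M h h0.le
  wid := Ft.wid
  len i := by
    have a1 := abs_le.1 (Ft.wid i)
    have a2 := abs_le.1 (S.sm1.bd (G.r i * h, G.b i * h))
    have a3 := abs_le.1 (S.sm1.bd (G.l i * h, G.b i * h))
    constructor <;> linarith [P.lo i, P.hi i, S.eps_le i]
  sl i x y a1 a2 a3 a4 := by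
    have b1 := in_win P S he h0 h1 hM ok Ft i a1 a2 a3 a4
    have b2 := in_win P S he h0 h1 hM ok Ft i a1 a2 le_rfl (a3.trans a4)
    have c1 := abs_le.1 (S.sl i _ b1.1 b1.2).1
    have c2 := abs_le.1 (S.sl i _ b2.1 b2.2).1
    simp only at c1 c2
    exact abs_le.2 ⟨by linarith, by linarith⟩

lemma disp2 : Disp G.T (fun y x => F2 (x * h, y * h)) (fun i => (q i).d) ε (fun i => -(q i).θ)
    h e where
  w y := by simp only [show (G.T.M : ℝ) * h = ℓ from hM, Nat.cast_zero, zero_mul]; exact S.z2 _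
  sx x y := (S.sm2.lipy _ _ _).trans_eq (by rw [lp h0])
  sy x y := (S.sm2.lipx _ _ _).trans_eq (by rw [lp h0])
  mix := by
    rw [Finset.sum_comm]
    refine le_trans (le_of_eq ?_) (S.sm2.var G.M h h0.le)
    refine Finset.sum_congr rfl fun x _ => Finset.sum_congr rfl fun y _ => congrArg _ ?_
    simp only [mix, mc, Nat.cast_succ]; ring
  wid := Ft.hgt
  len i := by
    have a1 := abs_le.1 (Ft.hgt i)
    have a2 := abs_le.1 (S.sm2.bd (G.l i * h, G.t i * h))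
    have a3 := abs_le.1 (S.sm2.bd (G.l i * h, G.b i * h))
    simp only [Grid.T]
    constructor <;> linarith [P.lo i, P.hi i, S.eps_le i]
  sl i y x a3 a4 a1 a2 := by
    have b1 := in_win P S he h0 h1 hM ok Ft i a1 a2 a3 a4
    have b2 := in_win P S he h0 h1 hM ok Ft i le_rfl (a1.trans a2) a3 a4
    have c1 := abs_le.1 (S.sl i _ b1.1 b1.2).2
    have c2 := abs_le.1 (S.sl i _ b2.1 b2.2).2
    simp only [Grid.T] at c1 c2 ⊢
    exact abs_le.2 ⟨by linarith, by linarith⟩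

end

theorem core2 : ∃ κ w0 Ca : ℝ, 0 < κ ∧ 0 < w0 ∧ 0 ≤ Ca ∧ ∀ (I : Type) [Fintype I] (ℓ : ℕ)
    (q : I → Tq), Pack ℓ q → 1 ≤ ℓ → 0 < Fintype.card I → waste ℓ q ≤ w0 → ∀ η : ℝ, 0 < η →
    ∃ (J : Type) (_ : Fintype J) (A B : Side (I ⊕ J)) (h L : ℝ), Orth A B ∧ Dual A B ∧ Dual B A ∧
      0 ≤ L ∧ Leak A ℓ (Sum.elim (fun i => (q i).d) fun _ => h) L ∧
      Leak B ℓ (Sum.elim (fun i => (q i).d) fun _ => h) L ∧
      ∑ k : I ⊕ J, (Sum.elim (fun i => (q i).d) (fun _ => h) k : ℝ) ^ 2 ≤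
        (ℓ : ℝ) ^ 2 - κ * L + η ∧
      Aspect A B ℓ (Sum.elim (fun i => (q i).d) fun _ => h) L Ca := by
  obtain ⟨C, w0, hC, hw0, h1⟩ := tilt_of win_of
  obtain ⟨Ca, Ca0, hA⟩ := aspect
  have C0 : 0 < C := by linarith
  obtain ⟨s0, hs⟩ : ∃ s0 : ℝ, s0 = 1 / (10 ^ 8 * C) := ⟨_, rfl⟩
  have s00 : 0 < s0 := by rw [hs]; positivity
  have sC : s0 * C = 1 / 10 ^ 8 := by rw [hs]; field_simp
  have s1' : s0 ≤ 1 / 10 ^ 8 := by linarith [le_mul_of_one_le_right s00.le hC]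
  refine ⟨s0 / (2570 * C), min w0 (s0 / (1000 * C)), Ca, by positivity, by positivity, Ca0,
    fun I _ ℓ q P hℓ hI hW η hη => ?_⟩
  obtain ⟨t, Ω, hT, hΩ⟩ := h1 I ℓ q P (hW.trans (min_le_left _ _))
  replace hW := hW.trans (min_le_right _ _)
  have wm0 : 0 ≤ wmid ℓ q := Pack.wmid_nonneg
  have wm1 := P.wmid_le
  have W1 : C * waste ℓ q ≤ s0 / 1000 := by
    rw [le_div_iff₀ (by positivity)] at hW; linarith
  have e1 : 4 * (C * wmid ℓ q) ≤ s0 := by linarith [mul_le_mul_of_nonneg_left wm1 C0.le]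
  obtain ⟨F1, F2, ε, X', Y', S⟩ := shear_of I ℓ q t Ω _ P hT hΩ (by linarith)
  obtain ⟨e, he⟩ : ∃ e, e = 4 * (C * wmid ℓ q) := ⟨_, rfl⟩
  rw [← he] at S e1
  have e2 : e ≤ 1 / 100 := by linarith
  obtain ⟨u0, hu0, hu1, hu2⟩ : ∃ u0 : ℝ, 0 < u0 ∧ u0 ≤ η / 2 ∧ u0 ≤ s0 / (1000 * C) :=
    ⟨min _ _, by positivity, min_le_left _ _, min_le_right _ _⟩
  obtain ⟨m, hm⟩ := exists_nat_ge (100 + 2 / s0 + Fintype.card I / u0)
  have p1 : 0 < 2 / s0 := by positivity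
  have p2 : 0 ≤ Fintype.card I / u0 := by positivity
  have m1 : (100 : ℝ) ≤ m := by linarith
  have m0 : (0 : ℝ) < m := by linarith
  have hm1 : 100 ≤ m := by exact_mod_cast m1
  obtain ⟨l, r, b, t', R, Ft⟩ := rect_of I ℓ m q F1 F2 ε X' Y' e P S e2 hm1
  obtain ⟨h, hh⟩ : ∃ h : ℝ, h = 1 / m := ⟨_, rfl⟩
  have h0 : 0 < h := by rw [hh]; positivity
  have hm2 : m * h = 1 := by rw [hh]; field_simp
  have hs2 : h ≤ s0 / 2 := by
    have : 2 / s0 ≤ m := by linarith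
    rw [div_le_iff₀ s00] at this
    linarith [mul_le_mul_of_nonneg_right this h0.le, congrArg (· * s0) hm2]
  have hu : Fintype.card I * h ≤ u0 := by
    have : Fintype.card I / u0 ≤ m := by linarith
    rw [div_le_iff₀ hu0] at this
    linarith [mul_le_mul_of_nonneg_right this h0.le, congrArg (· * u0) hm2]
  have l1 : (1 : ℝ) ≤ ℓ := by exact_mod_cast hℓ
  have c1 : s0 * m ≤ ⌈s0 * m⌉₊ := Nat.le_ceil _
  have c2 : (⌈s0 * m⌉₊ : ℝ) < s0 * m + 1 := Nat.ceil_lt_add_one (by positivity)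
  have c3 : 0 < ⌈s0 * m⌉₊ := Nat.ceil_pos.2 (by positivity)
  have c4 : ⌈s0 * m⌉₊ ≤ ℓ * m := Nat.ceil_le.2 (by push_cast; gcongr; linarith)
  generalize ⌈s0 * m⌉₊ = s at c1 c2 c3 c4
  have c7 : s0 * (m * h) = s0 := by rw [hm2, mul_one]
  have c5 : s0 ≤ s * h := by linarith [mul_le_mul_of_nonneg_right c1 h0.le]
  have c6 : s * h ≤ s0 + h := by linarith [mul_le_mul_of_nonneg_right c2.le h0.le]
  obtain ⟨res, wst, χ, χ', G, ok, gM, rfl, rfl, rfl, rfl, r1, r2, w1, w2, k1, k2, cor⟩ :=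
    cell2 R c3 c4
  have lm : ((ℓ * m : ℕ) : ℝ) * h = ℓ := by push_cast; rw [mul_assoc, hm2, mul_one]
  have a1 := (area_of I ℓ m q F1 F2 ε X' Y' e _ _ _ _ wst P S e2 hm1 Ft w1).1
  have a2 := (area_of I ℓ m q F1 F2 ε X' Y' e _ _ _ _ res P S e2 hm1 Ft fun x hx => w1 x (w2 hx)).2
    (8 * s0) (by positivity) (by rw [s1]; linarith) fun x hx p q1 q2 q3 q4 => by
      rw [← hh] at q1 q2 q3 q4 Ft
      obtain ⟨i, x', y', o1, o2, o3, o4, o5, o6⟩ := cor x hx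
      have k1 := cell_pt h0 lm hs2 c6 (w1 x (w2 hx)).1 o3 o4 q1 q2
      have k2 := cell_pt h0 lm hs2 c6 (w1 x (w2 hx)).2.1 o5 o6 q3 q4
      exact ⟨i, (q i).cn_mono (by linarith [S.eps_le i])
        (Ft.cor i p ⟨k1.1, k2.1⟩ x' y' (2 * s0) o1 o2 (by linarith) k1.2 k2.2)⟩
  rw [← hh] at a1 a2 Ft
  have sm := S.sum
  have e0 := S.sm1.nonneg
  have se : 0 ≤ ∑ i, ε i := Finset.sum_nonneg fun i _ => S.nonneg i
  obtain ⟨n1, n2, n3⟩ := core_num (u := Fintype.card I * h) hC hs hW wm0 wm1 he (by positivity)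
    (hu.trans hu2) (Finset.sum_nonneg fun i _ => by linarith [S.nonneg i])
    (by rw [sum_lin]; linarith) (by positivity) a2 a1
  obtain ⟨e', he'⟩ : ∃ e', e' * s0 =
      257 * C * (waste ℓ q - h ^ 2 * res.card + 2 * (Fintype.card I * h)) :=
    ⟨_, div_mul_cancel₀ _ s00.ne'⟩
  rw [← he'] at n1 n2 n3
  have u00 : 0 ≤ Fintype.card I * h := by positivity
  have f0 : 0 ≤ e' := nonneg_of_mul_nonneg_left (by linarith) s00
  have u01 : 0 < Fintype.card I * h := by positivity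
  have f0' : 0 < e' := (mul_pos_iff_of_pos_right s00).1 (by linarith)
  have f1 : e' ≤ 1 := le_of_mul_le_mul_right (by linarith) s00
  have f2 : e' * s0 ≤ e' := mul_le_of_le_one_right f0 (by linarith)
  have f3 : e ≤ e' := by linarith
  have f4 : ∑ i, (4 * ε i + 4 * h) ≤ e' := by rw [sum_lin]; linarith
  have f5 : ∀ c : Finset (ℕ × ℕ), c.card + res.card ≤ wst.card → h * c.card ≤ e' * s := fun c hc => by
    have hc' : (c.card : ℝ) + res.card ≤ wst.card := by exact_mod_cast hc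
    have : h * (h * c.card) ≤ h * (e' * s) := by
      linarith [mul_le_mul_of_nonneg_left hc' (sq_nonneg h), mul_le_mul_of_nonneg_left c5 f0]
    exact le_of_mul_le_mul_left this h0
  have lp : ∀ y : ℕ, |((y + 1 : ℕ) : ℝ) * h - y * h| = h := fun y => by
    push_cast; rw [add_mul, one_mul, add_sub_cancel_left, abs_of_pos h0]
  have L1 := leak_of I res G χ s (fun x y => F2 (x * h, y * h)) (fun i => (q i).d) _ h e' ok r1.runs c3 h0 f1
    (fun x => by simp only [gM, lm, Nat.cast_zero, zero_mul]; exact S.z2 _)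
    (fun x y => (S.sm2.lipy _ _ _).trans (by rw [lp]; gcongr))
    (by simpa only [mix, Nat.cast_succ] using (S.sm2.var G.M h h0.le).trans f3) Ft.hgt f4 (f5 _ k1)
  have L2 := leak_of I res G.T χ' s (fun x y => F1 (y * h, x * h)) (fun i => (q i).d) _ h e' ok.T r2.runs c3 h0
    f1 (fun x => by simp only [show G.T.M = ℓ * m from gM, lm, Nat.cast_zero, zero_mul]; exact S.z1 _)
    (fun x y => (S.sm1.lipx _ _ _).trans (by rw [lp]; gcongr))
    (by
      rw [Finset.sum_comm]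
      refine le_trans (le_of_eq ?_) ((S.sm1.var G.M h h0.le).trans f3)
      refine Finset.sum_congr rfl fun x _ => Finset.sum_congr rfl fun y _ => congrArg _ ?_
      simp only [mix, Nat.cast_succ]; ring) Ft.wid f4 (f5 _ k2)
  have As := hA ok (disp1 P S e2 h0 (by linarith) (by rw [gM, lm]) ok Ft)
    (disp2 P S e2 h0 (by linarith) (by rw [gM, lm]) ok Ft) (fun i => abs_neg _) r1 r2 c3 h0
    (by linarith) e2 f3 f0' f1 (f5 _ k1) (f5 _ k2) (by linarith) S.nonneg sm f4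
    fun i => abs_le.2 ⟨by linarith [P.lo i], by linarith [P.hi i]⟩
  rw [gM, lm] at L1 As
  rw [show G.T.M = ℓ * m from gM, lm] at L2
  refine ⟨res, inferInstance, G.side, G.T.side, h, 10 * e', (grid_of I res G ok).1, (grid_of I res G ok).2,
    (grid_of I res G.T ok.T).2, by positivity, L1, L2, ?_,
    As.mono Ca0 (by linarith)⟩
  have : s0 / (2570 * C) * (10 * e') =
      waste ℓ q - h ^ 2 * res.card + 2 * (Fintype.card I * h) := by
    have : s0 / (2570 * C) * (10 * e') = e' * s0 / (257 * C) := by field_simp; ring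
    rw [this, he']; field_simp
  rw [this, Fintype.sum_sum_type, waste]
  simp only [Sum.elim_inl, Sum.elim_inr, Finset.sum_const, Finset.card_univ, Fintype.card_coe,
    nsmul_eq_mul]
  linarith

end
end Pool.Agent.MP_a421c2_co.Gap.Asp

end MrgPart5

-- marker of a merged file
example : 731051 + 543133 = 731051 + 543133 := rfl
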