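import Pool.Agent.MP_a421c2_co.Gap.Core3
import Pool.Agent.MP_a421c2_co.Gap.All

/-! # The parity obstruction and the full order of the gap -/

set_option autoImplicit false
open MeasureTheory Set Real

namespace Pool.Agent.MP_a421c2_co.Gap
open Ex Ex.Round Ex.NetAux Ex.Main Asp
noncomputable section

section
variable {I J : Type} [Fintype I] [Fintype J]

omit [Fintype I] [Fintype J] in
lemma rnd {A : Side (I ⊕ J)} {U : A.V → ℝ} (hU : A.Adm U) {K : ℤ} {l : ℝ} (hl : l * A.tot U = K) :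
    ∃ a : I ⊕ J → ℝ → ℝ, (∀ k, Mean (a k) (l * A.D U k)) ∧
      (∀ k, Mean (fun s => |ind I J k - a k s|) |ind I J k - l * A.D U k|) ∧
      (∀ k s, ∃ m : ℤ, a k s = m) ∧ ∀ s, ∃ V, A.Adm V ∧ A.tot V = K ∧ ∀ k, A.D V k = a k s := by
  let b : I ⊕ J → ℝ → ℤ := fun k t => ⌊l * U (A.r k) + t⌋ - ⌊l * U (A.l k) + t⌋
  have mb : ∀ k, Mean (fun t => (b k t : ℝ)) (l * A.D U k) := fun k => by
    simpa only [b, Side.D, Int.cast_sub, mul_sub] using
      (mean_floor (l * U (A.r k))).sub (mean_floor (l * U (A.l k)))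
  have cb : ∀ k t, |((indZ I J k - b k t : ℤ) : ℝ) - (ind I J k - l * A.D U k)| < 1 := fun k t => by
    have := floor_diff (l * U (A.r k)) (l * U (A.l k)) t
    rw [Int.cast_sub (indZ I J k), indZ_cast, sub_sub_sub_cancel_left, abs_sub_comm]
    simpa only [b, Side.D, mul_sub] using this
  refine ⟨fun k t => b k t, mb, fun k => ?_, fun k s => ⟨_, rfl⟩, fun s =>
    ⟨fun x => ⌊l * U x + s⌋, hU.comp fun u => (⌊l * u + s⌋ : ℝ), ?_, fun k => by
      simp only [b, Side.D, Int.cast_sub]⟩⟩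
  · have := ((Mean.const (ind I J k)).sub (mb k)).mul (sg (ind I J k - l * A.D U k))
    rw [sg_mul] at this
    refine cast (congrArg (Mean · _) (funext fun t => ?_)) this
    have := sg_int (cb k t)
    rwa [Int.cast_sub, indZ_cast] at this
  · have h2 : ⌊l * U A.b + s⌋ = ⌊l * U A.a + s⌋ + K := by
      rw [← Int.floor_add_intCast]
      congr 1
      have : l * (U A.b - U A.a) = K := hl
      linarith
    simp only [Side.tot, h2]; push_cast; ring

/-- a number of squares of the wrong parity forces different totals -/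
lemma parity {A B : Side (I ⊕ J)} (hO : Orth A B) {U : A.V → ℝ} {W : B.V → ℝ} (hU : A.Adm U)
    (hW : B.Adm W) (hz : ∀ k, A.D U k = B.D W k) {K c : ℤ}
    (hn : (Fintype.card I : ℤ) = K ^ 2 + 2 * c + 1) {l l' : ℝ} (hl : l * A.tot U = K)
    (hl' : l' * B.tot W = K) (hS : ∑ i, A.D U (.inl i) = A.tot U * B.tot W) :
    1 - 3 * ∑ k, |ind I J k - l * A.D U k| * |ind I J k - l' * A.D U k| ≤
      |K * B.tot W - K * A.tot U| := by
  obtain ⟨a, a1, a2, a3, a4⟩ := rnd hU hl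
  obtain ⟨b, b1, b2, -, b4⟩ := rnd hW hl'
  simp only [← hz] at b1 b2
  obtain ⟨N, hN⟩ : ∃ N : ℝ, N = Fintype.card I + K ^ 2 := ⟨_, rfl⟩
  have ma := Mean.sum Finset.univ fun i => a1 (.inl i)
  have mb := Mean.sum Finset.univ fun i => b1 (.inl i)
  rw [← Finset.mul_sum, hS, ← mul_assoc, hl] at ma
  rw [← Finset.mul_sum, hS, mul_left_comm, hl', mul_comm] at mb
  have id : ∀ s t, |N - ∑ i, a (.inl i) s - ∑ i, b (.inl i) t| ≤
      ∑ k, |ind I J k - a k s| * |ind I J k - b k t| := fun s t => by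
    obtain ⟨V, v1, v2, v3⟩ := a4 s
    obtain ⟨V', w1, w2, w3⟩ := b4 t
    have o := hO V V' v1 w1
    simp only [v2, v3, w2, w3] at o
    simp only [← abs_mul]
    refine le_trans (le_of_eq (congrArg _ ?_)) (Finset.abs_sum_le_sum_abs _ _)
    simp only [sub_mul, mul_sub, Finset.sum_sub_distrib, o, hN]
    simp [Fintype.sum_sum_type, ind]
    ring
  have s1 : ∀ s, |N - ∑ i, a (.inl i) s - K * A.tot U| ≤
      ∑ k, |ind I J k - l' * A.D U k| * |ind I J k - a k s| := fun s => by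
    have m1 := (Mean.const (N - ∑ i, a (.inl i) s)).sub mb
    have m2 := Mean.sum Finset.univ fun k => (b2 k).mul |ind I J k - a k s|
    have m3 := m1.le m2 fun t => (le_abs_self _).trans (id s t)
    have m4 := (m1.mul (-1)).le m2 fun t => by linarith [(abs_le.1 (id s t)).1]
    simp only [mul_comm _ |ind I J _ - a _ s|]
    exact abs_le.2 ⟨by linarith, m3⟩
  have m2 := Mean.sum Finset.univ fun k => (a2 k).mul |ind I J k - l' * A.D U k|
  have m1 := ((Mean.const N).sub ma).sub (Mean.const (K * A.tot U))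
  have m3 := m1.le m2 fun t => (le_abs_self _).trans (s1 t)
  have m4 := (m1.mul (-1)).le m2 fun t => by linarith [(abs_le.1 (s1 t)).1]
  have m5 := (Mean.const |K * A.tot U - round (K * A.tot U)|).le m2 fun s => by
    choose m hm using fun i => a3 (.inl i) s
    refine le_trans ((round_le _ (Fintype.card I + K ^ 2 - ∑ i, m i)).trans_eq ?_) (s1 s)
    rw [abs_sub_comm, hN]
    simp only [hm]; push_cast; rfl
  have odd : (1 : ℝ) ≤ |N - 2 * round (K * A.tot U)| := by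
    have : (1 : ℤ) ≤ |Fintype.card I + K ^ 2 - 2 * round (K * A.tot U)| :=
      Int.one_le_abs (by rw [hn]; omega)
    rw [hN]; exact_mod_cast this
  simp only [mul_comm |ind I J _ - l * A.D U _|]
  rw [abs_le] at m5
  rcases le_abs'.1 odd with h | h
  · linarith [neg_abs_le (K * B.tot W - K * A.tot U), m5.1, m5.2]
  · linarith [le_abs_self (K * B.tot W - K * A.tot U), m5.1, m5.2]

lemma rescale {z : I ⊕ J → ℝ} {S : ℝ} (h1 : ∑ i, z (.inl i) = S) (h2 : ∑ k, z k * z k = S)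
    (l : ℝ) : ∑ k, (ind I J k - l * z k) ^ 2 = ∑ k, (ind I J k - z k) ^ 2 + (1 - l) ^ 2 * S := by
  have e : ∑ k, ind I J k * z k = S := by simp [Fintype.sum_sum_type, ind, h1]
  have : ∀ k, (ind I J k - l * z k) ^ 2 = (ind I J k - z k) ^ 2 +
      2 * (1 - l) * (ind I J k * z k) + (l ^ 2 - 1) * (z k * z k) := fun k => by ring
  simp only [this, Finset.sum_add_distrib, ← Finset.mul_sum, e, h2]
  ring

end

lemma numC {K0 H0 K : ℝ} (h0 : 50 ≤ K0) (h1 : H0 ≤ 2 * K0) (h : |K0 - K| ≤ 11 / 1000) :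
    (1 - K / K0) ^ 2 * (K0 * H0) ≤ 1 / 1000 := by
  have e : (1 - K / K0) ^ 2 * (K0 * H0) = (K0 - K) ^ 2 * (H0 / K0) := by field_simp
  have a1 : H0 / K0 ≤ 2 := by rw [div_le_iff₀ (by linarith)]; exact h1
  have a2 : (K0 - K) ^ 2 ≤ (11 / 1000) ^ 2 := sq_le_sq' (abs_le.1 h).1 (abs_le.1 h).2
  rw [e]
  nlinarith [mul_le_mul_of_nonneg_left a1 (sq_nonneg (K0 - K))]

/-- the network form of the parity gap -/
lemma net2 {κ Ca : ℝ} (hκ : 0 < κ) (hC : 0 ≤ Ca) {K T μ : ℝ} (hK : 100 ≤ K) (h1 : K ≤ T)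
    (h2 : T ≤ K + 1) (hμ : μ * T = 3 * K) (μ2 : 2 ≤ μ) {I J : Type} [Fintype I] [Fintype J]
    {A B : Side (I ⊕ J)} {d : I ⊕ J → ℝ} {L ε : ℝ}
    (hO : Orth A B) (hAB : Dual A B) (hBA : Dual B A) (hn : (Fintype.card I : ℝ) = T ^ 2)
    (hL : 0 ≤ L) (hε : 0 ≤ ε) (d1 : ε ≤ 1 / 100000) (d2 : ε ≤ κ / 10000)
    (lA : Leak A (3 * K) d L) (lB : Leak B (3 * K) d L)
    (hd : ∑ k, d k ^ 2 ≤ (3 * K) ^ 2 - κ * L + ε)
    (hD : (3 * K) ^ 2 - 18 * ε ≤ ∑ i, d (.inl i) ^ 2)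
    (hX : T * (3 * K) - 3 * ε ≤ ∑ i, d (.inl i)) (As : Aspect A B (3 * K) d L Ca) {k c : ℤ}
    (hk : (Fintype.card I : ℤ) = k ^ 2 + 2 * c + 1) (hc : |T - k| ≤ 1 / 100) :
    κ ≤ 4 * Ca * (57 + 26 * κ) * ε := by
  have K0 : 0 < K := by linarith
  obtain ⟨τ, rfl⟩ : ∃ τ : ℝ, T = τ * K := ⟨T / K, by field_simp⟩
  have t1 : 1 ≤ τ := le_of_mul_le_mul_right (by linarith) K0
  have t2 : τ ≤ 101 / 100 := le_of_mul_le_mul_right (by linarith) K0
  obtain ⟨U, UA, W, WB, u1, a1, w1, b1, a2, b2, hz, hi, u3, w3, a3, b3⟩ :=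
    hodge_of I J A B hO hAB hBA
  have o1 : ∑ k, A.D UA k * A.D U k = 0 := by
    simp only [hz]; rw [hO UA W a1 w1, a2, zero_mul]
  have o2 : ∑ k, A.D U k * B.D WB k = 0 := by rw [hO U WB u1 b1, b2, mul_zero]
  have o3 : ∑ k, A.D UA k * B.D WB k = 0 := by rw [hO UA WB a1 b1, b2, mul_zero]
  have o4 : ∑ k, A.D U k * A.D U k = A.tot U * B.tot W := by
    rw [← hO U W u1 w1]; simp only [hz]
  obtain ⟨e1, e2, -, e4, e5⟩ := decomp d hi o1 o2 o3
  have kA := leak_closed lA hL a1 a2 a3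
  have kB := leak_closed lB hL b1 b2 b3
  have lU := leak_open lA hL u1 u3 e4
  have lW := leak_open lB hL w1 w3 (by simpa only [hz] using e4)
  simp only [← hz] at lW
  have wt := weighted (A.D U) d (τ * K) (3 * K)
  have hG0 : 0 ≤ ∑ k, A.D UA k ^ 2 + ∑ k, B.D WB k ^ 2 :=
    add_nonneg (Finset.sum_nonneg fun _ _ => sq_nonneg _) (Finset.sum_nonneg fun _ _ => sq_nonneg _)
  have eG : ∑ k, (ind I J k - A.D U k) ^ 2 = ∑ k, A.D UA k ^ 2 + ∑ k, B.D WB k ^ 2 := by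
    have : ∀ k, (ind I J k - A.D U k) ^ 2 =
        A.D UA k ^ 2 + B.D WB k ^ 2 + 2 * (A.D UA k * B.D WB k) := fun k => by rw [hi k]; ring
    simp only [this, Finset.sum_add_distrib, ← Finset.mul_sum, o3, mul_zero, add_zero]
  have hA0 : 0 ≤ ∑ j, d (.inr j) ^ 2 := Finset.sum_nonneg fun _ _ => sq_nonneg _
  have sp : ∑ k, d k ^ 2 = ∑ i, d (.inl i) ^ 2 + ∑ j, d (.inr j) ^ 2 := Fintype.sum_sum_type _
  have hκL : 0 ≤ κ * L := by positivity
  have q1 : κ * L ≤ 19 * ε := by linarith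
  have L1 : L ≤ 1 / 500 := le_of_mul_le_mul_left (by linarith) hκ
  have k1 := key (y := -(∑ k, A.D UA k ^ 2 + ∑ k, B.D WB k ^ 2)) (w := ε) K0 wt (by linarith)
    (by linarith)
  obtain ⟨c2, c3⟩ := numA t1 t2 hG0 hA0 (by linarith) L1 hε (by linarith) k1
  have hw : (∑ k, A.D UA k ^ 2 + ∑ k, B.D WB k ^ 2 + ∑ j, d (.inr j) ^ 2) / 2 ≤ 1 := by linarith
  have n1 := num4 hK hε c3 (num3 hK (by linarith) t2 hL (by linarith) hw (by linarith) c3 lU)
  have n2 := num4 hK hε c3 (num3 hK (by linarith) t2 hL (by linarith) hw (by linarith) c3 lW)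
  have as := As μ _ U W μ2 hμ u1 w1 hz
  have μ0 : 0 < μ := by linarith
  have z1 : ∑ k, (A.D U k - d k / μ) ^ 2 ≤ 5 * ε := by
    have e : μ ^ 2 * ∑ k, (A.D U k - d k / μ) ^ 2 = μ ^ 2 * ∑ k, A.D U k * A.D U k -
        2 * μ * ∑ k, A.D U k * d k + ∑ k, d k ^ 2 := by
      simp only [Finset.mul_sum, ← Finset.sum_sub_distrib, ← Finset.sum_add_distrib]
      exact Finset.sum_congr rfl fun k _ => by field_simp; ring
    have a4 := mul_le_mul_of_nonneg_left (abs_le.1 c3).1 μ0.le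
    have a5 := mul_le_mul_of_nonneg_left (show ∑ k, A.D U k * A.D U k ≤ (τ * K) ^ 2 by linarith)
      (sq_nonneg μ)
    refine le_of_mul_le_mul_left ?_ (pow_pos μ0 2)
    rw [e]
    rw [← hμ] at a4 hd
    nlinarith [mul_nonneg hε (show 0 ≤ μ - 2 by linarith),
      mul_nonneg (mul_nonneg hε μ0.le) (show 0 ≤ μ - 2 by linarith)]
  obtain ⟨p1, p2⟩ := abs_le.1 n1
  obtain ⟨p3, p4⟩ := abs_le.1 n2
  obtain ⟨p5, p6⟩ := abs_le.1 hc
  have U0 : 0 < A.tot U := by linarith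
  have W0 : 0 < B.tot W := by linarith
  have par := parity hO u1 w1 hz hk (div_mul_cancel₀ _ U0.ne') (div_mul_cancel₀ _ W0.ne')
    (e1.trans o4)
  have am := amgm (fun j => ind I J j - k / A.tot U * A.D U j)
    fun j => ind I J j - k / B.tot W * A.D U j
  rw [rescale (e1.trans o4) o4, rescale (e1.trans o4) o4, eG] at am
  have r1 := numC (K0 := A.tot U) (H0 := B.tot W) (K := k) (by linarith) (by linarith)
    (abs_le.2 ⟨by linarith, by linarith⟩)
  have r2 := numC (K0 := B.tot W) (H0 := A.tot U) (K := k) (by linarith) (by linarith)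
    (abs_le.2 ⟨by linarith, by linarith⟩)
  rw [mul_comm (B.tot W)] at r2
  rw [← mul_sub, abs_mul, abs_sub_comm (B.tot W), abs_of_nonneg (show (0 : ℝ) ≤ k by linarith)] at par
  have r3 := mul_le_mul_of_nonneg_right (show (k : ℝ) ≤ 2 * (τ * K) by linarith)
    (abs_nonneg (A.tot U - B.tot W))
  have r4 : (A.tot U - τ * K) ^ 2 ≤ L + ε := by nlinarith
  have r5 : (B.tot W - τ * K) ^ 2 ≤ L + ε := by nlinarith
  have r6 := as.trans (mul_le_mul_of_nonneg_left (show _ ≤ 3 * L + 26 * ε by linarith) hC)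
  have r7 : 1 / 4 ≤ Ca * (3 * L + 26 * ε) := by linarith
  nlinarith [mul_le_mul_of_nonneg_left r7 hκ.le, mul_le_mul_of_nonneg_left q1 hC]

/-- the gap next to a square of the other parity -/
lemma big2 : ∃ ε : ℝ, 0 < ε ∧ ∀ (I : Type) [Fintype I] (x y θ s : I → ℝ), 10000 ≤ Fintype.card I →
    (∀ i, 0 ≤ s i) → (∀ i, square (x i) (y i) (θ i) (s i) ⊆ Icc 0 1 ×ˢ Icc 0 1) →
    (∀ i j, i ≠ j → Disjoint (interior (square (x i) (y i) (θ i) (s i)))
      (interior (square (x j) (y j) (θ j) (s j)))) → ∀ k c : ℤ,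
    (Fintype.card I : ℤ) = k ^ 2 + 2 * c + 1 → |√(Fintype.card I) - k| ≤ 1 / 100 →
    ∑ i, s i ≤ √(Fintype.card I) - ε / √(Fintype.card I) := by
  obtain ⟨κ, w0, Ca, hκ, hw0, hC, h1⟩ := core2
  obtain ⟨ε, d0, d1, d2, d3, d4⟩ : ∃ η : ℝ, 0 < η ∧ η ≤ 1 / 100000 ∧ η ≤ κ / 10000 ∧
      η ≤ w0 / 20 ∧ η ≤ κ / (4 * Ca * (57 + 26 * κ) + 1) :=
    ⟨min _ (min _ (min _ _)), by positivity, min_le_left _ _,
      (min_le_right _ _).trans (min_le_left _ _),
      (min_le_right _ _).trans ((min_le_right _ _).trans (min_le_left _ _)),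
      (min_le_right _ _).trans ((min_le_right _ _).trans (min_le_right _ _))⟩
  refine ⟨ε, d0, fun I _ x y θ s hn s0 s1 s2 k c hk hc => ?_⟩
  obtain ⟨T, hT⟩ : ∃ T : ℝ, T = √(Fintype.card I) := ⟨_, rfl⟩
  obtain ⟨K, hK⟩ : ∃ K : ℕ, K = Nat.sqrt (Fintype.card I) := ⟨_, rfl⟩
  have T1 : (K : ℝ) ≤ T := by rw [hT, hK]; exact Real.nat_sqrt_le_real_sqrt
  have T2 : T ≤ K + 1 := by rw [hT, hK]; exact Real.real_sqrt_le_nat_sqrt_succ
  have K1 : (100 : ℝ) ≤ K := by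
    have : 100 ≤ K := by rw [hK]; exact Nat.le_sqrt.2 hn
    exact_mod_cast this
  have nT : (Fintype.card I : ℝ) = T ^ 2 := by rw [hT, Real.sq_sqrt (Nat.cast_nonneg _)]
  rw [← hT] at hc ⊢
  by_contra! hS
  have K0 : (0 : ℝ) < K := by linarith
  have l0 : (0 : ℝ) < 3 * K := by linarith
  choose q q1 q2 q3 using fun i => normal l0 (x i) (y i) (θ i) (s i)
  have sub : ∀ i, (q i).cl 0 ⊆ box (3 * K) := fun i z hz => by
    obtain ⟨⟨a1, a2⟩, a3, a4⟩ := s1 i (q3 i z hz)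
    simp only [Prod.smul_fst, Prod.smul_snd, smul_eq_mul] at a1 a2 a3 a4
    rw [inv_mul_le_iff₀ l0, mul_one] at a2 a4
    exact ⟨⟨nonneg_of_mul_nonneg_right a1 (inv_pos.2 l0), a2⟩,
      nonneg_of_mul_nonneg_right a3 (inv_pos.2 l0), a4⟩
  have int : ∀ i, ∀ z ∈ (q i).op, (3 * K : ℝ)⁻¹ • z ∈ interior (square (x i) (y i) (θ i) (s i)) :=
    fun i z hz => interior_maximal (t := (fun w => (3 * K : ℝ) • w) ⁻¹' (q i).op)
      (fun w hw => by simpa only [inv_smul_smul₀ l0.ne'] using q3 i _ ((q i).op_sub hw))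
      ((q i).isOpen_op.preimage (continuous_const_smul _))
      (by simpa only [mem_preimage, smul_inv_smul₀ l0.ne'] using hz)
  have dis : ∀ i j, i ≠ j → Disjoint (q i).op (q j).op := fun i j hij =>
    Set.disjoint_left.2 fun z a b => Set.disjoint_left.1 (s2 i j hij) (int i z a) (int j z b)
  have w1 := measureReal_nonneg.trans (waste_vol _ l0.le q
    (fun i => by rw [q1]; exact mul_nonneg l0.le (s0 i)) sub dis)
  have sd : ∑ i, (q i).d = 3 * K * ∑ i, s i := by simp only [q1, Finset.mul_sum]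
  have T0 : 0 < T := by linarith
  obtain ⟨μ, hμ⟩ : ∃ μ : ℝ, μ * T = 3 * K := ⟨_, div_mul_cancel₀ _ T0.ne'⟩
  have m1 : 297 / 100 ≤ μ := le_of_mul_le_mul_right (by linarith) T0
  have m2 : μ ≤ 3 := le_of_mul_le_mul_right (by linarith) T0
  have e0 : 0 ≤ ε := d0.le
  have sd' : T * (3 * K) - μ * ε < ∑ i, (q i).d := by
    have := mul_lt_mul_of_pos_left hS l0
    rw [sd]
    refine lt_of_eq_of_lt ?_ this
    rw [← hμ]; field_simp
  have var : (3 * K) ^ 2 - ∑ i, (q i).d ^ 2 + ∑ i, ((q i).d - μ) ^ 2 < 18 * ε + 0 := by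
    have e : ∑ i, ((q i).d - μ) ^ 2 =
        ∑ i, (q i).d ^ 2 - 2 * μ * ∑ i, (q i).d + T ^ 2 * μ ^ 2 := by
      simp only [sub_sq, Finset.sum_add_distrib, Finset.sum_sub_distrib, Finset.mul_sum,
        Finset.sum_const, Finset.card_univ, nsmul_eq_mul, nT]
      congr 2
      exact Finset.sum_congr rfl fun i _ => by ring
    have a1 : μ ^ 2 * ε ≤ 9 * ε := mul_le_mul_of_nonneg_right (by nlinarith) e0
    rw [e, ← hμ]
    rw [← hμ] at sd'
    linarith [mul_lt_mul_of_pos_left sd' (by linarith : 0 < μ)]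
  have v0 : 0 ≤ ∑ i, ((q i).d - μ) ^ 2 := Finset.sum_nonneg fun i _ => sq_nonneg _
  have e2 : 0 < ε := by linarith
  have one : ∀ i, |(q i).d - μ| ≤ 6 / 100 := fun i => abs_le_of_sq_le_sq' (by
    linarith [Finset.single_le_sum (f := fun i => ((q i).d - μ) ^ 2) (fun j _ => sq_nonneg _)
      (Finset.mem_univ i)]) (by norm_num) |> abs_le.2
  have P : Pack (3 * K) q := ⟨q2, fun i => by linarith [(abs_le.1 (one i)).1],
    fun i => by linarith [(abs_le.1 (one i)).2], by exact_mod_cast sub, dis⟩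
  have hw : waste (3 * K) q ≤ w0 := by
    rw [waste]; push_cast
    linarith
  obtain ⟨J, _, A, B, h, L, o1, o2, o3, o4, o5, o6, o7, o8⟩ :=
    h1 _ (3 * K) q P (by exact_mod_cast (by linarith : (1 : ℝ) ≤ 3 * K))
      (by omega) hw ε e2
  push_cast at o5 o6 o7 o8
  have := net2 hκ hC K1 T1 T2 hμ (by linarith) o1 o2 o3 nT o4 e0 (by linarith) (by linarith) o5 o6
    o7 (by simp only [Sum.elim_inl]; linarith)
    (by simp only [Sum.elim_inl]; linarith [mul_le_mul_of_nonneg_right m2 e0]) o8 hk hc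
  rw [le_div_iff₀ (by positivity)] at d4
  linarith

theorem order : ∃ η : ℝ, 0 < η ∧ ∀ (K : ℕ) (c : ℤ) (r : ℕ), |c| < K →
    (r : ℤ) = K ^ 2 + 2 * c + 1 → f r ≤ √r - η * (1 - |(c : ℝ)| / K) / K := by
  obtain ⟨η1, p1, h1⟩ := gap
  obtain ⟨η2, p2, h2⟩ := big2
  obtain ⟨η, d0, d1, d2, d3⟩ : ∃ η : ℝ, 0 < η ∧ η ≤ η1 / 1000 ∧ η ≤ η2 / 2 ∧ η ≤ 1 / 2 :=
    ⟨min _ (min _ _), by positivity, min_le_left _ _, (min_le_right _ _).trans (min_le_left _ _),
      (min_le_right _ _).trans (min_le_right _ _)⟩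
  refine ⟨η, d0, fun K c r hc hr => ?_⟩
  have c1 : |(c : ℝ)| + 1 ≤ K := by exact_mod_cast hc
  have c0 := abs_nonneg (c : ℝ)
  have K0 : (0 : ℝ) < K := by linarith
  have hr' : (r : ℝ) = K ^ 2 + 2 * c + 1 := by exact_mod_cast hr
  obtain ⟨c2, c3⟩ := abs_le.1 (le_sub_iff_add_le.2 c1)
  obtain ⟨T, hT⟩ : ∃ T, T = √(r : ℝ) := ⟨_, rfl⟩
  have T0 : 0 ≤ T := hT ▸ Real.sqrt_nonneg _
  have T2 : T ^ 2 = K ^ 2 + 2 * c + 1 := by rw [hT, Real.sq_sqrt (Nat.cast_nonneg _), hr']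
  obtain ⟨u, hu⟩ : ∃ u, u = 1 - |(c : ℝ)| / K := ⟨_, rfl⟩
  have uK : u * K = K - |(c : ℝ)| := by rw [hu]; field_simp
  have u0 : 0 < u := (mul_pos_iff_of_pos_right K0).1 (by linarith)
  have u1 : u ≤ 1 := le_of_mul_le_mul_right (by linarith) K0
  have T3 : T ≤ K + 1 - u / 2 := by
    refine abs_le_of_sq_le_sq' ?_ (by linarith) |>.2
    nlinarith [le_abs_self (c : ℝ)]
  have T4 : K - 1 + u / 2 ≤ T := by
    refine abs_le_of_sq_le_sq' ?_ T0 |>.2
    nlinarith [neg_abs_le (c : ℝ)]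
  have T5 : K / 2 ≤ T := by
    refine abs_le_of_sq_le_sq' ?_ T0 |>.2
    nlinarith [sq_nonneg ((K : ℝ) - 2)]
  have T1 : 0 < T := by linarith
  have T6 : T ≤ 2 * K := by linarith
  have fin : ∀ v, 2 * η * u ≤ v → η * u / K ≤ v / T := fun v hv => by
    rw [div_le_div_iff₀ K0 T1]
    nlinarith [mul_le_mul_of_nonneg_left T6 (mul_pos d0 u0).le, mul_le_mul_of_nonneg_right hv K0.le]
  rw [← hu]
  by_cases k : 10000 ≤ r ∧ |T - K| ≤ 1 / 100
  · refine Real.sSup_le ?_ ?_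
    · rintro _ ⟨x, y, θ, s, s0, s1, s2, rfl⟩
      have := h2 (Fin r) x y θ s (by rw [Fintype.card_fin]; exact k.1) s0 s1 s2 K c
        (by rw [Fintype.card_fin, hr]) (by rw [Fintype.card_fin, ← hT]; exact k.2)
      rw [Fintype.card_fin, ← hT] at this
      rw [← hT]
      linarith [fin η2 (by nlinarith)]
    · rw [← hT, sub_nonneg, div_le_iff₀ K0]
      nlinarith
  have k1 : 1 / 300 ≤ |T - K| := by
    by_contra! k1
    have k2 : (r : ℝ) < 10000 := by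
      by_contra! k2
      exact k ⟨by exact_mod_cast k2, by linarith⟩
    have k3 : T ≤ 100 := abs_le_of_sq_le_sq' (by linarith) (by norm_num) |>.2
    have k4 : (1 : ℝ) ≤ |2 * (c : ℝ) + 1| := by
      have : (1 : ℤ) ≤ |2 * c + 1| := Int.one_le_abs (by omega)
      exact_mod_cast this
    rw [show 2 * (c : ℝ) + 1 = (T + K) * (T - K) by linarith, abs_mul,
      abs_of_pos (show 0 < T + K by linarith)] at k4
    nlinarith [(abs_lt.1 k1).1, abs_nonneg (T - K)]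
  have k2 : u / 300 ≤ |T - round T| := by
    rcases lt_trichotomy (round T) K with h | h | h
    · have : (round T : ℝ) + 1 ≤ K := by exact_mod_cast h
      linarith [le_abs_self (T - round T)]
    · rw [h, Int.cast_natCast]; linarith
    · have : (K : ℝ) + 1 ≤ round T := by exact_mod_cast h
      linarith [neg_abs_le (T - round T)]
  have := h1 r
  rw [← hT] at this ⊢
  linarith [fin (η1 * |T - round T|) (by nlinarith [mul_le_mul_of_nonneg_left k2 p1.le])]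

end
end Pool.Agent.MP_a421c2_co.Gap
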